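import Mathlib

/-!
Trigonometric kernel on the torus: P x = prod_i cos (pi x_i)^2, its powers are trigonometric
polynomials with nonnegative coefficients, the largest one being the constant one.
-/

set_option autoImplicit false

open Finset

namespace Pool.Agent.Lib.MP_d2370c_gt

/-- The additive character `x ↦ exp (2 π i x)`. -/
noncomputable def ee (x : ℝ) : ℂ := Complex.exp (2 * Real.pi * x * Complex.I)

theorem ee_add (x y : ℝ) : ee (x + y) = ee x * ee y := by
  unfold ee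
  rw [← Complex.exp_add]
  congr 1
  push_cast
  ring

theorem ee_zero : ee 0 = 1 := by simp [ee]

theorem norm_ee (x : ℝ) : ‖ee x‖ = 1 := by
  unfold ee
  have : (2 * (Real.pi : ℂ) * (x : ℂ) * Complex.I) = ((2 * Real.pi * x : ℝ) : ℂ) * Complex.I := by
    push_cast; ring
  rw [this, Complex.norm_exp_ofReal_mul_I]

theorem ee_sum {ι : Type*} (s : Finset ι) (f : ι → ℝ) : ee (∑ i ∈ s, f i) = ∏ i ∈ s, ee (f i) := by
  classical
  induction s using Finset.induction_on with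
  | empty => simp [ee_zero]
  | insert a s ha ih => rw [Finset.sum_insert ha, Finset.prod_insert ha, ee_add, ih]

theorem continuous_ee : Continuous ee := by
  unfold ee
  fun_prop

/-- The kernel. -/
noncomputable def PP {d : ℕ} (x : Fin d → ℝ) : ℝ := ∏ i, Real.cos (Real.pi * x i) ^ 2

theorem PP_nonneg {d : ℕ} (x : Fin d → ℝ) : 0 ≤ PP x :=
  Finset.prod_nonneg fun _ _ => sq_nonneg _

theorem cos_sq_le_one' (y : ℝ) : Real.cos y ^ 2 ≤ 1 := by
  have := Real.sin_sq_add_cos_sq y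
  nlinarith [sq_nonneg (Real.sin y)]

theorem PP_le_one {d : ℕ} (x : Fin d → ℝ) : PP x ≤ 1 :=
  Finset.prod_le_one (fun _ _ => sq_nonneg _) fun _ _ => cos_sq_le_one' _

theorem continuous_PP {d : ℕ} : Continuous (PP (d := d)) := by
  unfold PP
  fun_prop

/-- A compact set without integer points: the kernel is bounded away from one. -/
theorem exists_q {d : ℕ} (K : Set (Fin d → ℝ)) (hK : IsCompact K)
    (hz : ∀ z : Fin d → ℤ, (fun i => (z i : ℝ)) ∉ K) :
    ∃ q : ℝ, 0 ≤ q ∧ q < 1 ∧ ∀ x ∈ K, PP x ≤ q := by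
  rcases K.eq_empty_or_nonempty with hne | hne
  · exact ⟨0, le_refl _, one_pos, fun x hx => by simp [hne] at hx⟩
  · obtain ⟨x0, hx0, hmax⟩ := hK.exists_isMaxOn hne (continuous_PP.continuousOn)
    refine ⟨PP x0, PP_nonneg _, lt_of_le_of_ne (PP_le_one _) ?_, fun x hx => hmax hx⟩
    intro h1
    have hall : ∀ i, Real.cos (Real.pi * x0 i) ^ 2 = 1 := by
      by_contra hcon
      push Not at hcon
      obtain ⟨i, hi⟩ := hcon
      have hlt : Real.cos (Real.pi * x0 i) ^ 2 < 1 := lt_of_le_of_ne (cos_sq_le_one' _) hi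
      have : PP x0 < 1 := by
        unfold PP
        rw [← Finset.mul_prod_erase _ _ (Finset.mem_univ i)]
        have h2 : ∏ j ∈ Finset.univ.erase i, Real.cos (Real.pi * x0 j) ^ 2 ≤ 1 :=
          Finset.prod_le_one (fun _ _ => sq_nonneg _) fun _ _ => cos_sq_le_one' _
        have h3 : 0 ≤ ∏ j ∈ Finset.univ.erase i, Real.cos (Real.pi * x0 j) ^ 2 :=
          Finset.prod_nonneg fun _ _ => sq_nonneg _
        nlinarith [sq_nonneg (Real.cos (Real.pi * x0 i))]
      linarith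
    have hint : ∀ i, ∃ n : ℤ, (n : ℝ) = x0 i := by
      intro i
      have hs : Real.sin (Real.pi * x0 i) = 0 := by
        have := Real.sin_sq_add_cos_sq (Real.pi * x0 i)
        have h0 : Real.sin (Real.pi * x0 i) ^ 2 = 0 := by rw [hall i] at this; linarith
        exact pow_eq_zero_iff (two_ne_zero) |>.mp h0
      obtain ⟨n, hn⟩ := Real.sin_eq_zero_iff.mp hs
      refine ⟨n, ?_⟩
      have hpi := Real.pi_pos
      have : (n : ℝ) * Real.pi = x0 i * Real.pi := by rw [hn]; ring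
      exact mul_right_cancel₀ hpi.ne' this
    choose z hzz using hint
    exact hz z (by
      have : (fun i => (z i : ℝ)) = x0 := funext hzz
      rw [this]; exact hx0)

/-- Expansion of a power of the squared cosine. -/
theorem cos_pow_expand (n : ℕ) (x : ℝ) :
    (((Real.cos (Real.pi * x) ^ 2) ^ n : ℝ) : ℂ) =
      ∑ k ∈ range (2 * n + 1), ((((2 * n).choose k : ℝ) / 4 ^ n : ℝ) : ℂ) * ee (((k : ℝ) - n) * x) := by
  have h1 : ((Real.cos (Real.pi * x) : ℝ) : ℂ) =
      (Complex.exp (Real.pi * x * Complex.I) + Complex.exp (-(Real.pi * x * Complex.I))) / 2 := by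
    rw [Complex.ofReal_cos]
    rw [Complex.cos]
    push_cast
    congr 2
    ring_nf
  have h2 : (((Real.cos (Real.pi * x) ^ 2) ^ n : ℝ) : ℂ) =
      (Complex.exp (Real.pi * x * Complex.I) + Complex.exp (-(Real.pi * x * Complex.I))) ^ (2 * n) / 4 ^ n := by
    rw [← pow_mul, Complex.ofReal_pow, h1, div_pow, pow_mul (2 : ℂ) 2 n]
    norm_num
  rw [h2, add_pow, Finset.sum_div]
  refine Finset.sum_congr rfl fun k hk => ?_
  have hk' : k ≤ 2 * n := by
    have := Finset.mem_range.mp hk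
    omega
  have e3 : Complex.exp (Real.pi * x * Complex.I) ^ k *
      Complex.exp (-(Real.pi * x * Complex.I)) ^ (2 * n - k) = ee (((k : ℝ) - n) * x) := by
    rw [← Complex.exp_nat_mul, ← Complex.exp_nat_mul, ← Complex.exp_add]
    unfold ee
    congr 1
    rw [Nat.cast_sub hk']
    push_cast
    ring
  rw [e3]
  push_cast
  ring

/-- The coefficients. -/
noncomputable def cf {d : ℕ} (n : ℕ) (κ : Fin d → ℕ) : ℝ := ∏ i, (((2 * n).choose (κ i) : ℝ) / 4 ^ n)

/-- The index set. -/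
def ix (d n : ℕ) : Finset (Fin d → ℕ) := Fintype.piFinset fun _ => range (2 * n + 1)

theorem PP_pow_expand {d : ℕ} (n : ℕ) (x : Fin d → ℝ) :
    ((PP x ^ n : ℝ) : ℂ) = ∑ κ ∈ ix d n, ((cf n κ : ℝ) : ℂ) * ee (∑ i, ((κ i : ℝ) - n) * x i) := by
  have h1 : ((PP x ^ n : ℝ) : ℂ) = ∏ i, (((Real.cos (Real.pi * x i) ^ 2) ^ n : ℝ) : ℂ) := by
    unfold PP
    rw [← Finset.prod_pow]
    push_cast
    rfl
  rw [h1]
  simp_rw [cos_pow_expand]
  rw [Finset.prod_univ_sum]
  refine Finset.sum_congr rfl fun κ _ => ?_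
  rw [Finset.prod_mul_distrib, ee_sum]
  unfold cf
  push_cast
  rfl

theorem cf_nonneg {d : ℕ} (n : ℕ) (κ : Fin d → ℕ) : 0 ≤ cf n κ :=
  Finset.prod_nonneg fun _ _ => by positivity

theorem cf_le {d : ℕ} (n : ℕ) (κ : Fin d → ℕ) : cf n κ ≤ cf n (fun _ : Fin d => n) := by
  unfold cf
  refine Finset.prod_le_prod (fun _ _ => by positivity) fun i _ => ?_
  have h1 : (2 * n).choose (κ i) ≤ (2 * n).choose n := by
    have := Nat.choose_le_centralBinom (κ i) n
    rwa [Nat.centralBinom_eq_two_mul_choose] at this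
  have h2 : (((2 * n).choose (κ i) : ℕ) : ℝ) ≤ (((2 * n).choose n : ℕ) : ℝ) := by exact_mod_cast h1
  gcongr

theorem cf_lower {d : ℕ} (n : ℕ) (hn : 1 ≤ n) : (1 / (2 * (n : ℝ))) ^ d ≤ cf n (fun _ : Fin d => n) := by
  unfold cf
  rw [Finset.prod_const, Finset.card_univ, Fintype.card_fin]
  have h1 : 4 ^ n ≤ 2 * n * Nat.centralBinom n := Nat.four_pow_le_two_mul_self_mul_centralBinom n (by omega)
  rw [Nat.centralBinom_eq_two_mul_choose] at h1
  have h2 : (4 : ℝ) ^ n ≤ 2 * n * ((2 * n).choose n : ℕ) := by exact_mod_cast h1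
  have hn' : (0 : ℝ) < n := by exact_mod_cast hn
  refine pow_le_pow_left₀ (by positivity) ?_ d
  rw [div_le_div_iff₀ (by positivity) (by positivity)]
  linarith

/-- Polynomial lower bounds beat exponential upper bounds. -/
theorem no_bound (d : ℕ) (γ q : ℝ) (hγ : 0 < γ) (hq0 : 0 ≤ q) (hq1 : q < 1)
    (h : ∀ n : ℕ, 1 ≤ n → (1 / (2 * (n : ℝ))) ^ d * γ ≤ q ^ n) : False := by
  have h1 : Filter.Tendsto (fun n : ℕ => (n : ℝ) ^ d * q ^ n) Filter.atTop (nhds 0) :=
    tendsto_pow_const_mul_const_pow_of_lt_one d hq0 hq1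
  have h2 : Filter.Tendsto (fun n : ℕ => 2 ^ d * ((n : ℝ) ^ d * q ^ n)) Filter.atTop (nhds (2 ^ d * 0)) :=
    h1.const_mul _
  rw [mul_zero] at h2
  have h3 : ∀ᶠ n : ℕ in Filter.atTop, 2 ^ d * ((n : ℝ) ^ d * q ^ n) < γ := (tendsto_order.1 h2).2 γ hγ
  obtain ⟨n, hn, hn1⟩ := (h3.and (Filter.eventually_ge_atTop 1)).exists
  have h4 := h n hn1
  have hn' : (0 : ℝ) < n := by exact_mod_cast hn1
  have h5 : (1 / (2 * (n : ℝ))) ^ d * (2 ^ d * (n : ℝ) ^ d) = 1 := by
    rw [← mul_pow, ← mul_pow]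
    have : 1 / (2 * (n : ℝ)) * (2 * n) = 1 := by field_simp
    rw [this, one_pow]
  have h6 : γ ≤ 2 ^ d * ((n : ℝ) ^ d * q ^ n) := by
    calc γ = ((1 / (2 * (n : ℝ))) ^ d * (2 ^ d * (n : ℝ) ^ d)) * γ := by rw [h5, one_mul]
      _ = (2 ^ d * (n : ℝ) ^ d) * ((1 / (2 * (n : ℝ))) ^ d * γ) := by ring
      _ ≤ (2 ^ d * (n : ℝ) ^ d) * q ^ n := by
          apply mul_le_mul_of_nonneg_left h4; positivity
      _ = _ := by ring
  linarith

end Pool.Agent.Lib.MP_d2370c_gt
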