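import Mathlib
import Pool.Agent.Lib.MP_d2370c_gt.CoreA

/-!
The extremal density `8 cos (pi x)^2 / (pi^2 (1 - 4 x^2)^2)`: its characteristic function vanishes
outside `(-1, 1)`, so does the one of its second moment, and its second moment is `1/4`.
-/

set_option autoImplicit false

open MeasureTheory Set FourierTransform

namespace Pool.Agent.Lib.MP_d2370c_gt

/-- An even function supported in `[-1, 1]`. -/
noncomputable def GG (p s : ℝ) (u : ℝ) : ℝ :=
  if |u| ≤ 1 then p * ((1 - |u|) * Real.cos (Real.pi * u)) + s * Real.sin (Real.pi * |u|) else 0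

theorem continuous_GG (p s : ℝ) : Continuous (GG p s) := by
  unfold GG
  refine Continuous.if_le (by fun_prop) continuous_const continuous_abs continuous_const ?_
  intro u hu
  rw [hu]
  simp

theorem GG_of_one_le (p s u : ℝ) (hu : 1 ≤ |u|) : GG p s u = 0 := by
  unfold GG
  split_ifs with h
  · have : |u| = 1 := le_antisymm h hu
    rw [this]; simp
  · rfl

theorem GG_zero (p s : ℝ) : GG p s 0 = p := by
  unfold GG
  simp

theorem GG_neg (p s u : ℝ) : GG p s (-u) = GG p s u := by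
  unfold GG
  rw [abs_neg, mul_neg, Real.cos_neg]

theorem GG_of_mem (p s u : ℝ) (h0 : 0 ≤ u) (h1 : u ≤ 1) :
    GG p s u = p * ((1 - u) * Real.cos (Real.pi * u)) + s * Real.sin (Real.pi * u) := by
  unfold GG
  rw [abs_of_nonneg h0, if_pos h1]

theorem hasCompactSupport_GG (p s : ℝ) : HasCompactSupport (GG p s) := by
  refine HasCompactSupport.intro (isCompact_Icc (a := (-1 : ℝ)) (b := 1)) fun u hu => ?_
  apply GG_of_one_le
  by_contra hcon
  push Not at hcon
  exact hu (abs_le.mp hcon.le)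

theorem integrable_GG (p s : ℝ) : Integrable (fun u => (GG p s u : ℂ)) :=
  ((continuous_GG p s).integrable_of_hasCompactSupport (hasCompactSupport_GG p s)).ofReal

/-- The integral over `[0, 1]`. -/
theorem integral_half (p s w : ℝ) (ha : 1 + 2 * w ≠ 0) (hb : 1 - 2 * w ≠ 0) :
    ∫ u in (0 : ℝ)..1, 2 * Real.cos (2 * Real.pi * u * w) *
        (p * ((1 - u) * Real.cos (Real.pi * u)) + s * Real.sin (Real.pi * u)) =
      2 * Real.cos (Real.pi * w) ^ 2 *
        (p * (1 / (Real.pi * (1 + 2 * w)) ^ 2 + 1 / (Real.pi * (1 - 2 * w)) ^ 2) +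
          s * (1 / (Real.pi * (1 + 2 * w)) + 1 / (Real.pi * (1 - 2 * w)))) := by
  have hpi := Real.pi_pos
  set a : ℝ := Real.pi * (1 + 2 * w) with hadef
  set b : ℝ := Real.pi * (1 - 2 * w) with hbdef
  have ha0 : a ≠ 0 := mul_ne_zero hpi.ne' ha
  have hb0 : b ≠ 0 := mul_ne_zero hpi.ne' hb
  have h1 : ∀ u : ℝ, 2 * Real.cos (2 * Real.pi * u * w) *
      (p * ((1 - u) * Real.cos (Real.pi * u)) + s * Real.sin (Real.pi * u)) =
      p * ((1 - u) * (Real.cos (a * u) + Real.cos (b * u))) + s * (Real.sin (a * u) + Real.sin (b * u)) := by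
    intro u
    have e1 : a * u = Real.pi * u + 2 * Real.pi * u * w := by rw [hadef]; ring
    have e2 : b * u = Real.pi * u - 2 * Real.pi * u * w := by rw [hbdef]; ring
    rw [e1, e2, Real.cos_add, Real.cos_sub, Real.sin_add, Real.sin_sub]
    ring
  simp_rw [h1]
  have hder : ∀ u ∈ uIcc (0 : ℝ) 1, HasDerivAt (fun u : ℝ =>
      p * (((1 - u) * Real.sin (a * u) / a - Real.cos (a * u) / a ^ 2) +
        ((1 - u) * Real.sin (b * u) / b - Real.cos (b * u) / b ^ 2)) +
      s * (-(Real.cos (a * u) / a) - Real.cos (b * u) / b))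
      (p * ((1 - u) * (Real.cos (a * u) + Real.cos (b * u))) + s * (Real.sin (a * u) + Real.sin (b * u))) u := by
    intro u _
    have hs : ∀ c : ℝ, HasDerivAt (fun u : ℝ => Real.sin (c * u)) (Real.cos (c * u) * c) u := by
      intro c
      have h6 : HasDerivAt (fun u : ℝ => c * u) c u := by simpa using (hasDerivAt_id u).const_mul c
      exact h6.sin
    have hc : ∀ c : ℝ, HasDerivAt (fun u : ℝ => Real.cos (c * u)) (-Real.sin (c * u) * c) u := by
      intro c
      have h6 : HasDerivAt (fun u : ℝ => c * u) c u := by simpa using (hasDerivAt_id u).const_mul c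
      exact h6.cos
    have hl : HasDerivAt (fun u : ℝ => 1 - u) (-1) u := by
      simpa using (hasDerivAt_id u).const_sub 1
    have e1 : ∀ c : ℝ, c ≠ 0 → HasDerivAt (fun u : ℝ => (1 - u) * Real.sin (c * u) / c - Real.cos (c * u) / c ^ 2)
        ((1 - u) * Real.cos (c * u)) u := by
      intro c hc0
      have h5 := ((hl.mul (hs c)).div_const c).sub ((hc c).div_const (c ^ 2))
      refine h5.congr_deriv ?_
      field_simp
      ring
    have e2 := (((e1 a ha0).add (e1 b hb0)).const_mul p).add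
      ((((hc a).div_const a).neg.sub ((hc b).div_const b)).const_mul s)
    refine e2.congr_deriv ?_
    field_simp
    ring
  rw [intervalIntegral.integral_eq_sub_of_hasDerivAt hder (by
    apply Continuous.intervalIntegrable
    fun_prop)]
  have hca : Real.cos (a * 1) = 1 - 2 * Real.cos (Real.pi * w) ^ 2 := by
    have : a * 1 = 2 * (Real.pi * w) + Real.pi := by rw [hadef]; ring
    rw [this, Real.cos_add_pi, Real.cos_two_mul]
    ring
  have hcb : Real.cos (b * 1) = 1 - 2 * Real.cos (Real.pi * w) ^ 2 := by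
    have : b * 1 = Real.pi - 2 * (Real.pi * w) := by rw [hbdef]; ring
    rw [this, Real.cos_pi_sub, Real.cos_two_mul]
    ring
  rw [hca, hcb]
  simp only [mul_zero, Real.cos_zero, Real.sin_zero, sub_self, zero_mul, zero_div, sub_zero, zero_sub]
  field_simp
  ring

/-- The Fourier transform. -/
theorem fourier_GG (p s w : ℝ) (ha : 1 + 2 * w ≠ 0) (hb : 1 - 2 * w ≠ 0) :
    𝓕 (fun u => (GG p s u : ℂ)) w = ((2 * Real.cos (Real.pi * w) ^ 2 *
        (p * (1 / (Real.pi * (1 + 2 * w)) ^ 2 + 1 / (Real.pi * (1 - 2 * w)) ^ 2) +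
          s * (1 / (Real.pi * (1 + 2 * w)) + 1 / (Real.pi * (1 - 2 * w)))) : ℝ) : ℂ) := by
  rw [Real.fourier_real_eq_integral_exp_smul]
  set h : ℝ → ℂ := fun v => Complex.exp (((-2 * Real.pi * v * w : ℝ) : ℂ) * Complex.I) • (GG p s v : ℂ) with hh
  have hcont : Continuous h := by
    have := continuous_GG p s
    rw [hh]
    fun_prop
  have h1 : ∫ v, h v = ∫ v in (-1 : ℝ)..1, h v := by
    symm
    apply intervalIntegral.integral_eq_integral_of_support_subset
    intro v hv
    rw [Function.mem_support] at hv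
    by_contra hcon
    apply hv
    have : GG p s v = 0 := by
      apply GG_of_one_le
      rw [mem_Ioc, not_and_or] at hcon
      rcases hcon with h3 | h3
      · rw [abs_of_nonpos (by linarith)]; linarith
      · push Not at h3
        rw [abs_of_pos (by linarith)]; linarith
    rw [hh]
    simp [this]
  have h2 : ∫ v in (-1 : ℝ)..1, h v = ∫ v in (0 : ℝ)..1, (h (-v) + h v) := by
    have hcn : Continuous fun v : ℝ => h (-v) := hcont.comp continuous_neg
    rw [intervalIntegral.integral_add hcn.continuousOn.intervalIntegrable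
      hcont.continuousOn.intervalIntegrable]
    have h3 : ∫ v in (0 : ℝ)..1, h (-v) = ∫ v in (-1 : ℝ)..0, h v := by
      have := intervalIntegral.integral_comp_neg (a := (0 : ℝ)) (b := 1) h
      simp only [neg_zero] at this
      exact this
    rw [h3, intervalIntegral.integral_add_adjacent_intervals] <;>
      exact hcont.continuousOn.intervalIntegrable
  have h4 : ∫ v in (0 : ℝ)..1, (h (-v) + h v) = ∫ v in (0 : ℝ)..1,
      ((2 * Real.cos (2 * Real.pi * v * w) *
        (p * ((1 - v) * Real.cos (Real.pi * v)) + s * Real.sin (Real.pi * v)) : ℝ) : ℂ) := by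
    apply intervalIntegral.integral_congr
    intro v hv
    rw [uIcc_of_le zero_le_one, mem_Icc] at hv
    simp only [hh]
    rw [GG_neg, GG_of_mem p s v hv.1 hv.2, smul_eq_mul, smul_eq_mul, ← add_mul]
    have h5 : Complex.exp (((-2 * Real.pi * -v * w : ℝ) : ℂ) * Complex.I) +
        Complex.exp (((-2 * Real.pi * v * w : ℝ) : ℂ) * Complex.I) = ((2 * Real.cos (2 * Real.pi * v * w) : ℝ) : ℂ) := by
      have e1 : (((-2 * Real.pi * -v * w : ℝ) : ℂ) * Complex.I) = ((2 * Real.pi * v * w : ℝ) : ℂ) * Complex.I := by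
        push_cast; ring
      have e2 : (((-2 * Real.pi * v * w : ℝ) : ℂ) * Complex.I) = (-((2 * Real.pi * v * w : ℝ) : ℂ)) * Complex.I := by
        push_cast; ring
      rw [e1, e2, ← Complex.two_cos, Complex.ofReal_mul 2 (Real.cos _), Complex.ofReal_cos]
      push_cast
      ring
    rw [h5]
    push_cast
    ring
  rw [h1, h2, h4, intervalIntegral.integral_ofReal, integral_half p s w ha hb]

/-- The density. -/
noncomputable def ff (x : ℝ) : ℝ := 8 * Real.cos (Real.pi * x) ^ 2 / (Real.pi ^ 2 * (1 - 4 * x ^ 2) ^ 2)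

theorem ff_nonneg (x : ℝ) : 0 ≤ ff x := by unfold ff; positivity

theorem fourier_one (w : ℝ) (ha : 1 + 2 * w ≠ 0) (hb : 1 - 2 * w ≠ 0) :
    𝓕 (fun u => (GG 1 (1 / Real.pi) u : ℂ)) w = ((ff w : ℝ) : ℂ) := by
  rw [fourier_GG _ _ _ ha hb]
  congr 1
  have hpi := Real.pi_pos.ne'
  have hab : (1 - 4 * w ^ 2) = (1 + 2 * w) * (1 - 2 * w) := by ring
  unfold ff
  rw [hab]
  field_simp
  ring

theorem fourier_two (w : ℝ) (ha : 1 + 2 * w ≠ 0) (hb : 1 - 2 * w ≠ 0) :
    𝓕 (fun u => (GG (1 / 4) (-(1 / (4 * Real.pi))) u : ℂ)) w = ((w ^ 2 * ff w : ℝ) : ℂ) := by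
  rw [fourier_GG _ _ _ ha hb]
  congr 1
  have hpi := Real.pi_pos.ne'
  have hab : (1 - 4 * w ^ 2) = (1 + 2 * w) * (1 - 2 * w) := by ring
  unfold ff
  rw [hab]
  field_simp
  ring

theorem measurable_ff : Measurable ff := by
  unfold ff
  fun_prop

theorem ae_good : ∀ᵐ w : ℝ, 1 + 2 * w ≠ 0 ∧ 1 - 2 * w ≠ 0 := by
  have h : ({-(1 / 2), 1 / 2} : Set ℝ).Finite := by simp
  have h0 : volume ({-(1 / 2), 1 / 2} : Set ℝ) = 0 := h.measure_zero volume
  rw [ae_iff]
  refine measure_mono_null (fun w hw => ?_) h0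
  rw [mem_ofPred_eq, not_and_or] at hw
  rcases hw with hw | hw
  · left
    have := not_not.mp hw
    linarith
  · right
    have := not_not.mp hw
    rw [mem_singleton_iff]
    linarith

theorem sq_mul_ff_le (w : ℝ) (hw : 1 < |w|) : w ^ 2 * ff w ≤ 2 * (1 + w ^ 2)⁻¹ := by
  have h1 : 1 < w ^ 2 := by
    rw [← sq_abs]; nlinarith
  have hpi : 3 < Real.pi := Real.pi_gt_three
  have h2 : 3 * w ^ 2 ≤ 4 * w ^ 2 - 1 := by linarith
  have h3 : (3 * w ^ 2) ^ 2 ≤ (1 - 4 * w ^ 2) ^ 2 := by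
    have : (1 - 4 * w ^ 2) ^ 2 = (4 * w ^ 2 - 1) ^ 2 := by ring
    rw [this]
    exact pow_le_pow_left₀ (by positivity) h2 2
  have h4 : ff w ≤ 8 * 1 / (9 * (3 * w ^ 2) ^ 2) := by
    unfold ff
    have h5 : Real.cos (Real.pi * w) ^ 2 ≤ 1 := cos_sq_le_one' _
    have h6 : (9 : ℝ) ≤ Real.pi ^ 2 := by nlinarith
    gcongr
  have h7 : w ^ 2 * (8 * 1 / (9 * (3 * w ^ 2) ^ 2)) = 8 / 81 * (w ^ 2)⁻¹ := by
    field_simp
    norm_num
  have h8 : 8 / 81 * (w ^ 2)⁻¹ ≤ 2 * (1 + w ^ 2)⁻¹ := by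
    have h9 : (w ^ 2)⁻¹ ≤ 2 * (1 + w ^ 2)⁻¹ := by
      rw [inv_eq_one_div, inv_eq_one_div, ← mul_div_assoc, mul_one, div_le_div_iff₀ (by linarith) (by linarith)]
      linarith
    have h10 : 0 ≤ (w ^ 2)⁻¹ := by positivity
    nlinarith
  calc w ^ 2 * ff w ≤ w ^ 2 * (8 * 1 / (9 * (3 * w ^ 2) ^ 2)) := by
        apply mul_le_mul_of_nonneg_left h4; positivity
    _ = _ := h7
    _ ≤ _ := h8

theorem bound_aux (C w x : ℝ) (hC : 0 ≤ C) (h1 : |w| ≤ 1 → x ≤ C) (h2 : 1 < |w| → x ≤ 2 * (1 + w ^ 2)⁻¹) :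
    x ≤ (2 * C + 2) * (1 + w ^ 2)⁻¹ := by
  have hpos : 0 < (1 + w ^ 2)⁻¹ := by positivity
  by_cases hw : |w| ≤ 1
  · have h3 : w ^ 2 ≤ 1 := by rw [← sq_abs]; nlinarith [abs_nonneg w]
    have h4 : 1 ≤ 2 * (1 + w ^ 2)⁻¹ := by
      rw [inv_eq_one_div, ← mul_div_assoc, mul_one, le_div_iff₀ (by positivity)]
      linarith
    nlinarith [h1 hw]
  · push Not at hw
    nlinarith [h2 hw]

theorem integrable_sq_mul_ff : Integrable (fun w : ℝ => w ^ 2 * ff w) := by
  set C : ℝ := ∫ v, ‖(GG (1 / 4) (-(1 / (4 * Real.pi))) v : ℂ)‖ with hC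
  have hC0 : 0 ≤ C := integral_nonneg fun _ => norm_nonneg _
  refine ((integrable_inv_one_add_sq).const_mul (2 * C + 2)).mono'
    ((measurable_id.pow_const 2).mul measurable_ff).aestronglyMeasurable ?_
  filter_upwards [ae_good] with w hw
  rw [Real.norm_eq_abs, abs_of_nonneg (mul_nonneg (sq_nonneg _) (ff_nonneg _))]
  refine bound_aux C w _ hC0 (fun _ => ?_) (sq_mul_ff_le w)
  have h1 := fourier_two w hw.1 hw.2
  have h2 : ‖𝓕 (fun u => (GG (1 / 4) (-(1 / (4 * Real.pi))) u : ℂ)) w‖ ≤ C :=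
    VectorFourier.norm_fourierIntegral_le_integral_norm _ _ _ _ _
  rw [h1, Complex.norm_real, Real.norm_eq_abs, abs_of_nonneg (mul_nonneg (sq_nonneg _) (ff_nonneg _))] at h2
  exact h2

theorem integrable_ff : Integrable ff := by
  set C : ℝ := ∫ v, ‖(GG 1 (1 / Real.pi) v : ℂ)‖ with hC
  have hC0 : 0 ≤ C := integral_nonneg fun _ => norm_nonneg _
  refine ((integrable_inv_one_add_sq).const_mul (2 * C + 2)).mono' measurable_ff.aestronglyMeasurable ?_
  filter_upwards [ae_good] with w hw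
  rw [Real.norm_eq_abs, abs_of_nonneg (ff_nonneg _)]
  refine bound_aux C w _ hC0 (fun _ => ?_) (fun h => ?_)
  · have h1 := fourier_one w hw.1 hw.2
    have h2 : ‖𝓕 (fun u => (GG 1 (1 / Real.pi) u : ℂ)) w‖ ≤ C :=
      VectorFourier.norm_fourierIntegral_le_integral_norm _ _ _ _ _
    rw [h1, Complex.norm_real, Real.norm_eq_abs, abs_of_nonneg (ff_nonneg _)] at h2
    exact h2
  · refine le_trans ?_ (sq_mul_ff_le w h)
    have h1 : 1 < w ^ 2 := by rw [← sq_abs]; nlinarith
    nlinarith [ff_nonneg w]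

theorem inversion (p s : ℝ) (g : ℝ → ℝ) (hg : Integrable g)
    (h : ∀ w : ℝ, 1 + 2 * w ≠ 0 → 1 - 2 * w ≠ 0 → 𝓕 (fun u => (GG p s u : ℂ)) w = (g w : ℂ)) (u : ℝ) :
    ∫ x, (g x : ℂ) * ee (x * u) = (GG p s u : ℂ) := by
  have hae : 𝓕 (fun u => (GG p s u : ℂ)) =ᵐ[volume] fun w => (g w : ℂ) := by
    filter_upwards [ae_good] with w hw
    exact h w hw.1 hw.2
  have hint : Integrable (𝓕 (fun u => (GG p s u : ℂ))) := hg.ofReal.congr hae.symm
  have hcont : Continuous (fun u => (GG p s u : ℂ)) := Complex.continuous_ofReal.comp (continuous_GG p s)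
  have h1 := congrFun (hcont.fourierInv_fourier_eq (integrable_GG p s) hint) u
  rw [Real.fourierInv_eq'] at h1
  rw [← h1]
  apply integral_congr_ae
  filter_upwards [hae] with w hw
  rw [hw, smul_eq_mul, mul_comm]
  congr 1
  unfold ee
  congr 1
  have : inner ℝ w u = u * w := by simp
  rw [this]
  push_cast
  ring

theorem inversion_one (u : ℝ) : ∫ x, (ff x : ℂ) * ee (x * u) = (GG 1 (1 / Real.pi) u : ℂ) :=
  inversion _ _ ff integrable_ff fourier_one u

theorem inversion_two (u : ℝ) :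
    ∫ x, ((x ^ 2 * ff x : ℝ) : ℂ) * ee (x * u) = (GG (1 / 4) (-(1 / (4 * Real.pi))) u : ℂ) :=
  inversion _ _ (fun x => x ^ 2 * ff x) integrable_sq_mul_ff fourier_two u

/-- The measure with density `ff`. -/
noncomputable def muA : Measure ℝ := volume.withDensity fun x => ((ff x).toNNReal : ENNReal)

theorem integral_muA (g : ℝ → ℂ) : ∫ x, g x ∂muA = ∫ x, (ff x : ℂ) * g x := by
  unfold muA
  rw [integral_withDensity_eq_integral_smul measurable_ff.real_toNNReal]
  refine integral_congr_ae (Filter.Eventually.of_forall fun x => ?_)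
  simp only
  rw [NNReal.smul_def, Real.coe_toNNReal _ (ff_nonneg x), Complex.real_smul]

theorem integral_ff : ∫ x, ff x = 1 := by
  have h := inversion_one 0
  simp only [mul_zero, ee_zero, mul_one, GG_zero] at h
  have h2 : ∫ x, ((ff x : ℝ) : ℂ) = ((∫ x, ff x : ℝ) : ℂ) := integral_ofReal
  rw [h2] at h
  exact_mod_cast h

instance : IsProbabilityMeasure muA := by
  refine ⟨?_⟩
  unfold muA
  rw [withDensity_apply _ MeasurableSet.univ, Measure.restrict_univ]
  have h1 : ∫⁻ x, ((ff x).toNNReal : ENNReal) = ∫⁻ x, ENNReal.ofReal (ff x) := rfl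
  rw [h1, ← ofReal_integral_eq_lintegral_ofReal integrable_ff (Filter.Eventually.of_forall ff_nonneg), integral_ff]
  simp

theorem phi_muA (u : ℝ) (hu : 1 ≤ |u|) : phi muA u = 0 := by
  unfold phi
  rw [integral_muA, inversion_one, GG_of_one_le _ _ _ hu]
  simp

theorem phi2_muA_eq (u : ℝ) : phi2 muA u = (GG (1 / 4) (-(1 / (4 * Real.pi))) u : ℂ) := by
  unfold phi2
  rw [integral_muA, ← inversion_two]
  refine integral_congr_ae (Filter.Eventually.of_forall fun x => ?_)
  simp only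
  push_cast
  ring

theorem phi2_muA (u : ℝ) (hu : 1 ≤ |u|) : phi2 muA u = 0 := by
  rw [phi2_muA_eq, GG_of_one_le _ _ _ hu]
  simp

theorem integrable_sq_muA : Integrable (fun x : ℝ => x ^ 2) muA := by
  unfold muA
  rw [integrable_withDensity_iff_integrable_smul measurable_ff.real_toNNReal]
  refine integrable_sq_mul_ff.congr (Filter.Eventually.of_forall fun x => ?_)
  simp only
  rw [NNReal.smul_def, Real.coe_toNNReal _ (ff_nonneg x), smul_eq_mul, mul_comm]

theorem integral_sq_muA : ∫ x, x ^ 2 ∂muA = 1 / 4 := by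
  have h := phi2_zero muA
  rw [phi2_muA_eq, GG_zero] at h
  exact_mod_cast h.symm

end Pool.Agent.Lib.MP_d2370c_gt
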