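import Mathlib
import Pool.Agent.Lib.MP_d2370c_gt.Density

/-!
Convex bodies between an ellipsoid and its circumscribed polytope with 2N vertices.
-/

set_option autoImplicit false

open Finset MeasureTheory

namespace Pool.Agent.Lib.MP_d2370c_gt

variable {d N : ℕ}

theorem XX_eq (x0 : Fin d → ℝ) (v : Fin N → Fin d → ℝ) (t : Fin N → ℝ) :
    XX x0 v t = x0 + ∑ j, t j • v j := by
  funext i
  simp [XX, Finset.sum_apply]

/-- A finite family: uniform gap. -/
theorem exists_gap (v : Fin N → Fin d → ℝ) (F : Finset (Fin d → ℤ))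
    (h : ∀ y ∈ F, ∃ j, 1 / 2 < |pr v (fun i => (y i : ℝ)) j|) :
    ∃ r : ℝ, 1 / 2 < r ∧ r ≤ 1 ∧ ∀ y ∈ F, ∃ j, r ≤ |pr v (fun i => (y i : ℝ)) j| := by
  classical
  induction F using Finset.induction_on with
  | empty => exact ⟨1, by norm_num, le_refl _, by simp⟩
  | insert a F _ ih =>
    obtain ⟨r, hr1, hr2, hr3⟩ := ih fun y hy => h y (Finset.mem_insert_of_mem hy)
    obtain ⟨j, hj⟩ := h a (Finset.mem_insert_self _ _)
    refine ⟨min r |pr v (fun i => (a i : ℝ)) j|, lt_min hr1 hj, (min_le_left _ _).trans hr2, ?_⟩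
    intro y hy
    rcases Finset.mem_insert.mp hy with rfl | hy
    · exact ⟨j, min_le_right _ _⟩
    · obtain ⟨j', hj'⟩ := hr3 y hy
      exact ⟨j', (min_le_left _ _).trans hj'⟩

theorem exists_point_ball (v : Fin N → Fin d → ℝ) (x0 : Fin d → ℝ) (r : ℝ) (hr : 1 / 2 < r) (hN : 1 ≤ N)
    (hy : ∀ y : Fin d → ℤ, y ≠ 0 → ∃ j, r ≤ |pr v (fun i => (y i : ℝ)) j|) :
    ∃ z : Fin d → ℤ, ∃ t : Fin N → ℝ, ∑ j, t j ^ 2 < N ∧ x0 + ∑ j, t j • v j = fun i => (z i : ℝ) := by
  have hr0 : 0 < r := by linarith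
  have hN' : (0 : ℝ) < N := by exact_mod_cast hN
  have hr2 : 1 / 4 < r ^ 2 := by nlinarith
  obtain ⟨A, hA1, hA2⟩ := exists_between (show (N : ℝ) * (1 / 4) < N * r ^ 2 from
    mul_lt_mul_of_pos_left hr2 hN')
  have hA0 : 0 < A := by nlinarith
  obtain ⟨z, t, ht, hz⟩ := exists_point_A muA integrable_sq_muA phi_muA phi2_muA x0 (fun j i => v j i / r)
    (by
      intro y hy0
      obtain ⟨j, hj⟩ := hy y hy0
      refine ⟨j, ?_⟩
      have : pr (fun j i => v j i / r) (fun i => (y i : ℝ)) j = pr v (fun i => (y i : ℝ)) j / r := by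
        unfold pr
        rw [Finset.sum_div]
        refine Finset.sum_congr rfl fun i _ => by ring
      rw [this, abs_div, abs_of_pos hr0, le_div_iff₀ hr0, one_mul]
      exact hj) A hA0 (by rw [integral_sq_muA, Fintype.card_fin]; exact hA1)
  refine ⟨z, fun j => t j / r, ?_, ?_⟩
  · have h1 : ∑ j, (t j / r) ^ 2 = (∑ j, t j ^ 2) / r ^ 2 := by
      rw [Finset.sum_div]
      refine Finset.sum_congr rfl fun j _ => by rw [div_pow]
    rw [h1, div_lt_iff₀ (by positivity)]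
    linarith
  · rw [← hz]
    funext i
    simp only [XX, Pi.add_apply, Finset.sum_apply, Pi.smul_apply, smul_eq_mul]
    congr 1
    refine Finset.sum_congr rfl fun j _ => by ring

theorem mem_interior_of_combo (K : Set (Fin d → ℝ)) (hK : Convex ℝ K) (z z0 : Fin d → ℝ)
    (hz0 : z0 ∈ interior K) (τ : ℝ) (hτ : 0 < τ) (h : z + τ • (z - z0) ∈ K) : z ∈ interior K := by
  have h1 := hK.combo_self_interior_mem_interior h hz0 (a := 1 / (1 + τ)) (b := τ / (1 + τ))
    (by positivity) (by positivity) (by field_simp)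
  have h2 : (1 / (1 + τ)) • (z + τ • (z - z0)) + (τ / (1 + τ)) • z0 = z := by
    funext i
    simp only [Pi.add_apply, Pi.smul_apply, Pi.sub_apply, smul_eq_mul]
    field_simp
    ring
  rwa [h2] at h1

theorem sum_diff_eq (v : Fin N → Fin d → ℝ) (x0 : Fin d → ℝ) (t t' : Fin N → ℝ) (y : Fin d → ℝ) :
    ∑ i, ((x0 + ∑ j, t j • v j) i - (x0 + ∑ j, t' j • v j) i) * y i = ∑ j, (t j - t' j) * pr v y j := by
  unfold pr
  simp_rw [Finset.mul_sum]
  rw [Finset.sum_comm]
  refine Finset.sum_congr rfl fun i _ => ?_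
  simp only [Pi.add_apply, Finset.sum_apply, Pi.smul_apply, smul_eq_mul]
  rw [add_sub_add_left_eq_sub, ← Finset.sum_sub_distrib, Finset.sum_mul]
  refine Finset.sum_congr rfl fun j _ => by ring

/-- The upper bound. -/
theorem width_le_A (K : Set (Fin d → ℝ)) (hconv : Convex ℝ K)
    (hint : (interior K).Nonempty) (hfree : ∀ z : Fin d → ℤ, (fun i => (z i : ℝ)) ∉ interior K)
    (v : Fin N → Fin d → ℝ) (x0 : Fin d → ℝ) (M : ℝ)
    (hin : ∀ t : Fin N → ℝ, ∑ j, t j ^ 2 ≤ N → x0 + ∑ j, t j • v j ∈ K)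
    (hout : ∀ x ∈ K, ∃ t : Fin N → ℝ, ∑ j, |t j| ≤ M * N ∧ x = x0 + ∑ j, t j • v j) :
    ∃ y : Fin d → ℤ, y ≠ 0 ∧ ∀ x ∈ K, ∀ x' ∈ K, ∑ i, (x i - x' i) * (y i : ℝ) ≤ M * N := by
  classical
  by_contra hcon
  push Not at hcon
  -- dimension zero
  rcases Nat.eq_zero_or_pos d with hd | hd
  · subst hd
    obtain ⟨x, hx⟩ := hint
    apply hfree 0
    have : (fun i => ((0 : Fin 0 → ℤ) i : ℝ)) = x := Subsingleton.elim _ _
    rw [this]; exact hx
  -- step one
  have h1 : ∀ y : Fin d → ℤ, y ≠ 0 → ∃ j, 1 / 2 < |pr v (fun i => (y i : ℝ)) j| := by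
    intro y hy
    obtain ⟨x, hx, x', hx', hlt⟩ := hcon y hy
    obtain ⟨t, ht, rfl⟩ := hout x hx
    obtain ⟨t', ht', rfl⟩ := hout x' hx'
    by_contra hno
    push Not at hno
    rw [sum_diff_eq v x0 t t' (fun i => (y i : ℝ))] at hlt
    have h2 : ∑ j, (t j - t' j) * pr v (fun i => (y i : ℝ)) j ≤ ∑ j, (|t j| + |t' j|) * (1 / 2) := by
      refine Finset.sum_le_sum fun j _ => ?_
      calc (t j - t' j) * pr v (fun i => (y i : ℝ)) j ≤ |(t j - t' j) * pr v (fun i => (y i : ℝ)) j| := le_abs_self _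
        _ = |t j - t' j| * |pr v (fun i => (y i : ℝ)) j| := abs_mul _ _
        _ ≤ (|t j| + |t' j|) * (1 / 2) := by
            apply mul_le_mul (abs_sub _ _) (hno j) (abs_nonneg _) (by positivity)
    rw [← Finset.sum_mul, Finset.sum_add_distrib] at h2
    linarith
  -- the number of generators is positive
  have hN : 1 ≤ N := by
    have hy0 : (fun _ => 1 : Fin d → ℤ) ≠ 0 := by
      intro h
      have := congrFun h ⟨0, hd⟩
      simp at this
    obtain ⟨j, _⟩ := h1 _ hy0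
    exact Nat.one_le_iff_ne_zero.mpr (fun h => by subst h; exact j.elim0)
  obtain ⟨z0, hz0⟩ := hint
  -- a ball in the body
  obtain ⟨η, hη, hball⟩ : ∃ η > 0, ∀ x : Fin d → ℝ, (∀ i, |x i - z0 i| ≤ η) → x ∈ K := by
    obtain ⟨ε, hε, hb⟩ := Metric.mem_nhds_iff.mp (mem_interior_iff_mem_nhds.mp hz0)
    refine ⟨ε / 2, by linarith, fun x hx => hb ?_⟩
    rw [Metric.mem_ball, dist_pi_lt_iff hε]
    intro i
    rw [Real.dist_eq]
    exact (hx i).trans_lt (by linarith)
  -- finitely many relevant directions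
  have h3 : ∀ y : Fin d → ℤ, (∀ j, |pr v (fun i => (y i : ℝ)) j| ≤ 1) → ∀ i, |(y i : ℝ)| ≤ M * N / η := by
    intro y hy i
    set x : Fin d → ℝ := fun i => z0 i + η * SignType.sign (y i : ℝ) with hx
    set x' : Fin d → ℝ := fun i => z0 i - η * SignType.sign (y i : ℝ) with hx'
    have hs : ∀ a : ℝ, |((SignType.sign a : SignType) : ℝ)| ≤ 1 := by
      intro a
      rcases lt_trichotomy a 0 with h | h | h
      · simp [sign_neg h]
      · simp [h]
      · simp [sign_pos h]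
    have hxK : x ∈ K := hball x fun i => by
      simp only [hx, add_sub_cancel_left, abs_mul, abs_of_pos hη]
      nlinarith [hs (y i : ℝ)]
    have hx'K : x' ∈ K := hball x' fun i => by
      simp only [hx', sub_sub_cancel_left, abs_neg, abs_mul, abs_of_pos hη]
      nlinarith [hs (y i : ℝ)]
    obtain ⟨t, ht, hxt⟩ := hout x hxK
    obtain ⟨t', ht', hxt'⟩ := hout x' hx'K
    have h4 : ∑ i, (x i - x' i) * (y i : ℝ) = 2 * η * ∑ i, |(y i : ℝ)| := by
      rw [Finset.mul_sum]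
      refine Finset.sum_congr rfl fun i _ => ?_
      have h5 : ((SignType.sign (y i : ℝ) : SignType) : ℝ) * (y i : ℝ) = |(y i : ℝ)| := by
        exact sign_mul_self _
      simp only [hx, hx']
      rw [← h5]; ring
    have h6 : ∑ i, (x i - x' i) * (y i : ℝ) ≤ 2 * (M * N) := by
      rw [hxt, hxt', sum_diff_eq v x0 t t' (fun i => (y i : ℝ))]
      have h2 : ∑ j, (t j - t' j) * pr v (fun i => (y i : ℝ)) j ≤ ∑ j, (|t j| + |t' j|) * 1 := by
        refine Finset.sum_le_sum fun j _ => ?_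
        calc (t j - t' j) * pr v (fun i => (y i : ℝ)) j ≤ |(t j - t' j) * pr v (fun i => (y i : ℝ)) j| := le_abs_self _
          _ = |t j - t' j| * |pr v (fun i => (y i : ℝ)) j| := abs_mul _ _
          _ ≤ (|t j| + |t' j|) * 1 := by
              apply mul_le_mul (abs_sub _ _) (hy j) (abs_nonneg _) (by positivity)
      rw [← Finset.sum_mul, Finset.sum_add_distrib] at h2
      linarith
    have h7 : |(y i : ℝ)| ≤ ∑ i, |(y i : ℝ)| :=
      Finset.single_le_sum (f := fun i => |(y i : ℝ)|) (fun _ _ => abs_nonneg _) (Finset.mem_univ i)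
    rw [le_div_iff₀ hη]
    nlinarith
  set B : ℤ := ⌈M * N / η⌉ with hB
  set F : Finset (Fin d → ℤ) := (Fintype.piFinset fun _ => Finset.Icc (-B) B).erase 0 with hF
  obtain ⟨r, hr1, hr2, hr3⟩ := exists_gap v F fun y hy => h1 y (Finset.ne_of_mem_erase hy)
  have hall : ∀ y : Fin d → ℤ, y ≠ 0 → ∃ j, r ≤ |pr v (fun i => (y i : ℝ)) j| := by
    intro y hy
    by_cases hsm : ∀ j, |pr v (fun i => (y i : ℝ)) j| ≤ 1
    · apply hr3
      rw [hF, Finset.mem_erase]
      refine ⟨hy, ?_⟩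
      rw [Fintype.mem_piFinset]
      intro i
      have h8 := (h3 y hsm i).trans (Int.le_ceil _)
      rw [← hB, abs_le] at h8
      rw [Finset.mem_Icc]
      constructor
      · have := h8.1
        exact_mod_cast this
      · have := h8.2
        exact_mod_cast this
    · push Not at hsm
      obtain ⟨j, hj⟩ := hsm
      exact ⟨j, hr2.trans hj.le⟩
  obtain ⟨z, t, ht, hz⟩ := exists_point_ball v x0 r hr1 hN hall
  apply hfree z
  rw [← hz]
  obtain ⟨s, _, hs⟩ := hout z0 (interior_subset hz0)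
  have hcont : Continuous fun τ : ℝ => ∑ j, (t j + τ * (t j - s j)) ^ 2 := by fun_prop
  have hev : ∀ᶠ τ in nhds (0 : ℝ), ∑ j, (t j + τ * (t j - s j)) ^ 2 < (N : ℝ) := by
    have := hcont.tendsto 0
    simp only [zero_mul, add_zero] at this
    exact (tendsto_order.1 this).2 _ ht
  obtain ⟨τ, hτ1, hτ2⟩ := ((hev.filter_mono nhdsWithin_le_nhds).and
    (self_mem_nhdsWithin (a := (0 : ℝ)) (s := Set.Ioi 0))).exists
  refine mem_interior_of_combo K hconv _ z0 hz0 τ hτ2 ?_
  have h9 : x0 + ∑ j, t j • v j + τ • (x0 + ∑ j, t j • v j - z0) =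
      x0 + ∑ j, (t j + τ * (t j - s j)) • v j := by
    rw [hs]
    funext i
    simp only [Pi.add_apply, Pi.sub_apply, Finset.sum_apply, Pi.smul_apply, smul_eq_mul]
    have e1 : ∑ j, (t j + τ * (t j - s j)) * v j i =
        ∑ j, t j * v j i + τ * (∑ j, t j * v j i - ∑ j, s j * v j i) := by
      rw [← Finset.sum_sub_distrib, Finset.mul_sum, ← Finset.sum_add_distrib]
      refine Finset.sum_congr rfl fun j _ => by ring
    rw [e1]
    ring
  rw [h9]
  exact hin _ hτ1.le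

end Pool.Agent.Lib.MP_d2370c_gt
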