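import Mathlib

/-!
A packing lemma with product weights. A finite family of points of `ℝ^N`, one of which is zero,
whose mutual squared distances exceed `10 η² N`: the sum over the nonzero points of the products
of the values of a function with `g u ≤ min (1, K / u^4)` is at most `4 q / (1 - 4 q)`, where
`q = 16 K / η^4`.
-/

set_option autoImplicit false

open Finset

namespace Pool.Agent.Lib.MP_d2370c_gt

/-- A symmetric window of integers. -/
noncomputable def win (B : ℕ) : Finset ℤ := Finset.Icc (-(B : ℤ)) B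

theorem sum_win_le (B : ℕ) : ∑ t ∈ (win B).erase 0, 1 / (t : ℝ) ^ 2 ≤ 4 := by
  classical
  have hsub : (win B).erase 0 ⊆ (Finset.Ioo 0 (B + 1)).image (fun m : ℕ => (m : ℤ)) ∪
      (Finset.Ioo 0 (B + 1)).image (fun m : ℕ => -(m : ℤ)) := by
    intro t ht
    rw [Finset.mem_erase, win, Finset.mem_Icc] at ht
    rw [Finset.mem_union, Finset.mem_image, Finset.mem_image]
    rcases lt_or_gt_of_ne ht.1 with h | h
    · right
      refine ⟨t.natAbs, ?_, ?_⟩
      · rw [Finset.mem_Ioo]; omega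
      · omega
    · left
      refine ⟨t.natAbs, ?_, ?_⟩
      · rw [Finset.mem_Ioo]; omega
      · omega
  have h2 : ∑ m ∈ Finset.Ioo 0 (B + 1), 1 / (m : ℝ) ^ 2 ≤ 2 := by
    have := sum_Ioo_inv_sq_le (α := ℝ) 0 (B + 1)
    simpa [one_div] using this
  calc ∑ t ∈ (win B).erase 0, 1 / (t : ℝ) ^ 2
      ≤ ∑ t ∈ (Finset.Ioo 0 (B + 1)).image (fun m : ℕ => (m : ℤ)) ∪
          (Finset.Ioo 0 (B + 1)).image (fun m : ℕ => -(m : ℤ)), 1 / (t : ℝ) ^ 2 :=
        Finset.sum_le_sum_of_subset_of_nonneg hsub fun _ _ _ => by positivity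
    _ ≤ ∑ t ∈ (Finset.Ioo 0 (B + 1)).image (fun m : ℕ => (m : ℤ)), 1 / (t : ℝ) ^ 2 +
          ∑ t ∈ (Finset.Ioo 0 (B + 1)).image (fun m : ℕ => -(m : ℤ)), 1 / (t : ℝ) ^ 2 := by
        have := Finset.sum_union_inter (s₁ := (Finset.Ioo 0 (B + 1)).image (fun m : ℕ => (m : ℤ)))
          (s₂ := (Finset.Ioo 0 (B + 1)).image (fun m : ℕ => -(m : ℤ)))
          (f := fun t : ℤ => 1 / (t : ℝ) ^ 2)
        have h3 : 0 ≤ ∑ t ∈ (Finset.Ioo 0 (B + 1)).image (fun m : ℕ => (m : ℤ)) ∩
          (Finset.Ioo 0 (B + 1)).image (fun m : ℕ => -(m : ℤ)), 1 / (t : ℝ) ^ 2 :=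
          Finset.sum_nonneg fun _ _ => by positivity
        linarith
    _ ≤ 2 + 2 := by
        refine add_le_add ?_ ?_
        · rw [Finset.sum_image (by intro a _ b _ h; simpa using h)]
          simpa using h2
        · rw [Finset.sum_image (by intro a _ b _ h; simpa using h)]
          simpa using h2
    _ = 4 := by norm_num

theorem sum_win4_le (B : ℕ) : ∑ t ∈ (win B).erase 0, 1 / (t : ℝ) ^ 4 ≤ 4 := by
  refine (Finset.sum_le_sum fun t ht => ?_).trans (sum_win_le B)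
  have ht0 : t ≠ 0 := (Finset.mem_erase.mp ht).1
  have h1 : (1 : ℝ) ≤ (t : ℝ) ^ 2 := by
    have : (1 : ℤ) ≤ t ^ 2 := by
      have := pow_pos (abs_pos.mpr ht0) 2
      rw [sq_abs] at this
      omega
    exact_mod_cast this
  have h2 : (0 : ℝ) < (t : ℝ) ^ 2 := by linarith
  apply one_div_le_one_div_of_le h2
  nlinarith

/-- The weights of the codes. -/
noncomputable def om (q : ℝ) (B : ℕ) (t : ℤ) : ℝ :=
  if t = 0 then 1 - ∑ s ∈ (win B).erase 0, q / (s : ℝ) ^ 4 else q / (t : ℝ) ^ 4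

theorem zero_mem_win (B : ℕ) : (0 : ℤ) ∈ win B := by
  rw [win, Finset.mem_Icc]; omega

theorem sum_om (q : ℝ) (B : ℕ) : ∑ t ∈ win B, om q B t = 1 := by
  rw [← Finset.add_sum_erase _ _ (zero_mem_win B)]
  have : ∑ t ∈ (win B).erase 0, om q B t = ∑ s ∈ (win B).erase 0, q / (s : ℝ) ^ 4 := by
    refine Finset.sum_congr rfl fun t ht => ?_
    rw [om, if_neg (Finset.mem_erase.mp ht).1]
  rw [this, om, if_pos rfl]
  ring

theorem om_nonneg (q : ℝ) (hq : 0 ≤ q) (hq1 : 4 * q ≤ 1) (B : ℕ) (t : ℤ) : 0 ≤ om q B t := by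
  unfold om
  split_ifs
  · have h1 := sum_win4_le B
    have h2 : ∑ s ∈ (win B).erase 0, q / (s : ℝ) ^ 4 = q * ∑ s ∈ (win B).erase 0, 1 / (s : ℝ) ^ 4 := by
      rw [Finset.mul_sum]
      refine Finset.sum_congr rfl fun s _ => by ring
    rw [h2]
    nlinarith
  · positivity

theorem sum_om_sq (q : ℝ) (hq : 0 ≤ q) (B : ℕ) : ∑ t ∈ win B, om q B t * (t : ℝ) ^ 2 ≤ 4 * q := by
  rw [← Finset.add_sum_erase _ _ (zero_mem_win B)]
  have h1 : ∑ t ∈ (win B).erase 0, om q B t * (t : ℝ) ^ 2 = q * ∑ s ∈ (win B).erase 0, 1 / (s : ℝ) ^ 2 := by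
    rw [Finset.mul_sum]
    refine Finset.sum_congr rfl fun t ht => ?_
    have ht0 : (t : ℝ) ≠ 0 := by exact_mod_cast (Finset.mem_erase.mp ht).1
    rw [om, if_neg (Finset.mem_erase.mp ht).1]
    field_simp
  rw [h1]
  have := sum_win_le B
  have h2 : om q B 0 * ((0 : ℤ) : ℝ) ^ 2 = 0 := by simp
  rw [h2]
  nlinarith

section

variable {N : ℕ}

/-- The codes. -/
noncomputable def cd (η : ℝ) (z : Fin N → ℝ) (j : Fin N) : ℤ := round (z j / η)

/-- The factor of the weight of the codes which agree with `e` where `e` is not zero. -/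
noncomputable def psi (q : ℝ) (B : ℕ) (e t : ℤ) : ℝ :=
  om q B t * (if e = 0 then 1 else if t = e then 1 else 0)

theorem sum_psi (q : ℝ) (B : ℕ) (e : ℤ) (he : e ∈ win B) :
    ∑ t ∈ win B, psi q B e t = if e = 0 then 1 else om q B e := by
  unfold psi
  split_ifs with h
  · simp [sum_om]
  · rw [Finset.sum_eq_single e]
    · simp
    · intro b _ hb
      simp [hb]
    · intro hcon
      exact absurd he hcon

theorem psi_nonneg (q : ℝ) (hq : 0 ≤ q) (hq1 : 4 * q ≤ 1) (B : ℕ) (e t : ℤ) : 0 ≤ psi q B e t := by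
  unfold psi
  apply mul_nonneg (om_nonneg q hq hq1 B t)
  split_ifs <;> norm_num

/-- The set of the code vectors. -/
noncomputable def cube' (N B : ℕ) : Finset (Fin N → ℤ) := Fintype.piFinset fun _ => win B

/-- The quadratic excess on the set where the code vector `e` vanishes. -/
noncomputable def QQ (e c : Fin N → ℤ) : ℝ := ∑ k, if e k = 0 then ((c k : ℝ)) ^ 2 else 0

/-- The product weight. -/
noncomputable def WW (q : ℝ) (B : ℕ) (e : Fin N → ℤ) : ℝ := ∏ j, if e j = 0 then 1 else om q B (e j)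

theorem sum_mm (q : ℝ) (B : ℕ) (e : Fin N → ℤ) (he : ∀ j, e j ∈ win B) :
    ∑ c ∈ cube' N B, ∏ j, psi q B (e j) (c j) = WW q B e := by
  unfold cube' WW
  rw [← Finset.prod_univ_sum (fun _ : Fin N => win B) (fun j t => psi q B (e j) t)]
  exact Finset.prod_congr rfl fun j _ => sum_psi q B (e j) (he j)

theorem WW_nonneg (q : ℝ) (hq : 0 ≤ q) (hq1 : 4 * q ≤ 1) (B : ℕ) (e : Fin N → ℤ) : 0 ≤ WW q B e := by
  unfold WW
  refine Finset.prod_nonneg fun j _ => ?_
  split_ifs
  · norm_num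
  · exact om_nonneg q hq hq1 B _

theorem sum_mm_sq (q : ℝ) (hq : 0 ≤ q) (hq1 : 4 * q ≤ 1) (B : ℕ) (e : Fin N → ℤ)
    (he : ∀ j, e j ∈ win B) (k : Fin N) (hk : e k = 0) :
    ∑ c ∈ cube' N B, (∏ j, psi q B (e j) (c j)) * ((c k : ℝ)) ^ 2 ≤ 4 * q * WW q B e := by
  classical
  have h1 : ∀ c : Fin N → ℤ, (∏ j, psi q B (e j) (c j)) * ((c k : ℝ)) ^ 2 =
      ∏ j, psi q B (e j) (c j) * (if j = k then ((c j : ℝ)) ^ 2 else 1) := by
    intro c
    rw [Finset.prod_mul_distrib, Finset.prod_ite_eq' Finset.univ k]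
    simp
  simp_rw [h1]
  unfold cube'
  rw [← Finset.prod_univ_sum (fun _ : Fin N => win B)
    (fun j t => psi q B (e j) t * (if j = k then ((t : ℝ)) ^ 2 else 1))]
  rw [← Finset.mul_prod_erase _ _ (Finset.mem_univ k)]
  have h2 : ∑ t ∈ win B, psi q B (e k) t * (if k = k then ((t : ℝ)) ^ 2 else 1) ≤ 4 * q := by
    have := sum_om_sq q hq B
    refine le_trans (le_of_eq ?_) this
    refine Finset.sum_congr rfl fun t _ => ?_
    simp [psi, hk]
  have h3 : ∏ j ∈ Finset.univ.erase k, ∑ t ∈ win B, psi q B (e j) t * (if j = k then ((t : ℝ)) ^ 2 else 1) =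
      WW q B e := by
    unfold WW
    rw [← Finset.mul_prod_erase _ (fun j => if e j = 0 then (1 : ℝ) else om q B (e j)) (Finset.mem_univ k)]
    rw [if_pos hk, one_mul]
    refine Finset.prod_congr rfl fun j hj => ?_
    have hjk : j ≠ k := (Finset.mem_erase.mp hj).1
    rw [← sum_psi q B (e j) (he j)]
    refine Finset.sum_congr rfl fun t _ => ?_
    simp [hjk]
  rw [h3]
  exact mul_le_mul_of_nonneg_right h2 (WW_nonneg q hq hq1 B e)

theorem sum_mm_QQ (q : ℝ) (hq : 0 ≤ q) (hq1 : 4 * q ≤ 1) (B : ℕ) (e : Fin N → ℤ)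
    (he : ∀ j, e j ∈ win B) :
    ∑ c ∈ cube' N B, (∏ j, psi q B (e j) (c j)) * QQ e c ≤ 4 * q * N * WW q B e := by
  unfold QQ
  simp_rw [Finset.mul_sum]
  rw [Finset.sum_comm]
  have h : ∀ k ∈ (Finset.univ : Finset (Fin N)),
      ∑ c ∈ cube' N B, (∏ j, psi q B (e j) (c j)) * (if e k = 0 then ((c k : ℝ)) ^ 2 else 0) ≤
      4 * q * WW q B e := by
    intro k _
    by_cases hk : e k = 0
    · simp only [hk, if_true]
      exact sum_mm_sq q hq hq1 B e he k hk
    · simp only [hk, if_false, mul_zero, Finset.sum_const_zero]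
      exact mul_nonneg (by linarith) (WW_nonneg q hq hq1 B e)
  refine (Finset.sum_le_sum h).trans (le_of_eq ?_)
  rw [Finset.sum_const, Finset.card_univ, Fintype.card_fin, nsmul_eq_mul]
  ring

/-- The code vector `c` belongs to the cell of `e`. -/
def Cell (e c : Fin N → ℤ) : Prop := (∀ j, e j ≠ 0 → c j = e j) ∧ QQ e c ≤ N

open Classical in
theorem cell_mass (q : ℝ) (hq : 0 ≤ q) (hq1 : 4 * q ≤ 1) (hN : 1 ≤ N) (B : ℕ) (e : Fin N → ℤ)
    (he : ∀ j, e j ∈ win B) :
    WW q B e * (1 - 4 * q) ≤ ∑ c ∈ cube' N B, (∏ j, om q B (c j)) * (if Cell e c then 1 else 0) := by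
  have hN' : (0 : ℝ) < N := by exact_mod_cast hN
  have h1 : ∀ c ∈ cube' N B, (∏ j, psi q B (e j) (c j)) - (∏ j, psi q B (e j) (c j)) * QQ e c / N ≤
      (∏ j, om q B (c j)) * (if Cell e c then 1 else 0) := by
    intro c _
    have hpos : 0 ≤ ∏ j, psi q B (e j) (c j) := Finset.prod_nonneg fun j _ => psi_nonneg q hq hq1 B _ _
    have hom : 0 ≤ ∏ j, om q B (c j) := Finset.prod_nonneg fun j _ => om_nonneg q hq hq1 B _
    have hQ : 0 ≤ QQ e c := by
      unfold QQ
      refine Finset.sum_nonneg fun k _ => ?_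
      split_ifs
      · positivity
      · exact le_refl _
    by_cases hag : ∀ j, e j ≠ 0 → c j = e j
    · by_cases hQN : QQ e c ≤ N
      · rw [if_pos ⟨hag, hQN⟩, mul_one]
        have h2 : ∏ j, psi q B (e j) (c j) = ∏ j, om q B (c j) := by
          refine Finset.prod_congr rfl fun j _ => ?_
          unfold psi
          by_cases hj : e j = 0
          · simp [hj]
          · simp [hj, hag j hj]
        rw [h2]
        have : 0 ≤ (∏ j, om q B (c j)) * QQ e c / N := by positivity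
        linarith
      · push Not at hQN
        have h3 : (∏ j, psi q B (e j) (c j)) ≤ (∏ j, psi q B (e j) (c j)) * QQ e c / N := by
          rw [le_div_iff₀ hN']
          exact mul_le_mul_of_nonneg_left hQN.le hpos
        have h4 : 0 ≤ (∏ j, om q B (c j)) * (if Cell e c then (1 : ℝ) else 0) := by
          apply mul_nonneg hom
          split_ifs <;> norm_num
        linarith
    · push Not at hag
      obtain ⟨j, hj1, hj2⟩ := hag
      have h2 : ∏ j, psi q B (e j) (c j) = 0 := by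
        apply Finset.prod_eq_zero (Finset.mem_univ j)
        simp [psi, hj1, hj2]
      rw [h2]
      have h4 : 0 ≤ (∏ j, om q B (c j)) * (if Cell e c then (1 : ℝ) else 0) := by
        apply mul_nonneg hom
        split_ifs <;> norm_num
      simpa using h4
  have h2 := Finset.sum_le_sum h1
  rw [Finset.sum_sub_distrib, ← Finset.sum_div, sum_mm q B e he] at h2
  have h3 := sum_mm_QQ q hq hq1 B e he
  have h4 : (∑ c ∈ cube' N B, (∏ j, psi q B (e j) (c j)) * QQ e c) / N ≤ 4 * q * WW q B e := by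
    rw [div_le_iff₀ hN']
    linarith
  linarith

theorem sum_all (q : ℝ) (N B : ℕ) : ∑ c ∈ cube' N B, ∏ j, om q B (c j) = 1 := by
  unfold cube'
  rw [← Finset.prod_univ_sum (fun _ : Fin N => win B) (fun _ t => om q B t)]
  simp [sum_om]

/-- Two points whose code vectors have a common cell element are close. -/
theorem close_of_cells (η : ℝ) (hη : 0 < η) (z z' : Fin N → ℝ) (c : Fin N → ℤ)
    (h : Cell (cd η z) c) (h' : Cell (cd η z') c) :
    ∑ j, (z j - z' j) ^ 2 ≤ 10 * η ^ 2 * N := by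
  have key : ∀ j, (z j - z' j) ^ 2 ≤
      4 * η ^ 2 * (if cd η z j = 0 then ((c j : ℝ)) ^ 2 else 0) +
      4 * η ^ 2 * (if cd η z' j = 0 then ((c j : ℝ)) ^ 2 else 0) + 2 * η ^ 2 := by
    intro j
    have hr : ∀ w : Fin N → ℝ, Cell (cd η w) c → ∃ r s : ℝ, w j = η * c j - η * r + s ∧
        r ^ 2 = (if cd η w j = 0 then ((c j : ℝ)) ^ 2 else 0) ∧ s ^ 2 ≤ η ^ 2 / 4 := by
      intro w hw
      have h1 : |w j / η - (cd η w j : ℝ)| ≤ 1 / 2 := abs_sub_round (w j / η)
      have h2 : |w j - η * (cd η w j : ℝ)| ≤ η / 2 := by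
        have : w j - η * (cd η w j : ℝ) = η * (w j / η - (cd η w j : ℝ)) := by field_simp
        rw [this, abs_mul, abs_of_pos hη]
        nlinarith
      have h3 : (w j - η * (cd η w j : ℝ)) ^ 2 ≤ η ^ 2 / 4 := by
        rw [← sq_abs]
        have := pow_le_pow_left₀ (abs_nonneg _) h2 2
        calc _ ≤ (η / 2) ^ 2 := this
          _ = η ^ 2 / 4 := by ring
      by_cases hj : cd η w j = 0
      · refine ⟨c j, w j, by ring, by rw [if_pos hj], ?_⟩
        rw [hj] at h3
        simpa using h3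
      · refine ⟨0, w j - η * (cd η w j : ℝ), ?_, by rw [if_neg hj]; ring, h3⟩
        rw [hw.1 j hj]; ring
    obtain ⟨r, s, e1, e2, e3⟩ := hr z h
    obtain ⟨r', s', e1', e2', e3'⟩ := hr z' h'
    rw [← e2, ← e2']
    have e4 : z j - z' j = η * r' - η * r + s - s' := by rw [e1, e1']; ring
    rw [e4]
    nlinarith [sq_nonneg (η * r' + η * r), sq_nonneg (η * r' - s), sq_nonneg (η * r' + s'),
      sq_nonneg (η * r + s), sq_nonneg (η * r - s'), sq_nonneg (s + s')]
  calc ∑ j, (z j - z' j) ^ 2 ≤ ∑ j, (4 * η ^ 2 * (if cd η z j = 0 then ((c j : ℝ)) ^ 2 else 0) +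
      4 * η ^ 2 * (if cd η z' j = 0 then ((c j : ℝ)) ^ 2 else 0) + 2 * η ^ 2) :=
        Finset.sum_le_sum fun j _ => key j
    _ = 4 * η ^ 2 * QQ (cd η z) c + 4 * η ^ 2 * QQ (cd η z') c + 2 * η ^ 2 * N := by
        rw [Finset.sum_add_distrib, Finset.sum_add_distrib, ← Finset.mul_sum, ← Finset.mul_sum,
          Finset.sum_const, Finset.card_univ, Fintype.card_fin, nsmul_eq_mul]
        unfold QQ
        ring
    _ ≤ 4 * η ^ 2 * N + 4 * η ^ 2 * N + 2 * η ^ 2 * N := by
        have := h.2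
        have := h'.2
        gcongr
    _ = 10 * η ^ 2 * N := by ring

end

/-- The packing lemma. -/
theorem pack {α : Type*} [DecidableEq α] {N : ℕ} (K η q : ℝ) (hη : 0 < η) (hq : 0 ≤ q) (hq1 : 4 * q < 1)
    (hqK : 16 * K / η ^ 4 ≤ q) (hN : 1 ≤ N)
    (S : Finset α) (z : α → Fin N → ℝ) (a0 : α) (ha0 : a0 ∈ S) (hz0 : z a0 = 0)
    (hsep : ∀ a ∈ S, ∀ b ∈ S, a ≠ b → 10 * η ^ 2 * N < ∑ j, (z a j - z b j) ^ 2)
    (g : ℝ → ℝ) (hg0 : ∀ u, 0 ≤ g u) (hg1 : ∀ u, g u ≤ 1) (hgK : ∀ u, u ≠ 0 → g u ≤ K / u ^ 4) :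
    ∑ a ∈ S.erase a0, ∏ j, g (z a j) ≤ 4 * q / (1 - 4 * q) := by
  classical
  -- a window containing all codes
  obtain ⟨B, hB⟩ : ∃ B : ℕ, ∀ a ∈ S, ∀ j, cd η (z a) j ∈ win B := by
    refine ⟨∑ a ∈ S, ∑ j, (cd η (z a) j).natAbs, fun a ha j => ?_⟩
    have h1 : (cd η (z a) j).natAbs ≤ ∑ j, (cd η (z a) j).natAbs :=
      Finset.single_le_sum (f := fun j => (cd η (z a) j).natAbs) (fun _ _ => Nat.zero_le _) (Finset.mem_univ j)
    have h2 : ∑ j, (cd η (z a) j).natAbs ≤ ∑ a ∈ S, ∑ j, (cd η (z a) j).natAbs :=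
      Finset.single_le_sum (f := fun a => ∑ j, (cd η (z a) j).natAbs) (fun _ _ => Nat.zero_le _) ha
    rw [win, Finset.mem_Icc]
    omega
  have hcell : ∀ c : Fin N → ℤ, ∑ a ∈ S, (if Cell (cd η (z a)) c then (1 : ℝ) else 0) ≤ 1 := by
    intro c
    rw [Finset.sum_boole]
    have : (S.filter fun a => Cell (cd η (z a)) c).card ≤ 1 := by
      rw [Finset.card_le_one]
      intro a ha b hb
      rw [Finset.mem_filter] at ha hb
      by_contra hne
      have h1 := hsep a ha.1 b hb.1 hne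
      have h2 := close_of_cells η hη (z a) (z b) c ha.2 hb.2
      linarith
    exact_mod_cast this
  have hmass : ∑ a ∈ S, WW q B (cd η (z a)) * (1 - 4 * q) ≤ 1 := by
    calc ∑ a ∈ S, WW q B (cd η (z a)) * (1 - 4 * q)
        ≤ ∑ a ∈ S, ∑ c ∈ cube' N B, (∏ j, om q B (c j)) * (if Cell (cd η (z a)) c then 1 else 0) :=
          Finset.sum_le_sum fun a ha => cell_mass q hq hq1.le hN B _ (hB a ha)
      _ = ∑ c ∈ cube' N B, (∏ j, om q B (c j)) * ∑ a ∈ S, (if Cell (cd η (z a)) c then (1 : ℝ) else 0) := by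
          rw [Finset.sum_comm]
          refine Finset.sum_congr rfl fun c _ => ?_
          rw [Finset.mul_sum]
      _ ≤ ∑ c ∈ cube' N B, (∏ j, om q B (c j)) * 1 :=
          Finset.sum_le_sum fun c _ => mul_le_mul_of_nonneg_left (hcell c)
            (Finset.prod_nonneg fun j _ => om_nonneg q hq hq1.le B _)
      _ = 1 := by simp only [mul_one]; exact sum_all q N B
  have hgW : ∀ a ∈ S, ∏ j, g (z a j) ≤ WW q B (cd η (z a)) := by
    intro a _
    unfold WW
    refine Finset.prod_le_prod (fun j _ => hg0 _) fun j _ => ?_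
    by_cases hj : cd η (z a) j = 0
    · rw [if_pos hj]; exact hg1 _
    · rw [if_neg hj, om, if_neg hj]
      -- the size of the coordinate
      set e := cd η (z a) j with he
      have h1 : |z a j / η - (e : ℝ)| ≤ 1 / 2 := abs_sub_round (z a j / η)
      have he1 : (1 : ℝ) ≤ |(e : ℝ)| := by
        have : (1 : ℤ) ≤ |e| := Int.one_le_abs hj
        exact_mod_cast this
      have h2 : |(e : ℝ)| / 2 ≤ |z a j / η| := by
        have h3 : |(e : ℝ)| ≤ |z a j / η| + |z a j / η - e| := by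
          have := abs_sub_abs_le_abs_sub (e : ℝ) (z a j / η)
          rw [abs_sub_comm (e : ℝ)] at this
          linarith
        linarith
      have hz : z a j ≠ 0 := by
        intro h0
        rw [h0] at h2
        simp at h2
        linarith [abs_pos.mpr (show (e : ℝ) ≠ 0 by exact_mod_cast hj)]
      have h4 : η * |(e : ℝ)| / 2 ≤ |z a j| := by
        rw [abs_div, abs_of_pos hη, le_div_iff₀ hη] at h2
        linarith
      have h5 : (η * |(e : ℝ)| / 2) ^ 4 ≤ (z a j) ^ 4 := by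
        have := pow_le_pow_left₀ (by positivity) h4 4
        have h6 : |z a j| ^ 4 = (z a j) ^ 4 := by
          rw [← abs_pow]; exact abs_of_nonneg (by positivity)
        rwa [h6] at this
      have h6 : (η * |(e : ℝ)| / 2) ^ 4 = η ^ 4 * (e : ℝ) ^ 4 / 16 := by
        have h7 : |(e : ℝ)| ^ 4 = (e : ℝ) ^ 4 := by
          rw [← abs_pow]; exact abs_of_nonneg (by positivity)
        calc (η * |(e : ℝ)| / 2) ^ 4 = η ^ 4 * |(e : ℝ)| ^ 4 / 16 := by ring
          _ = _ := by rw [h7]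
      have he4 : (0 : ℝ) < (e : ℝ) ^ 4 := by
        have : (e : ℝ) ≠ 0 := by exact_mod_cast hj
        positivity
      have hz4 : (0 : ℝ) < (z a j) ^ 4 := by positivity
      have hK0 : 0 ≤ K := by
        have h8 := hgK _ hz
        have h9 := hg0 (z a j)
        by_contra hneg
        push Not at hneg
        have : K / (z a j) ^ 4 < 0 := div_neg_of_neg_of_pos hneg hz4
        linarith
      have hη4 : 0 < η ^ 4 := by positivity
      calc g (z a j) ≤ K / (z a j) ^ 4 := hgK _ hz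
        _ ≤ K / (η ^ 4 * (e : ℝ) ^ 4 / 16) := by
            apply div_le_div_of_nonneg_left hK0 (by positivity)
            rw [← h6]; exact h5
        _ = (16 * K / η ^ 4) / (e : ℝ) ^ 4 := by field_simp
        _ ≤ q / (e : ℝ) ^ 4 := by gcongr
  have hW0 : WW q B (cd η (z a0)) = 1 := by
    unfold WW
    refine Finset.prod_eq_one fun j _ => ?_
    have : cd η (z a0) j = 0 := by simp [cd, hz0]
    rw [if_pos this]
  rw [← Finset.add_sum_erase _ _ ha0, hW0] at hmass
  have h1 : ∑ a ∈ S.erase a0, ∏ j, g (z a j) ≤ ∑ a ∈ S.erase a0, WW q B (cd η (z a)) :=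
    Finset.sum_le_sum fun a ha => hgW a (Finset.mem_of_mem_erase ha)
  rw [← Finset.sum_mul] at hmass
  rw [le_div_iff₀ (by linarith)]
  have h2 : (∑ a ∈ S.erase a0, ∏ j, g (z a j)) * (1 - 4 * q) ≤
      (∑ a ∈ S.erase a0, WW q B (cd η (z a))) * (1 - 4 * q) :=
    mul_le_mul_of_nonneg_right h1 (by linarith)
  linarith

end Pool.Agent.Lib.MP_d2370c_gt
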