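import Mathlib
import Pool.Agent.Lib.MP_d2370c_gt.CoreA
import Pool.Agent.Lib.MP_d2370c_gt.PackB

/-!
The uniform law on `[-1, 1]` and the second averaging theorem.
-/

set_option autoImplicit false

open Finset MeasureTheory

namespace Pool.Agent.Lib.MP_d2370c_gt

/-- The uniform law on the interval from `-1` to `1`. -/
noncomputable def muB : Measure ℝ := ENNReal.ofReal (1 / 2) • volume.restrict (Set.Icc (-1) 1)

instance : IsProbabilityMeasure muB := by
  constructor
  unfold muB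
  rw [Measure.smul_apply, Measure.restrict_apply MeasurableSet.univ, Set.univ_inter, Real.volume_Icc,
    smul_eq_mul, ← ENNReal.ofReal_mul (by norm_num)]
  norm_num

theorem ae_muB : ∀ᵐ x ∂muB, |x| ≤ 1 := by
  have h : ∀ᵐ x ∂(volume.restrict (Set.Icc (-1 : ℝ) 1)), |x| ≤ 1 := by
    filter_upwards [ae_restrict_mem measurableSet_Icc] with x hx
    exact abs_le.mpr hx
  unfold muB
  exact Measure.ae_smul_measure h _

theorem phi_muB_eq (u : ℝ) : phi muB u = (1 / 2 : ℂ) * ∫ x in (-1 : ℝ)..1, ee (x * u) := by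
  unfold phi muB
  rw [integral_smul_measure, ENNReal.toReal_ofReal (by norm_num),
    intervalIntegral.integral_of_le (by norm_num), ← integral_Icc_eq_integral_Ioc]
  rw [Complex.real_smul]
  norm_num

theorem norm_phi_muB (u : ℝ) (hu : u ≠ 0) : ‖phi muB u‖ ≤ 1 / (2 * Real.pi * |u|) := by
  have hpi := Real.pi_pos
  set c : ℂ := 2 * Real.pi * u * Complex.I with hc
  have hc0 : c ≠ 0 := by
    rw [hc]
    have h1 : (u : ℂ) ≠ 0 := by exact_mod_cast hu
    have h2 : (Real.pi : ℂ) ≠ 0 := by exact_mod_cast hpi.ne'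
    simp [h1, h2]
  have hnc : ‖c‖ = 2 * Real.pi * |u| := by
    rw [hc]
    simp [abs_of_pos hpi]
  have h1 : ∀ x : ℝ, ee (x * u) = Complex.exp (c * x) := by
    intro x
    unfold ee
    rw [hc]
    congr 1
    push_cast
    ring
  rw [phi_muB_eq]
  simp_rw [h1]
  rw [integral_exp_mul_complex hc0]
  have h4 : ‖(1 / 2 : ℂ)‖ = 1 / 2 := by norm_num
  rw [norm_mul, h4, norm_div, hnc]
  have h2 : ∀ x : ℝ, ‖Complex.exp (c * x)‖ = 1 := by
    intro x
    rw [← h1, norm_ee]
  have h3 : ‖Complex.exp (c * (1 : ℝ)) - Complex.exp (c * ((-1 : ℝ) : ℝ))‖ ≤ 2 := by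
    refine (norm_sub_le _ _).trans ?_
    rw [h2, h2]; norm_num
  have h5 : 0 < 2 * Real.pi * |u| := by
    have := abs_pos.mpr hu
    positivity
  rw [← mul_div_assoc, div_le_div_iff_of_pos_right h5]
  linarith

/-- The function which bounds the factors. -/
noncomputable def gB (u : ℝ) : ℝ := ‖phi muB (u / 4)‖ ^ 4

theorem gB_nonneg (u : ℝ) : 0 ≤ gB u := by unfold gB; positivity

theorem gB_le_one (u : ℝ) : gB u ≤ 1 := pow_le_one₀ (norm_nonneg _) (norm_phi_le muB _)

theorem gB_le (u : ℝ) (hu : u ≠ 0) : gB u ≤ (16 / Real.pi ^ 4) / u ^ 4 := by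
  have hpi := Real.pi_pos
  have h1 := norm_phi_muB (u / 4) (by positivity)
  have h2 : gB u ≤ (1 / (2 * Real.pi * |u / 4|)) ^ 4 := pow_le_pow_left₀ (norm_nonneg _) h1 4
  refine h2.trans (le_of_eq ?_)
  have h3 : |u / 4| = |u| / 4 := by rw [abs_div]; norm_num
  have h4 : |u| ^ 4 = u ^ 4 := by
    rw [← abs_pow]; exact abs_of_nonneg (by positivity)
  have h5 : 0 < |u| := abs_pos.mpr hu
  rw [h3, ← h4]
  field_simp
  ring

variable {d N : ℕ}

theorem prod_four (f : Fin N → ℝ) : ∏ p : Fin N × Fin 4, f p.1 = ∏ j, f j ^ 4 := by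
  rw [Fintype.prod_prod_type]
  simp

/-- The second averaging theorem. -/
theorem exists_point_B (x0 : Fin d → ℝ) (v : Fin N → Fin d → ℝ) (hN : 1 ≤ N)
    (hy : ∀ y : Fin d → ℤ, y ≠ 0 → 56.2 * (N : ℝ) < ∑ j, pr v (fun i => (y i : ℝ)) j ^ 2) :
    ∃ z : Fin d → ℤ, ∃ t : Fin N → ℝ, (∀ j, |t j| ≤ 1) ∧ XX x0 v t = fun i => (z i : ℝ) := by
  classical
  by_contra hcon
  push Not at hcon
  have hKc : IsCompact (XX x0 v '' {t : Fin N → ℝ | ∀ j, |t j| ≤ 1}) := by
    apply IsCompact.image _ (continuous_XX x0 v)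
    have h : {t : Fin N → ℝ | ∀ j, |t j| ≤ 1} = Set.pi Set.univ (fun _ => Set.Icc (-1 : ℝ) 1) := by
      ext x
      constructor
      · intro hx i _
        exact abs_le.mp (hx i)
      · intro hx i
        exact abs_le.mpr (hx i (Set.mem_univ i))
    rw [h]
    exact isCompact_univ_pi fun _ => isCompact_Icc
  obtain ⟨q, hq0, hq1, hq⟩ := exists_q _ hKc (by
    rintro z ⟨t, ht, hz⟩
    exact hcon z t ht hz)
  refine no_bound d (1 / 2) q (by norm_num) hq0 hq1 fun n hn => ?_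
  set v' : Fin N × Fin 4 → Fin d → ℝ := fun p i => v p.1 i / 4 with hv'
  set ν : Measure (Fin N × Fin 4 → ℝ) := Measure.pi fun _ => muB with hν
  have hpr : ∀ (y : Fin d → ℝ) (p : Fin N × Fin 4), pr v' y p = pr v y p.1 / 4 := by
    intro y p
    unfold pr
    rw [hv', Finset.sum_div]
    refine Finset.sum_congr rfl fun i _ => by ring
  -- the sample points lie in the zonotope
  have hae : ∀ᵐ t ∂ν, ∀ p, |t p| ≤ 1 := by
    rw [ae_all_iff]
    intro p
    exact (measurePreserving_eval (fun _ : Fin N × Fin 4 => muB) p).quasiMeasurePreserving.ae ae_muB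
  have hmem : ∀ t : Fin N × Fin 4 → ℝ, (∀ p, |t p| ≤ 1) →
      XX x0 v' t ∈ XX x0 v '' {t : Fin N → ℝ | ∀ j, |t j| ≤ 1} := by
    intro t ht
    refine ⟨fun j => ∑ k, t (j, k) / 4, ?_, ?_⟩
    · intro j
      calc |∑ k, t (j, k) / 4| ≤ ∑ k, |t (j, k) / 4| := Finset.abs_sum_le_sum_abs _ _
        _ ≤ ∑ _k : Fin 4, (1 / 4 : ℝ) := by
            refine Finset.sum_le_sum fun k _ => ?_
            rw [abs_div, abs_of_pos (by norm_num : (0 : ℝ) < 4)]
            have := ht (j, k)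
            gcongr
        _ = 1 := by simp
    · funext i
      unfold XX
      congr 1
      rw [Fintype.sum_prod_type]
      refine Finset.sum_congr rfl fun j _ => ?_
      rw [Finset.sum_mul]
      refine Finset.sum_congr rfl fun k _ => ?_
      rw [hv']
      ring
  -- upper bound for the average
  have hcont : Continuous fun t : Fin N × Fin 4 → ℝ => PP (XX x0 v' t) ^ n :=
    (continuous_PP.comp (continuous_XX x0 v')).pow n
  have hint : Integrable (fun t : Fin N × Fin 4 → ℝ => PP (XX x0 v' t) ^ n) ν := by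
    refine (integrable_const (1 : ℝ)).mono' hcont.aestronglyMeasurable ?_
    filter_upwards with t
    rw [Real.norm_eq_abs, abs_of_nonneg (pow_nonneg (PP_nonneg _) n)]
    exact pow_le_one₀ (PP_nonneg _) (PP_le_one _)
  have hle : ∫ t, PP (XX x0 v' t) ^ n ∂ν ≤ q ^ n := by
    have h3 : ∫ _t : Fin N × Fin 4 → ℝ, q ^ n ∂ν = q ^ n := by simp
    rw [← h3]
    refine integral_mono_ae hint (integrable_const _) ?_
    filter_upwards [hae] with t ht
    exact pow_le_pow_left₀ (PP_nonneg _) (hq _ (hmem t ht)) n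
  -- lower bound for the average
  set c0 : ℝ := cf n (fun _ : Fin d => n) with hc0
  have hc0pos : 0 ≤ c0 := cf_nonneg n _
  have hval : ((∫ t, PP (XX x0 v' t) ^ n ∂ν : ℝ) : ℂ) =
      ∑ κ ∈ ix d n, ((cf n κ : ℝ) : ℂ) * (ee (∑ i, ((yy n κ i : ℤ) : ℝ) * x0 i) *
        ∏ p, phi muB (pr v' (fun i => ((yy n κ i : ℤ) : ℝ)) p)) := by
    have e1 : ((∫ t, PP (XX x0 v' t) ^ n ∂ν : ℝ) : ℂ) = ∫ t, ((PP (XX x0 v' t) ^ n : ℝ) : ℂ) ∂ν :=
      integral_ofReal.symm
    rw [e1]
    simp_rw [PP_pow_expand']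
    rw [integral_finsetSum _ fun κ _ => (integrable_ee muB x0 v' _).const_mul _]
    refine Finset.sum_congr rfl fun κ _ => ?_
    rw [integral_const_mul, integral_char]
  have hsplit := hval
  rw [← Finset.add_sum_erase _ _ (mem_ix n)] at hsplit
  have hyy0 : ∀ i : Fin d, ((yy n (fun _ : Fin d => n) i : ℤ) : ℝ) = 0 := by
    intro i; simp [yy]
  have hfirst : ((cf n (fun _ : Fin d => n) : ℝ) : ℂ) *
      (ee (∑ i, ((yy n (fun _ : Fin d => n) i : ℤ) : ℝ) * x0 i) *
        ∏ p, phi muB (pr v' (fun i => ((yy n (fun _ : Fin d => n) i : ℤ) : ℝ)) p)) = (c0 : ℂ) := by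
    simp_rw [hyy0]
    have hpr0 : ∀ p, pr v' (fun _ : Fin d => (0 : ℝ)) p = 0 := by intro p; simp [pr]
    simp_rw [hpr0, phi_zero]
    simp [ee_zero, hc0]
  rw [hfirst] at hsplit
  -- the packing lemma
  have hpack : ∑ κ ∈ (ix d n).erase (fun _ : Fin d => n),
      ∏ j, gB (pr v (fun i => ((yy n κ i : ℤ) : ℝ)) j) ≤ 1 / 2 := by
    have hη : (0 : ℝ) < Real.sqrt 5.62 := Real.sqrt_pos.mpr (by norm_num)
    have hη2 : Real.sqrt 5.62 ^ 2 = 5.62 := Real.sq_sqrt (by norm_num)
    have hη4 : Real.sqrt 5.62 ^ 4 = 31.5844 := by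
      calc Real.sqrt 5.62 ^ 4 = (Real.sqrt 5.62 ^ 2) ^ 2 := by ring
        _ = 31.5844 := by rw [hη2]; norm_num
    have hpi4 : (97.39 : ℝ) ≤ Real.pi ^ 4 := by
      have h1 := Real.pi_gt_d4
      have h2 : (3.1415 : ℝ) ^ 4 ≤ Real.pi ^ 4 := pow_le_pow_left₀ (by norm_num) h1.le 4
      refine le_trans ?_ h2
      norm_num
    have h := pack (16 / Real.pi ^ 4) (Real.sqrt 5.62) (1 / 12) hη (by norm_num) (by norm_num)
      (by
        rw [hη4, div_le_iff₀ (by norm_num)]
        have hpi0 : 0 < Real.pi ^ 4 := by positivity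
        rw [← mul_div_assoc, div_le_iff₀ hpi0]
        linarith) hN (ix d n)
      (fun κ => pr v (fun i => ((yy n κ i : ℤ) : ℝ))) (fun _ : Fin d => n) (mem_ix n)
      (by
        funext j
        simp_rw [hyy0]
        simp [pr])
      (by
        intro a _ b _ hab
        have hne : (fun i => yy n a i - yy n b i : Fin d → ℤ) ≠ 0 := by
          intro h0
          apply hab
          apply yy_injective n
          funext i
          have := congrFun h0 i
          simp only [Pi.zero_apply] at this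
          omega
        have h1 := hy _ hne
        have h2 : ∀ j, pr v (fun i => (((yy n a i - yy n b i : ℤ)) : ℝ)) j =
            pr v (fun i => ((yy n a i : ℤ) : ℝ)) j - pr v (fun i => ((yy n b i : ℤ) : ℝ)) j := by
          intro j
          unfold pr
          rw [← Finset.sum_sub_distrib]
          refine Finset.sum_congr rfl fun i _ => by push_cast; ring
        simp_rw [h2] at h1
        rw [hη2]
        linarith)
      gB gB_nonneg gB_le_one gB_le
    refine h.trans ?_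
    norm_num
  have hnorm : ‖∑ κ ∈ (ix d n).erase (fun _ : Fin d => n), ((cf n κ : ℝ) : ℂ) *
      (ee (∑ i, ((yy n κ i : ℤ) : ℝ) * x0 i) *
        ∏ p, phi muB (pr v' (fun i => ((yy n κ i : ℤ) : ℝ)) p))‖ ≤ c0 * (1 / 2) := by
    refine (norm_sum_le _ _).trans ?_
    refine le_trans ?_ (mul_le_mul_of_nonneg_left hpack hc0pos)
    rw [Finset.mul_sum]
    refine Finset.sum_le_sum fun κ _ => ?_
    rw [norm_mul, norm_mul, norm_ee, one_mul, Complex.norm_real, Real.norm_eq_abs,
      abs_of_nonneg (cf_nonneg n κ), norm_prod]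
    have h1 : ∏ p, ‖phi muB (pr v' (fun i => ((yy n κ i : ℤ) : ℝ)) p)‖ =
        ∏ j, gB (pr v (fun i => ((yy n κ i : ℤ) : ℝ)) j) := by
      simp_rw [hpr]
      rw [prod_four (fun j => ‖phi muB (pr v (fun i => ((yy n κ i : ℤ) : ℝ)) j / 4)‖)]
      rfl
    rw [h1]
    exact mul_le_mul_of_nonneg_right (cf_le n κ) (Finset.prod_nonneg fun j _ => gB_nonneg _)
  have hlow : c0 * (1 / 2) ≤ ∫ t, PP (XX x0 v' t) ^ n ∂ν := by
    set R : ℂ := ∑ κ ∈ (ix d n).erase (fun _ : Fin d => n), ((cf n κ : ℝ) : ℂ) *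
      (ee (∑ i, ((yy n κ i : ℤ) : ℝ) * x0 i) *
        ∏ p, phi muB (pr v' (fun i => ((yy n κ i : ℤ) : ℝ)) p)) with hR
    have h1 := congrArg Complex.re hsplit
    rw [Complex.ofReal_re, Complex.add_re, Complex.ofReal_re] at h1
    have h2 : -‖R‖ ≤ R.re := by
      have := Complex.abs_re_le_norm R
      exact (abs_le.mp this).1
    rw [h1]
    linarith
  calc (1 / (2 * (n : ℝ))) ^ d * (1 / 2) ≤ c0 * (1 / 2) :=
        mul_le_mul_of_nonneg_right (cf_lower n hn) (by norm_num)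
    _ ≤ _ := hlow
    _ ≤ q ^ n := hle

end Pool.Agent.Lib.MP_d2370c_gt
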