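import Mathlib
import Pool.Agent.Lib.MP_d2370c_gt.UniB
import Pool.Agent.Lib.MP_d2370c_gt.FinalA

/-!
Convex bodies between a zonotope and the circumscribed ellipsoid.
-/

set_option autoImplicit false

open Finset MeasureTheory

namespace Pool.Agent.Lib.MP_d2370c_gt

variable {d N : ℕ}

/-- The upper bound. -/
theorem width_le_B (K : Set (Fin d → ℝ)) (hconv : Convex ℝ K)
    (hint : (interior K).Nonempty) (hfree : ∀ z : Fin d → ℤ, (fun i => (z i : ℝ)) ∉ interior K)
    (v : Fin N → Fin d → ℝ) (x0 : Fin d → ℝ) (M : ℝ) (hM : 0 ≤ M)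
    (hin : ∀ t : Fin N → ℝ, (∀ j, |t j| ≤ 1) → x0 + ∑ j, t j • v j ∈ K)
    (hout : ∀ x ∈ K, ∃ t : Fin N → ℝ, ∑ j, t j ^ 2 ≤ M ^ 2 * N ∧ x = x0 + ∑ j, t j • v j) :
    ∃ y : Fin d → ℤ, y ≠ 0 ∧ ∀ x ∈ K, ∀ x' ∈ K, ∑ i, (x i - x' i) * (y i : ℝ) ≤ 15 * M * N := by
  classical
  by_contra hcon
  push Not at hcon
  -- dimension zero
  rcases Nat.eq_zero_or_pos d with hd | hd
  · subst hd
    obtain ⟨x, hx⟩ := hint
    apply hfree 0
    have : (fun i => ((0 : Fin 0 → ℤ) i : ℝ)) = x := Subsingleton.elim _ _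
    rw [this]; exact hx
  have hN0 : (0 : ℝ) ≤ N := Nat.cast_nonneg N
  -- step one
  have h1 : ∀ y : Fin d → ℤ, y ≠ 0 → 56.25 * (N : ℝ) < ∑ j, pr v (fun i => (y i : ℝ)) j ^ 2 := by
    intro y hy
    obtain ⟨x, hx, x', hx', hlt⟩ := hcon y hy
    obtain ⟨t, ht, rfl⟩ := hout x hx
    obtain ⟨t', ht', rfl⟩ := hout x' hx'
    by_contra hno
    push Not at hno
    rw [sum_diff_eq v x0 t t' (fun i => (y i : ℝ))] at hlt
    have h2 : (∑ j, (t j - t' j) * pr v (fun i => (y i : ℝ)) j) ^ 2 ≤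
        (∑ j, (t j - t' j) ^ 2) * ∑ j, pr v (fun i => (y i : ℝ)) j ^ 2 :=
      Finset.sum_mul_sq_le_sq_mul_sq _ _ _
    have h3 : ∑ j, (t j - t' j) ^ 2 ≤ 4 * (M ^ 2 * N) := by
      calc ∑ j, (t j - t' j) ^ 2 ≤ ∑ j, (2 * t j ^ 2 + 2 * t' j ^ 2) := by
            refine Finset.sum_le_sum fun j _ => ?_
            nlinarith [sq_nonneg (t j + t' j)]
        _ = 2 * ∑ j, t j ^ 2 + 2 * ∑ j, t' j ^ 2 := by
            rw [Finset.sum_add_distrib, Finset.mul_sum, Finset.mul_sum]
        _ ≤ 4 * (M ^ 2 * N) := by linarith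
    have h4 : (∑ j, (t j - t' j) * pr v (fun i => (y i : ℝ)) j) ^ 2 ≤ (15 * M * N) ^ 2 := by
      have h5 : 0 ≤ ∑ j, pr v (fun i => (y i : ℝ)) j ^ 2 := Finset.sum_nonneg fun _ _ => sq_nonneg _
      calc _ ≤ (∑ j, (t j - t' j) ^ 2) * ∑ j, pr v (fun i => (y i : ℝ)) j ^ 2 := h2
        _ ≤ (4 * (M ^ 2 * N)) * (56.25 * N) := mul_le_mul h3 hno h5 (by positivity)
        _ = (15 * M * N) ^ 2 := by ring
    have h6 : 0 ≤ 15 * M * (N : ℝ) := by positivity
    have h7 := abs_le_of_sq_le_sq' h4 h6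
    linarith [h7.2]
  -- the number of generators is positive
  have hN : 1 ≤ N := by
    rcases Nat.eq_zero_or_pos N with h | h
    · subst h
      have hy0 : (fun _ => 1 : Fin d → ℤ) ≠ 0 := by
        intro h
        have := congrFun h ⟨0, hd⟩
        simp at this
      have := h1 _ hy0
      simp at this
    · exact h
  have hN' : (0 : ℝ) < N := by exact_mod_cast hN
  -- the integer point
  obtain ⟨z, t, ht, hz⟩ := exists_point_B x0 (fun j i => 0.9996 * v j i) hN (by
    intro y hy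
    have h2 := h1 y hy
    have h3 : ∀ j, pr (fun j i => 0.9996 * v j i) (fun i => (y i : ℝ)) j =
        0.9996 * pr v (fun i => (y i : ℝ)) j := by
      intro j
      unfold pr
      rw [Finset.mul_sum]
      refine Finset.sum_congr rfl fun i _ => by ring
    simp_rw [h3, mul_pow]
    rw [← Finset.mul_sum]
    nlinarith)
  obtain ⟨z0, hz0⟩ := hint
  obtain ⟨s, _, hs⟩ := hout z0 (interior_subset hz0)
  have hzeq : (fun i => (z i : ℝ)) = x0 + ∑ j, (0.9996 * t j) • v j := by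
    rw [← hz]
    funext i
    simp only [XX, Pi.add_apply, Finset.sum_apply, Pi.smul_apply, smul_eq_mul]
    congr 1
    refine Finset.sum_congr rfl fun j _ => by ring
  apply hfree z
  have hev : ∀ᶠ τ in nhds (0 : ℝ), ∀ j : Fin N, |0.9996 * t j + τ * (0.9996 * t j - s j)| < 1 := by
    rw [Filter.eventually_all]
    intro j
    have hcont : Continuous fun τ : ℝ => |0.9996 * t j + τ * (0.9996 * t j - s j)| := by fun_prop
    have := hcont.tendsto 0
    simp only [zero_mul, add_zero] at this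
    refine (tendsto_order.1 this).2 _ ?_
    rw [abs_mul, abs_of_pos (by norm_num : (0 : ℝ) < 0.9996)]
    have := ht j
    nlinarith [abs_nonneg (t j)]
  obtain ⟨τ, hτ1, hτ2⟩ := ((hev.filter_mono nhdsWithin_le_nhds).and
    (self_mem_nhdsWithin (a := (0 : ℝ)) (s := Set.Ioi 0))).exists
  refine mem_interior_of_combo K hconv _ z0 hz0 τ hτ2 ?_
  have h9 : (fun i => (z i : ℝ)) + τ • ((fun i => (z i : ℝ)) - z0) =
      x0 + ∑ j, (0.9996 * t j + τ * (0.9996 * t j - s j)) • v j := by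
    rw [hzeq, hs]
    funext i
    simp only [Pi.add_apply, Pi.sub_apply, Finset.sum_apply, Pi.smul_apply, smul_eq_mul]
    have e1 : ∑ j, (0.9996 * t j + τ * (0.9996 * t j - s j)) * v j i =
        ∑ j, 0.9996 * t j * v j i + τ * (∑ j, 0.9996 * t j * v j i - ∑ j, s j * v j i) := by
      rw [← Finset.sum_sub_distrib, Finset.mul_sum, ← Finset.sum_add_distrib]
      refine Finset.sum_congr rfl fun j _ => by ring
    rw [e1]
    ring
  rw [h9]
  exact hin _ fun j => (hτ1 j).le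

/-- A compact solid set which is closed under quadratic means, and which contains a point all of
whose coordinates are nonzero. -/
structure SolidTwoConvex (T : Set (Fin N → ℝ)) : Prop where
  isCompact : IsCompact T
  solid : ∀ t ∈ T, ∀ s : Fin N → ℝ, (∀ j, |s j| ≤ |t j|) → s ∈ T
  quad : ∀ s ∈ T, ∀ t ∈ T, ∀ a b : ℝ, 0 ≤ a → 0 ≤ b → a + b = 1 →
    (fun j => Real.sqrt (a * s j ^ 2 + b * t j ^ 2)) ∈ T
  full : ∃ t ∈ T, ∀ j, t j ≠ 0

theorem SolidTwoConvex.convex {T : Set (Fin N → ℝ)} (hT : SolidTwoConvex T) : Convex ℝ T := by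
  intro s hs t ht a b ha hb hab
  refine hT.solid _ (hT.quad s hs t ht a b ha hb hab) _ fun j => ?_
  rw [abs_of_nonneg (Real.sqrt_nonneg _)]
  apply Real.abs_le_sqrt
  simp only [Pi.add_apply, Pi.smul_apply, smul_eq_mul]
  have hb' : b = 1 - a := by linarith
  subst hb'
  nlinarith [mul_nonneg ha hb, sq_nonneg (s j - t j), mul_nonneg (mul_nonneg ha hb) (sq_nonneg (s j - t j))]

/-- The factorization: a box inside and a proportional ellipsoid outside. -/
theorem SolidTwoConvex.exists_box {T : Set (Fin N → ℝ)} (hT : SolidTwoConvex T) :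
    ∃ D : Fin N → ℝ, (∀ j, 0 < D j) ∧ D ∈ T ∧ ∀ t ∈ T, ∑ j, (t j / D j) ^ 2 ≤ N := by
  classical
  obtain ⟨t1, ht1, ht1'⟩ := hT.full
  have hcont : Continuous fun t : Fin N → ℝ => ∏ j, t j ^ 2 := by fun_prop
  obtain ⟨D, hD, hmax⟩ := hT.isCompact.exists_isMaxOn ⟨t1, ht1⟩ hcont.continuousOn
  have hpos1 : 0 < ∏ j, t1 j ^ 2 := Finset.prod_pos fun j _ => by
    have := ht1' j
    positivity
  have hDpos : 0 < ∏ j, D j ^ 2 := lt_of_lt_of_le hpos1 (hmax ht1)
  have hD0 : ∀ j, D j ≠ 0 := by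
    intro j h0
    have : ∏ j, D j ^ 2 = 0 := Finset.prod_eq_zero (Finset.mem_univ j) (by rw [h0]; ring)
    linarith
  refine ⟨fun j => |D j|, fun j => abs_pos.mpr (hD0 j), ?_, ?_⟩
  · exact hT.solid D hD _ fun j => by rw [abs_abs]
  · intro t ht
    have hr : ∀ j, (t j / |D j|) ^ 2 = t j ^ 2 / D j ^ 2 := by
      intro j
      rw [div_pow, sq_abs]
    simp_rw [hr]
    -- the one parameter family
    set a : Fin N → ℝ := fun j => t j ^ 2 / D j ^ 2 - 1 with ha
    have hle : ∀ s : ℝ, 0 ≤ s → s ≤ 1 → ∏ j, (1 + s * a j) ≤ 1 := by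
      intro s hs0 hs1
      have hm := hT.quad D hD t ht (1 - s) s (by linarith) hs0 (by ring)
      have h2 := hmax hm
      simp only at h2
      have h3 : ∏ j, Real.sqrt ((1 - s) * D j ^ 2 + s * t j ^ 2) ^ 2 = (∏ j, (1 + s * a j)) * ∏ j, D j ^ 2 := by
        rw [← Finset.prod_mul_distrib]
        refine Finset.prod_congr rfl fun j _ => ?_
        have h4 : 0 ≤ (1 - s) * D j ^ 2 + s * t j ^ 2 := by
          have : 0 ≤ 1 - s := by linarith
          positivity
        rw [Real.sq_sqrt h4, ha]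
        have := hD0 j
        field_simp
        ring
      have h5 : ∏ j, Real.sqrt ((1 - s) * D j ^ 2 + s * t j ^ 2) ^ 2 ≤ ∏ j, D j ^ 2 := h2
      rw [h3] at h5
      nlinarith
    have hder : HasDerivAt (fun s : ℝ => ∏ j, (1 + s * a j)) (∑ j, a j) 0 := by
      have h1 : ∀ j ∈ (Finset.univ : Finset (Fin N)), HasDerivAt (fun s : ℝ => 1 + s * a j) (a j) 0 := by
        intro j _
        have := ((hasDerivAt_id (0 : ℝ)).mul_const (a j)).const_add 1
        simpa using this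
      have h2 := HasDerivAt.fun_finsetProd h1
      simpa using h2
    by_contra hcon
    push Not at hcon
    have hsum : 0 < ∑ j, a j := by
      rw [ha, Finset.sum_sub_distrib]
      simp only [Finset.sum_const, Finset.card_univ, Fintype.card_fin, nsmul_eq_mul, mul_one]
      linarith
    have h3 := (hasDerivAt_iff_tendsto_slope.mp hder)
    have h4 : ∀ᶠ s in nhdsWithin (0 : ℝ) {0}ᶜ, 0 < slope (fun s : ℝ => ∏ j, (1 + s * a j)) 0 s :=
      (tendsto_order.1 h3).1 _ hsum
    have h5 : ∀ᶠ s in nhdsWithin (0 : ℝ) (Set.Ioi 0), 0 < slope (fun s : ℝ => ∏ j, (1 + s * a j)) 0 s := by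
      apply h4.filter_mono
      apply nhdsWithin_mono
      intro x hx
      exact ne_of_gt hx
    have h6 : ∀ᶠ s in nhdsWithin (0 : ℝ) (Set.Ioi 0), s ∈ Set.Ioo (0 : ℝ) 1 :=
      Ioo_mem_nhdsGT one_pos
    obtain ⟨s, hs1, hs2⟩ := (h5.and h6).exists
    have h7 := hle s hs2.1.le hs2.2.le
    rw [slope_def_field] at hs1
    simp only [zero_mul, add_zero, Finset.prod_const_one, sub_zero] at hs1
    have h8 : (∏ j, (1 + s * a j) - 1) / s ≤ 0 := div_nonpos_of_nonpos_of_nonneg (by linarith) hs2.1.le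
    linarith

/-- The affine image of `T`. -/
def img (x0 : Fin d → ℝ) (w : Fin N → Fin d → ℝ) (T : Set (Fin N → ℝ)) : Set (Fin d → ℝ) :=
  {x | ∃ t ∈ T, x = x0 + ∑ j, t j • w j}

theorem convex_img (x0 : Fin d → ℝ) (w : Fin N → Fin d → ℝ) (T : Set (Fin N → ℝ)) (hT : Convex ℝ T) :
    Convex ℝ (img x0 w T) := by
  rintro x ⟨s, hs, rfl⟩ y ⟨r, hr, rfl⟩ a b ha hb hab
  refine ⟨a • s + b • r, hT hs hr ha hb hab, ?_⟩
  have hb' : b = 1 - a := by linarith
  subst hb'
  simp only [Pi.add_apply, Pi.smul_apply, smul_eq_mul, add_smul, Finset.sum_add_distrib, mul_smul,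
    ← Finset.smul_sum]
  module

theorem width_le_img (T : Set (Fin N → ℝ)) (hT : SolidTwoConvex T) (x0 : Fin d → ℝ)
    (w : Fin N → Fin d → ℝ) (hint : (interior (img x0 w T)).Nonempty)
    (hfree : ∀ z : Fin d → ℤ, (fun i => (z i : ℝ)) ∉ interior (img x0 w T)) :
    ∃ y : Fin d → ℤ, y ≠ 0 ∧ ∀ x ∈ img x0 w T, ∀ x' ∈ img x0 w T,
      ∑ i, (x i - x' i) * (y i : ℝ) ≤ 15 * N := by
  obtain ⟨D, hD0, hD, hDle⟩ := hT.exists_box
  have h := width_le_B (img x0 w T) (convex_img x0 w T hT.convex) hint hfree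
    (fun j => D j • w j) x0 1 zero_le_one ?_ ?_
  · simpa using h
  · intro t ht
    refine ⟨fun j => t j * D j, hT.solid D hD _ fun j => ?_, ?_⟩
    · rw [abs_mul]
      have := ht j
      have := abs_nonneg (D j)
      nlinarith
    · congr 1
      refine Finset.sum_congr rfl fun j _ => ?_
      rw [smul_smul]
  · rintro x ⟨t, ht, rfl⟩
    refine ⟨fun j => t j / D j, ?_, ?_⟩
    · have := hDle t ht
      simpa using this
    · congr 1
      refine Finset.sum_congr rfl fun j _ => ?_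
      rw [smul_smul, div_mul_cancel₀ _ (hD0 j).ne']

/-- The polar of `T`. -/
def pol (T : Set (Fin N → ℝ)) : Set (Fin N → ℝ) := {s | ∀ t ∈ T, ∑ j, s j * t j ≤ 1}

theorem convex_pol (T : Set (Fin N → ℝ)) : Convex ℝ (pol T) := by
  intro s hs r hr a b ha hb hab t ht
  have h1 := hs t ht
  have h2 := hr t ht
  have h3 : ∑ j, (a • s + b • r) j * t j = a * ∑ j, s j * t j + b * ∑ j, r j * t j := by
    rw [Finset.mul_sum, Finset.mul_sum, ← Finset.sum_add_distrib]
    refine Finset.sum_congr rfl fun j _ => ?_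
    simp only [Pi.add_apply, Pi.smul_apply, smul_eq_mul]
    ring
  rw [h3]
  nlinarith

theorem width_le_pol (T : Set (Fin N → ℝ)) (hT : SolidTwoConvex T) (x0 : Fin d → ℝ)
    (w : Fin N → Fin d → ℝ) (hint : (interior (img x0 w (pol T))).Nonempty)
    (hfree : ∀ z : Fin d → ℤ, (fun i => (z i : ℝ)) ∉ interior (img x0 w (pol T))) :
    ∃ y : Fin d → ℤ, y ≠ 0 ∧ ∀ x ∈ img x0 w (pol T), ∀ x' ∈ img x0 w (pol T),
      ∑ i, (x i - x' i) * (y i : ℝ) ≤ N := by
  obtain ⟨D, hD0, hD, hDle⟩ := hT.exists_box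
  rcases Nat.eq_zero_or_pos N with hN | hN
  · subst hN
    have h := width_le_A (N := 0) (img x0 w (pol T)) (convex_img x0 w _ (convex_pol T)) hint hfree
      w x0 1 ?_ ?_
    · simpa using h
    · intro t _
      exact ⟨t, fun s _ => by simp, rfl⟩
    · rintro x ⟨t, _, rfl⟩
      exact ⟨t, by simp, rfl⟩
  have hN' : (0 : ℝ) < N := by exact_mod_cast hN
  have h := width_le_A (img x0 w (pol T)) (convex_img x0 w _ (convex_pol T)) hint hfree
    (fun j => (N * D j)⁻¹ • w j) x0 1 ?_ ?_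
  · simpa using h
  · intro t ht
    refine ⟨fun j => t j * (N * D j)⁻¹, ?_, ?_⟩
    · intro s hs
      have h1 : (∑ j, (t j / N) * (s j / D j)) ^ 2 ≤ (∑ j, (t j / N) ^ 2) * ∑ j, (s j / D j) ^ 2 :=
        Finset.sum_mul_sq_le_sq_mul_sq _ _ _
      have h2 : ∑ j, (t j / N) ^ 2 ≤ 1 / N := by
        simp_rw [div_pow]
        rw [← Finset.sum_div, div_le_div_iff₀ (by positivity) hN']
        nlinarith
      have h3 := hDle s hs
      have h4 : (∑ j, (t j / N) * (s j / D j)) ^ 2 ≤ 1 := by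
        calc _ ≤ _ := h1
          _ ≤ (1 / N) * N := mul_le_mul h2 h3 (Finset.sum_nonneg fun _ _ => sq_nonneg _) (by positivity)
          _ = 1 := by field_simp
      have h5 : ∑ j, t j * (N * D j)⁻¹ * s j = ∑ j, (t j / N) * (s j / D j) := by
        refine Finset.sum_congr rfl fun j _ => ?_
        have := (hD0 j).ne'
        field_simp
      rw [h5]
      have h6 : (∑ j, (t j / N) * (s j / D j)) ^ 2 ≤ 1 ^ 2 := by simpa using h4
      exact (abs_le_of_sq_le_sq' h6 zero_le_one).2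
    · congr 1
      refine Finset.sum_congr rfl fun j _ => ?_
      rw [smul_smul]
  · rintro x ⟨s, hs, rfl⟩
    refine ⟨fun j => N * D j * s j, ?_, ?_⟩
    · have h1 : (fun j => if 0 ≤ s j then D j else -D j) ∈ T := by
        refine hT.solid D hD _ fun j => ?_
        split_ifs
        · exact le_refl _
        · rw [abs_neg]
      have h2 := hs _ h1
      have h3 : ∑ j, s j * (if 0 ≤ s j then D j else -D j) = ∑ j, D j * |s j| := by
        refine Finset.sum_congr rfl fun j _ => ?_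
        split_ifs with h
        · rw [abs_of_nonneg h]; ring
        · rw [abs_of_neg (not_le.mp h)]; ring
      rw [h3] at h2
      have h4 : ∑ j, |N * D j * s j| = N * ∑ j, D j * |s j| := by
        rw [Finset.mul_sum]
        refine Finset.sum_congr rfl fun j _ => ?_
        rw [abs_mul, abs_mul, abs_of_pos hN', abs_of_pos (hD0 j)]
        ring
      rw [h4]
      nlinarith
    · congr 1
      refine Finset.sum_congr rfl fun j _ => ?_
      rw [smul_smul]
      have := (hD0 j).ne'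
      congr 1
      field_simp

end Pool.Agent.Lib.MP_d2370c_gt
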