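import Mathlib
import Pool.Agent.Lib.MP_d2370c_gt.PackB

/-!
The packing lemma for general exponents. A finite family of points of `ℝ^N`, one of which is zero,
whose mutual distances satisfy `∑ |z - z'|^p > (4 η)^p N`: the sum over the nonzero points of the
products of the values of a function with `g u ≤ min (1, K / |u|^e)`, where `p + 2 ≤ e`, is at most
`4 q / (1 - 4 q)`, where `q = 2^e K / η^e`.
-/

set_option autoImplicit false

open Finset

namespace Pool.Agent.Lib.MP_d2370c_gt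

theorem one_le_abs_cast {t : ℤ} (ht : t ≠ 0) : (1 : ℝ) ≤ |(t : ℝ)| := by
  have : (1 : ℤ) ≤ |t| := Int.one_le_abs ht
  exact_mod_cast this

theorem inv_pow_le {t : ℤ} (ht : t ≠ 0) {e : ℕ} (he : 2 ≤ e) :
    1 / |(t : ℝ)| ^ e ≤ 1 / (t : ℝ) ^ 2 := by
  have h1 := one_le_abs_cast ht
  have h2 : (t : ℝ) ^ 2 = |(t : ℝ)| ^ 2 := (sq_abs _).symm
  rw [h2]
  apply one_div_le_one_div_of_le (by positivity)
  exact pow_le_pow_right₀ h1 he

theorem sum_winp_le (B : ℕ) {e : ℕ} (he : 2 ≤ e) : ∑ t ∈ (win B).erase 0, 1 / |(t : ℝ)| ^ e ≤ 4 :=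
  (Finset.sum_le_sum fun _ ht => inv_pow_le (Finset.mem_erase.mp ht).1 he).trans (sum_win_le B)

/-- The weights of the codes. -/
noncomputable def omp (q : ℝ) (e B : ℕ) (t : ℤ) : ℝ :=
  if t = 0 then 1 - ∑ s ∈ (win B).erase 0, q / |(s : ℝ)| ^ e else q / |(t : ℝ)| ^ e

theorem sum_omp (q : ℝ) (e B : ℕ) : ∑ t ∈ win B, omp q e B t = 1 := by
  rw [← Finset.add_sum_erase _ _ (zero_mem_win B)]
  have : ∑ t ∈ (win B).erase 0, omp q e B t = ∑ s ∈ (win B).erase 0, q / |(s : ℝ)| ^ e := by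
    refine Finset.sum_congr rfl fun t ht => ?_
    rw [omp, if_neg (Finset.mem_erase.mp ht).1]
  rw [this, omp, if_pos rfl]
  ring

theorem omp_nonneg (q : ℝ) (hq : 0 ≤ q) (hq1 : 4 * q ≤ 1) {e : ℕ} (he : 2 ≤ e) (B : ℕ) (t : ℤ) :
    0 ≤ omp q e B t := by
  unfold omp
  split_ifs
  · have h1 := sum_winp_le B he
    have h2 : ∑ s ∈ (win B).erase 0, q / |(s : ℝ)| ^ e = q * ∑ s ∈ (win B).erase 0, 1 / |(s : ℝ)| ^ e := by
      rw [Finset.mul_sum]
      refine Finset.sum_congr rfl fun s _ => by ring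
    rw [h2]
    nlinarith
  · positivity

theorem sum_omp_rpow (q : ℝ) (hq : 0 ≤ q) (p : ℝ) (hp : 1 ≤ p) {e : ℕ} (he : p + 2 ≤ e) (B : ℕ) :
    ∑ t ∈ win B, omp q e B t * |(t : ℝ)| ^ p ≤ 4 * q := by
  rw [← Finset.add_sum_erase _ _ (zero_mem_win B)]
  have h1 : ∑ t ∈ (win B).erase 0, omp q e B t * |(t : ℝ)| ^ p ≤
      q * ∑ s ∈ (win B).erase 0, 1 / (s : ℝ) ^ 2 := by
    rw [Finset.mul_sum]
    refine Finset.sum_le_sum fun t ht => ?_
    have ht1 := one_le_abs_cast (Finset.mem_erase.mp ht).1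
    have ht0 : 0 < |(t : ℝ)| := by linarith
    rw [omp, if_neg (Finset.mem_erase.mp ht).1]
    have h3 : |(t : ℝ)| ^ p * (t : ℝ) ^ 2 ≤ |(t : ℝ)| ^ e := by
      have h4 : (t : ℝ) ^ 2 = |(t : ℝ)| ^ (2 : ℝ) := by
        rw [Real.rpow_two, sq_abs]
      rw [h4, ← Real.rpow_add ht0, ← Real.rpow_natCast]
      exact Real.rpow_le_rpow_of_exponent_le ht1 he
    have h5 : 0 < (t : ℝ) ^ 2 := by
      have := sq_abs (t : ℝ)
      rw [← this]; positivity
    calc q / |(t : ℝ)| ^ e * |(t : ℝ)| ^ p = q * (|(t : ℝ)| ^ p / |(t : ℝ)| ^ e) := by ring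
      _ ≤ q * (1 / (t : ℝ) ^ 2) := by
          apply mul_le_mul_of_nonneg_left _ hq
          rw [div_le_div_iff₀ (by positivity) h5, one_mul]
          exact h3
  have := sum_win_le B
  have h2 : omp q e B 0 * |((0 : ℤ) : ℝ)| ^ p = 0 := by
    simp [Real.zero_rpow (by linarith : p ≠ 0)]
  rw [h2]
  nlinarith

section

variable {N : ℕ}

/-- The factor of the weight of the codes which agree with `a` where `a` is not zero. -/
noncomputable def psip (q : ℝ) (e B : ℕ) (a t : ℤ) : ℝ :=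
  omp q e B t * (if a = 0 then 1 else if t = a then 1 else 0)

theorem sum_psip (q : ℝ) (e B : ℕ) (a : ℤ) (ha : a ∈ win B) :
    ∑ t ∈ win B, psip q e B a t = if a = 0 then 1 else omp q e B a := by
  unfold psip
  split_ifs with h
  · simp [sum_omp]
  · rw [Finset.sum_eq_single a]
    · simp
    · intro b _ hb
      simp [hb]
    · intro hcon
      exact absurd ha hcon

theorem psip_nonneg (q : ℝ) (hq : 0 ≤ q) (hq1 : 4 * q ≤ 1) {e : ℕ} (he : 2 ≤ e) (B : ℕ) (a t : ℤ) :
    0 ≤ psip q e B a t := by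
  unfold psip
  apply mul_nonneg (omp_nonneg q hq hq1 he B t)
  split_ifs <;> norm_num

/-- The excess on the set where the code vector `a` vanishes. -/
noncomputable def QQp (p : ℝ) (a c : Fin N → ℤ) : ℝ := ∑ k, if a k = 0 then |(c k : ℝ)| ^ p else 0

/-- The product weight. -/
noncomputable def WWp (q : ℝ) (e B : ℕ) (a : Fin N → ℤ) : ℝ := ∏ j, if a j = 0 then 1 else omp q e B (a j)

theorem sum_mmp (q : ℝ) (e B : ℕ) (a : Fin N → ℤ) (ha : ∀ j, a j ∈ win B) :
    ∑ c ∈ cube' N B, ∏ j, psip q e B (a j) (c j) = WWp q e B a := by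
  unfold cube' WWp
  rw [← Finset.prod_univ_sum (fun _ : Fin N => win B) (fun j t => psip q e B (a j) t)]
  exact Finset.prod_congr rfl fun j _ => sum_psip q e B (a j) (ha j)

theorem WWp_nonneg (q : ℝ) (hq : 0 ≤ q) (hq1 : 4 * q ≤ 1) {e : ℕ} (he : 2 ≤ e) (B : ℕ)
    (a : Fin N → ℤ) : 0 ≤ WWp q e B a := by
  unfold WWp
  refine Finset.prod_nonneg fun j _ => ?_
  split_ifs
  · norm_num
  · exact omp_nonneg q hq hq1 he B _

theorem sum_mmp_rpow (q : ℝ) (hq : 0 ≤ q) (hq1 : 4 * q ≤ 1) (p : ℝ) (hp : 1 ≤ p) {e : ℕ}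
    (he : p + 2 ≤ e) (B : ℕ) (a : Fin N → ℤ)
    (ha : ∀ j, a j ∈ win B) (k : Fin N) (hk : a k = 0) :
    ∑ c ∈ cube' N B, (∏ j, psip q e B (a j) (c j)) * |(c k : ℝ)| ^ p ≤ 4 * q * WWp q e B a := by
  classical
  have he2 : 2 ≤ e := by
    have : (2 : ℝ) ≤ e := by linarith
    exact_mod_cast this
  have h1 : ∀ c : Fin N → ℤ, (∏ j, psip q e B (a j) (c j)) * |(c k : ℝ)| ^ p =
      ∏ j, psip q e B (a j) (c j) * (if j = k then |(c j : ℝ)| ^ p else 1) := by
    intro c
    rw [Finset.prod_mul_distrib, Finset.prod_ite_eq' Finset.univ k]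
    simp
  simp_rw [h1]
  unfold cube'
  rw [← Finset.prod_univ_sum (fun _ : Fin N => win B)
    (fun j t => psip q e B (a j) t * (if j = k then |(t : ℝ)| ^ p else 1))]
  rw [← Finset.mul_prod_erase _ _ (Finset.mem_univ k)]
  have h2 : ∑ t ∈ win B, psip q e B (a k) t * (if k = k then |(t : ℝ)| ^ p else 1) ≤ 4 * q := by
    have := sum_omp_rpow q hq p hp he B
    refine le_trans (le_of_eq ?_) this
    refine Finset.sum_congr rfl fun t _ => ?_
    simp [psip, hk]
  have h3 : ∏ j ∈ Finset.univ.erase k, ∑ t ∈ win B, psip q e B (a j) t *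
      (if j = k then |(t : ℝ)| ^ p else 1) = WWp q e B a := by
    unfold WWp
    rw [← Finset.mul_prod_erase _ (fun j => if a j = 0 then (1 : ℝ) else omp q e B (a j)) (Finset.mem_univ k)]
    rw [if_pos hk, one_mul]
    refine Finset.prod_congr rfl fun j hj => ?_
    have hjk : j ≠ k := (Finset.mem_erase.mp hj).1
    rw [← sum_psip q e B (a j) (ha j)]
    refine Finset.sum_congr rfl fun t _ => ?_
    simp [hjk]
  rw [h3]
  exact mul_le_mul_of_nonneg_right h2 (WWp_nonneg q hq hq1 he2 B a)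

theorem sum_mmp_QQp (q : ℝ) (hq : 0 ≤ q) (hq1 : 4 * q ≤ 1) (p : ℝ) (hp : 1 ≤ p) {e : ℕ}
    (he : p + 2 ≤ e) (B : ℕ) (a : Fin N → ℤ) (ha : ∀ j, a j ∈ win B) :
    ∑ c ∈ cube' N B, (∏ j, psip q e B (a j) (c j)) * QQp p a c ≤ 4 * q * N * WWp q e B a := by
  have he2 : 2 ≤ e := by
    have : (2 : ℝ) ≤ e := by linarith
    exact_mod_cast this
  unfold QQp
  simp_rw [Finset.mul_sum]
  rw [Finset.sum_comm]
  have h : ∀ k ∈ (Finset.univ : Finset (Fin N)),
      ∑ c ∈ cube' N B, (∏ j, psip q e B (a j) (c j)) * (if a k = 0 then |(c k : ℝ)| ^ p else 0) ≤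
      4 * q * WWp q e B a := by
    intro k _
    by_cases hk : a k = 0
    · simp only [hk, if_true]
      exact sum_mmp_rpow q hq hq1 p hp he B a ha k hk
    · simp only [hk, if_false, mul_zero, Finset.sum_const_zero]
      exact mul_nonneg (by linarith) (WWp_nonneg q hq hq1 he2 B a)
  refine (Finset.sum_le_sum h).trans (le_of_eq ?_)
  rw [Finset.sum_const, Finset.card_univ, Fintype.card_fin, nsmul_eq_mul]
  ring

/-- The code vector `c` belongs to the cell of `a`. -/
def Cellp (p : ℝ) (a c : Fin N → ℤ) : Prop := (∀ j, a j ≠ 0 → c j = a j) ∧ QQp p a c ≤ N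

open Classical in
theorem cellp_mass (q : ℝ) (hq : 0 ≤ q) (hq1 : 4 * q ≤ 1) (p : ℝ) (hp : 1 ≤ p) {e : ℕ}
    (he : p + 2 ≤ e) (hN : 1 ≤ N) (B : ℕ) (a : Fin N → ℤ) (ha : ∀ j, a j ∈ win B) :
    WWp q e B a * (1 - 4 * q) ≤
      ∑ c ∈ cube' N B, (∏ j, omp q e B (c j)) * (if Cellp p a c then 1 else 0) := by
  have he2 : 2 ≤ e := by
    have : (2 : ℝ) ≤ e := by linarith
    exact_mod_cast this
  have hN' : (0 : ℝ) < N := by exact_mod_cast hN
  have h1 : ∀ c ∈ cube' N B, (∏ j, psip q e B (a j) (c j)) - (∏ j, psip q e B (a j) (c j)) * QQp p a c / N ≤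
      (∏ j, omp q e B (c j)) * (if Cellp p a c then 1 else 0) := by
    intro c _
    have hpos : 0 ≤ ∏ j, psip q e B (a j) (c j) :=
      Finset.prod_nonneg fun j _ => psip_nonneg q hq hq1 he2 B _ _
    have hom : 0 ≤ ∏ j, omp q e B (c j) := Finset.prod_nonneg fun j _ => omp_nonneg q hq hq1 he2 B _
    have hQ : 0 ≤ QQp p a c := by
      unfold QQp
      refine Finset.sum_nonneg fun k _ => ?_
      split_ifs
      · positivity
      · exact le_refl _
    by_cases hag : ∀ j, a j ≠ 0 → c j = a j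
    · by_cases hQN : QQp p a c ≤ N
      · rw [if_pos ⟨hag, hQN⟩, mul_one]
        have h2 : ∏ j, psip q e B (a j) (c j) = ∏ j, omp q e B (c j) := by
          refine Finset.prod_congr rfl fun j _ => ?_
          unfold psip
          by_cases hj : a j = 0
          · simp [hj]
          · simp [hj, hag j hj]
        rw [h2]
        have : 0 ≤ (∏ j, omp q e B (c j)) * QQp p a c / N := by positivity
        linarith
      · push Not at hQN
        have h3 : (∏ j, psip q e B (a j) (c j)) ≤ (∏ j, psip q e B (a j) (c j)) * QQp p a c / N := by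
          rw [le_div_iff₀ hN']
          exact mul_le_mul_of_nonneg_left hQN.le hpos
        have h4 : 0 ≤ (∏ j, omp q e B (c j)) * (if Cellp p a c then (1 : ℝ) else 0) := by
          apply mul_nonneg hom
          split_ifs <;> norm_num
        linarith
    · push Not at hag
      obtain ⟨j, hj1, hj2⟩ := hag
      have h2 : ∏ j, psip q e B (a j) (c j) = 0 := by
        apply Finset.prod_eq_zero (Finset.mem_univ j)
        simp [psip, hj1, hj2]
      rw [h2]
      have h4 : 0 ≤ (∏ j, omp q e B (c j)) * (if Cellp p a c then (1 : ℝ) else 0) := by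
        apply mul_nonneg hom
        split_ifs <;> norm_num
      simpa using h4
  have h2 := Finset.sum_le_sum h1
  rw [Finset.sum_sub_distrib, ← Finset.sum_div, sum_mmp q e B a ha] at h2
  have h3 := sum_mmp_QQp q hq hq1 p hp he B a ha
  have h4 : (∑ c ∈ cube' N B, (∏ j, psip q e B (a j) (c j)) * QQp p a c) / N ≤ 4 * q * WWp q e B a := by
    rw [div_le_iff₀ hN']
    linarith
  linarith

theorem sum_allp (q : ℝ) (N e B : ℕ) : ∑ c ∈ cube' N B, ∏ j, omp q e B (c j) = 1 := by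
  unfold cube'
  rw [← Finset.prod_univ_sum (fun _ : Fin N => win B) (fun _ t => omp q e B t)]
  simp [sum_omp]

theorem four_rpow (p : ℝ) (hp : 1 ≤ p) (a b c d : ℝ) :
    |a + b + c + d| ^ p ≤ (4 : ℝ) ^ (p - 1) * (|a| ^ p + |b| ^ p + |c| ^ p + |d| ^ p) := by
  have h := Real.rpow_sum_le_const_mul_sum_rpow (Finset.univ : Finset (Fin 4)) ![a, b, c, d] hp
  simp only [Finset.card_univ, Fintype.card_fin, Fin.sum_univ_four] at h
  have h1 : |a + b + c + d| ≤ |a| + |b| + |c| + |d| := by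
    have h2 := abs_add_le (a + b + c) d
    have h3 := abs_add_le (a + b) c
    have h4 := abs_add_le a b
    linarith
  have h5 : |a + b + c + d| ^ p ≤ (|a| + |b| + |c| + |d|) ^ p :=
    Real.rpow_le_rpow (abs_nonneg _) h1 (by linarith)
  refine h5.trans ?_
  simpa using h

/-- Two points whose code vectors have a common cell element are close. -/
theorem close_of_cellsp (p : ℝ) (hp : 1 ≤ p) (η : ℝ) (hη : 0 < η) (z z' : Fin N → ℝ) (c : Fin N → ℤ)
    (h : Cellp p (cd η z) c) (h' : Cellp p (cd η z') c) :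
    ∑ j, |z j - z' j| ^ p ≤ (4 * η) ^ p * N := by
  have hp0 : 0 ≤ p := by linarith
  have key : ∀ j, |z j - z' j| ^ p ≤ (4 : ℝ) ^ (p - 1) *
      (η ^ p * (if cd η z j = 0 then |(c j : ℝ)| ^ p else 0) +
      η ^ p * (if cd η z' j = 0 then |(c j : ℝ)| ^ p else 0) + η ^ p) := by
    intro j
    have hr : ∀ w : Fin N → ℝ, Cellp p (cd η w) c → ∃ r s : ℝ, w j = η * c j - η * r + s ∧
        |r| ^ p = (if cd η w j = 0 then |(c j : ℝ)| ^ p else 0) ∧ |s| ^ p ≤ η ^ p / 2 := by
      intro w hw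
      have h1 : |w j / η - (cd η w j : ℝ)| ≤ 1 / 2 := abs_sub_round (w j / η)
      have h2 : |w j - η * (cd η w j : ℝ)| ≤ η / 2 := by
        have : w j - η * (cd η w j : ℝ) = η * (w j / η - (cd η w j : ℝ)) := by field_simp
        rw [this, abs_mul, abs_of_pos hη]
        nlinarith
      have h3 : |w j - η * (cd η w j : ℝ)| ^ p ≤ η ^ p / 2 := by
        calc |w j - η * (cd η w j : ℝ)| ^ p ≤ (η / 2) ^ p :=
              Real.rpow_le_rpow (abs_nonneg _) h2 hp0
          _ = η ^ p * (1 / 2) ^ p := by rw [← Real.mul_rpow hη.le (by norm_num)]; ring_nf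
          _ ≤ η ^ p * (1 / 2) := by
              apply mul_le_mul_of_nonneg_left _ (by positivity)
              calc ((1 : ℝ) / 2) ^ p ≤ (1 / 2) ^ (1 : ℝ) :=
                    Real.rpow_le_rpow_of_exponent_ge (by norm_num) (by norm_num) hp
                _ = 1 / 2 := Real.rpow_one _
          _ = η ^ p / 2 := by ring
      by_cases hj : cd η w j = 0
      · refine ⟨c j, w j, by ring, by rw [if_pos hj], ?_⟩
        rw [hj] at h3
        simpa using h3
      · refine ⟨0, w j - η * (cd η w j : ℝ), ?_, ?_, h3⟩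
        · rw [hw.1 j hj]; ring
        · rw [if_neg hj]
          simp [Real.zero_rpow (by linarith : p ≠ 0)]
    obtain ⟨r, s, e1, e2, e3⟩ := hr z h
    obtain ⟨r', s', e1', e2', e3'⟩ := hr z' h'
    rw [← e2, ← e2']
    have e4 : z j - z' j = η * r' + (-(η * r)) + s + (-s') := by rw [e1, e1']; ring
    rw [e4]
    refine (four_rpow p hp _ _ _ _).trans ?_
    apply mul_le_mul_of_nonneg_left _ (by positivity)
    rw [abs_neg, abs_neg, abs_mul, abs_mul, abs_of_pos hη, Real.mul_rpow hη.le (abs_nonneg _),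
      Real.mul_rpow hη.le (abs_nonneg _)]
    linarith
  calc ∑ j, |z j - z' j| ^ p ≤ ∑ j, (4 : ℝ) ^ (p - 1) *
      (η ^ p * (if cd η z j = 0 then |(c j : ℝ)| ^ p else 0) +
      η ^ p * (if cd η z' j = 0 then |(c j : ℝ)| ^ p else 0) + η ^ p) :=
        Finset.sum_le_sum fun j _ => key j
    _ = (4 : ℝ) ^ (p - 1) * (η ^ p * QQp p (cd η z) c + η ^ p * QQp p (cd η z') c + N * η ^ p) := by
        rw [← Finset.mul_sum, Finset.sum_add_distrib, Finset.sum_add_distrib, ← Finset.mul_sum,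
          ← Finset.mul_sum, Finset.sum_const, Finset.card_univ, Fintype.card_fin, nsmul_eq_mul]
        rfl
    _ ≤ (4 : ℝ) ^ (p - 1) * (η ^ p * N + η ^ p * N + N * η ^ p) := by
        have := h.2
        have := h'.2
        gcongr
    _ = (3 / 4) * ((4 * η) ^ p * N) := by
        rw [Real.mul_rpow (by norm_num) hη.le, Real.rpow_sub (by norm_num), Real.rpow_one]
        ring
    _ ≤ (4 * η) ^ p * N := by
        have : 0 ≤ (4 * η) ^ p * (N : ℝ) := by positivity
        linarith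

end

/-- The packing lemma. -/
theorem packp {α : Type*} [DecidableEq α] {N : ℕ} (p : ℝ) (hp : 1 ≤ p) (e : ℕ) (he : p + 2 ≤ e)
    (K η q : ℝ) (hη : 0 < η) (hq : 0 ≤ q) (hq1 : 4 * q < 1)
    (hqK : 2 ^ e * K / η ^ e ≤ q) (hN : 1 ≤ N)
    (S : Finset α) (z : α → Fin N → ℝ) (a0 : α) (ha0 : a0 ∈ S) (hz0 : z a0 = 0)
    (hsep : ∀ a ∈ S, ∀ b ∈ S, a ≠ b → (4 * η) ^ p * N < ∑ j, |z a j - z b j| ^ p)
    (g : ℝ → ℝ) (hg0 : ∀ u, 0 ≤ g u) (hg1 : ∀ u, g u ≤ 1) (hgK : ∀ u, u ≠ 0 → g u ≤ K / |u| ^ e) :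
    ∑ a ∈ S.erase a0, ∏ j, g (z a j) ≤ 4 * q / (1 - 4 * q) := by
  classical
  have he2 : 2 ≤ e := by
    have : (2 : ℝ) ≤ e := by linarith
    exact_mod_cast this
  -- a window containing all codes
  obtain ⟨B, hB⟩ : ∃ B : ℕ, ∀ a ∈ S, ∀ j, cd η (z a) j ∈ win B := by
    refine ⟨∑ a ∈ S, ∑ j, (cd η (z a) j).natAbs, fun a ha j => ?_⟩
    have h1 : (cd η (z a) j).natAbs ≤ ∑ j, (cd η (z a) j).natAbs :=
      Finset.single_le_sum (f := fun j => (cd η (z a) j).natAbs) (fun _ _ => Nat.zero_le _) (Finset.mem_univ j)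
    have h2 : ∑ j, (cd η (z a) j).natAbs ≤ ∑ a ∈ S, ∑ j, (cd η (z a) j).natAbs :=
      Finset.single_le_sum (f := fun a => ∑ j, (cd η (z a) j).natAbs) (fun _ _ => Nat.zero_le _) ha
    rw [win, Finset.mem_Icc]
    omega
  have hcell : ∀ c : Fin N → ℤ, ∑ a ∈ S, (if Cellp p (cd η (z a)) c then (1 : ℝ) else 0) ≤ 1 := by
    intro c
    rw [Finset.sum_boole]
    have : (S.filter fun a => Cellp p (cd η (z a)) c).card ≤ 1 := by
      rw [Finset.card_le_one]
      intro a ha b hb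
      rw [Finset.mem_filter] at ha hb
      by_contra hne
      have h1 := hsep a ha.1 b hb.1 hne
      have h2 := close_of_cellsp p hp η hη (z a) (z b) c ha.2 hb.2
      linarith
    exact_mod_cast this
  have hmass : ∑ a ∈ S, WWp q e B (cd η (z a)) * (1 - 4 * q) ≤ 1 := by
    calc ∑ a ∈ S, WWp q e B (cd η (z a)) * (1 - 4 * q)
        ≤ ∑ a ∈ S, ∑ c ∈ cube' N B, (∏ j, omp q e B (c j)) * (if Cellp p (cd η (z a)) c then 1 else 0) :=
          Finset.sum_le_sum fun a ha => cellp_mass q hq hq1.le p hp he hN B _ (hB a ha)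
      _ = ∑ c ∈ cube' N B, (∏ j, omp q e B (c j)) *
            ∑ a ∈ S, (if Cellp p (cd η (z a)) c then (1 : ℝ) else 0) := by
          rw [Finset.sum_comm]
          refine Finset.sum_congr rfl fun c _ => ?_
          rw [Finset.mul_sum]
      _ ≤ ∑ c ∈ cube' N B, (∏ j, omp q e B (c j)) * 1 :=
          Finset.sum_le_sum fun c _ => mul_le_mul_of_nonneg_left (hcell c)
            (Finset.prod_nonneg fun j _ => omp_nonneg q hq hq1.le he2 B _)
      _ = 1 := by simp only [mul_one]; exact sum_allp q N e B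
  have hgW : ∀ a ∈ S, ∏ j, g (z a j) ≤ WWp q e B (cd η (z a)) := by
    intro a _
    unfold WWp
    refine Finset.prod_le_prod (fun j _ => hg0 _) fun j _ => ?_
    by_cases hj : cd η (z a) j = 0
    · rw [if_pos hj]; exact hg1 _
    · rw [if_neg hj, omp, if_neg hj]
      -- the size of the coordinate
      set b := cd η (z a) j with hb
      have h1 : |z a j / η - (b : ℝ)| ≤ 1 / 2 := abs_sub_round (z a j / η)
      have hb1 : (1 : ℝ) ≤ |(b : ℝ)| := one_le_abs_cast hj
      have h2 : |(b : ℝ)| / 2 ≤ |z a j / η| := by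
        have h3 : |(b : ℝ)| ≤ |z a j / η| + |z a j / η - b| := by
          have := abs_sub_abs_le_abs_sub (b : ℝ) (z a j / η)
          rw [abs_sub_comm (b : ℝ)] at this
          linarith
        linarith
      have hz : z a j ≠ 0 := by
        intro h0
        rw [h0] at h2
        simp at h2
        linarith
      have hzpos : 0 < |z a j| := abs_pos.mpr hz
      have h4 : η * |(b : ℝ)| / 2 ≤ |z a j| := by
        rw [abs_div, abs_of_pos hη, le_div_iff₀ hη] at h2
        linarith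
      have h5 : (η * |(b : ℝ)| / 2) ^ e ≤ |z a j| ^ e := pow_le_pow_left₀ (by positivity) h4 e
      have h6 : (η * |(b : ℝ)| / 2) ^ e = η ^ e * |(b : ℝ)| ^ e / 2 ^ e := by
        rw [div_pow, mul_pow]
      have hbe : (0 : ℝ) < |(b : ℝ)| ^ e := by positivity
      have hze : (0 : ℝ) < |z a j| ^ e := by positivity
      have hK0 : 0 ≤ K := by
        have h8 := hgK _ hz
        have h9 := hg0 (z a j)
        by_contra hneg
        push Not at hneg
        have : K / |z a j| ^ e < 0 := div_neg_of_neg_of_pos hneg hze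
        linarith
      have hηe : 0 < η ^ e := by positivity
      calc g (z a j) ≤ K / |z a j| ^ e := hgK _ hz
        _ ≤ K / (η ^ e * |(b : ℝ)| ^ e / 2 ^ e) := by
            apply div_le_div_of_nonneg_left hK0 (by positivity)
            rw [← h6]; exact h5
        _ = (2 ^ e * K / η ^ e) / |(b : ℝ)| ^ e := by field_simp
        _ ≤ q / |(b : ℝ)| ^ e := by gcongr
  have hW0 : WWp q e B (cd η (z a0)) = 1 := by
    unfold WWp
    refine Finset.prod_eq_one fun j _ => ?_
    have : cd η (z a0) j = 0 := by simp [cd, hz0]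
    rw [if_pos this]
  rw [← Finset.add_sum_erase _ _ ha0, hW0] at hmass
  have h1 : ∑ a ∈ S.erase a0, ∏ j, g (z a j) ≤ ∑ a ∈ S.erase a0, WWp q e B (cd η (z a)) :=
    Finset.sum_le_sum fun a ha => hgW a (Finset.mem_of_mem_erase ha)
  rw [← Finset.sum_mul] at hmass
  rw [le_div_iff₀ (by linarith)]
  have h2 : (∑ a ∈ S.erase a0, ∏ j, g (z a j)) * (1 - 4 * q) ≤
      (∑ a ∈ S.erase a0, WWp q e B (cd η (z a))) * (1 - 4 * q) :=
    mul_le_mul_of_nonneg_right h1 (by linarith)
  linarith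

end Pool.Agent.Lib.MP_d2370c_gt
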