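import Mathlib
import Pool.Agent.Lib.MP_d2370c_gt.UniB
import Pool.Agent.Lib.MP_d2370c_gt.PackP
import Pool.Agent.Lib.MP_d2370c_gt.FinalB

/-!
The second averaging theorem for general exponents, and convex bodies between a zonotope and the
image of the proportional ball of the `r` norm.
-/

set_option autoImplicit false

open Finset MeasureTheory

namespace Pool.Agent.Lib.MP_d2370c_gt

/-- The function which bounds the factors. -/
noncomputable def gP (m : ℕ) (u : ℝ) : ℝ := ‖phi muB (u / (2 * m))‖ ^ (2 * m)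

theorem gP_nonneg (m : ℕ) (u : ℝ) : 0 ≤ gP m u := by unfold gP; positivity

theorem gP_le_one (m : ℕ) (u : ℝ) : gP m u ≤ 1 := pow_le_one₀ (norm_nonneg _) (norm_phi_le muB _)

theorem gP_le (m : ℕ) (hm : 1 ≤ m) (u : ℝ) (hu : u ≠ 0) :
    gP m u ≤ ((m : ℝ) / Real.pi) ^ (2 * m) / |u| ^ (2 * m) := by
  have hpi := Real.pi_pos
  have hm' : (0 : ℝ) < m := by exact_mod_cast hm
  have h1 := norm_phi_muB (u / (2 * m)) (by positivity)
  have h2 : gP m u ≤ (1 / (2 * Real.pi * |u / (2 * m)|)) ^ (2 * m) :=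
    pow_le_pow_left₀ (norm_nonneg _) h1 _
  refine h2.trans (le_of_eq ?_)
  have h3 : |u / (2 * m)| = |u| / (2 * m) := by
    rw [abs_div, abs_of_pos (by positivity : (0 : ℝ) < 2 * m)]
  have h5 : 0 < |u| := abs_pos.mpr hu
  rw [h3, ← div_pow]
  congr 1
  field_simp

variable {d N : ℕ}

theorem prod_many (m : ℕ) (f : Fin N → ℝ) : ∏ p : Fin N × Fin (2 * m), f p.1 = ∏ j, f j ^ (2 * m) := by
  rw [Fintype.prod_prod_type]
  simp

/-- The second averaging theorem. -/
theorem exists_point_P (p : ℝ) (hp : 1 ≤ p) (m : ℕ) (hm : p + 2 ≤ 2 * m) (x0 : Fin d → ℝ)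
    (v : Fin N → Fin d → ℝ) (hN : 1 ≤ N)
    (hy : ∀ y : Fin d → ℤ, y ≠ 0 → (4.8 * m) ^ p * (N : ℝ) < ∑ j, |pr v (fun i => (y i : ℝ)) j| ^ p) :
    ∃ z : Fin d → ℤ, ∃ t : Fin N → ℝ, (∀ j, |t j| ≤ 1) ∧ XX x0 v t = fun i => (z i : ℝ) := by
  classical
  have hm2 : 2 ≤ m := by
    have : (3 : ℝ) ≤ 2 * m := by linarith
    have h3 : 3 ≤ 2 * m := by exact_mod_cast this
    omega
  have hm0 : (0 : ℝ) < m := by exact_mod_cast (by omega : 0 < m)
  by_contra hcon
  push Not at hcon
  have hKc : IsCompact (XX x0 v '' {t : Fin N → ℝ | ∀ j, |t j| ≤ 1}) := by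
    apply IsCompact.image _ (continuous_XX x0 v)
    have h : {t : Fin N → ℝ | ∀ j, |t j| ≤ 1} = Set.pi Set.univ (fun _ => Set.Icc (-1 : ℝ) 1) := by
      ext x
      constructor
      · intro hx i _
        exact abs_le.mp (hx i)
      · intro hx i
        exact abs_le.mpr (hx i (Set.mem_univ i))
    rw [h]
    exact isCompact_univ_pi fun _ => isCompact_Icc
  obtain ⟨q, hq0, hq1, hq⟩ := exists_q _ hKc (by
    rintro z ⟨t, ht, hz⟩
    exact hcon z t ht hz)
  refine no_bound d (1 / 2) q (by norm_num) hq0 hq1 fun n hn => ?_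
  set v' : Fin N × Fin (2 * m) → Fin d → ℝ := fun a i => v a.1 i / (2 * m) with hv'
  set ν : Measure (Fin N × Fin (2 * m) → ℝ) := Measure.pi fun _ => muB with hν
  have hpr : ∀ (y : Fin d → ℝ) (a : Fin N × Fin (2 * m)), pr v' y a = pr v y a.1 / (2 * m) := by
    intro y a
    unfold pr
    rw [hv', Finset.sum_div]
    refine Finset.sum_congr rfl fun i _ => by ring
  -- the sample points lie in the zonotope
  have hae : ∀ᵐ t ∂ν, ∀ a, |t a| ≤ 1 := by
    rw [ae_all_iff]
    intro a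
    exact (measurePreserving_eval (fun _ : Fin N × Fin (2 * m) => muB) a).quasiMeasurePreserving.ae ae_muB
  have hmem : ∀ t : Fin N × Fin (2 * m) → ℝ, (∀ a, |t a| ≤ 1) →
      XX x0 v' t ∈ XX x0 v '' {t : Fin N → ℝ | ∀ j, |t j| ≤ 1} := by
    intro t ht
    refine ⟨fun j => ∑ k, t (j, k) / (2 * m), ?_, ?_⟩
    · intro j
      calc |∑ k, t (j, k) / (2 * m)| ≤ ∑ k, |t (j, k) / (2 * m)| := Finset.abs_sum_le_sum_abs _ _
        _ ≤ ∑ _k : Fin (2 * m), (1 / (2 * m) : ℝ) := by
            refine Finset.sum_le_sum fun k _ => ?_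
            rw [abs_div, abs_of_pos (by positivity : (0 : ℝ) < 2 * m)]
            have := ht (j, k)
            gcongr
        _ = 1 := by
            rw [Finset.sum_const, Finset.card_univ, Fintype.card_fin, nsmul_eq_mul]
            push_cast
            field_simp
    · funext i
      unfold XX
      congr 1
      rw [Fintype.sum_prod_type]
      refine Finset.sum_congr rfl fun j _ => ?_
      rw [Finset.sum_mul]
      refine Finset.sum_congr rfl fun k _ => ?_
      rw [hv']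
      ring
  -- upper bound for the average
  have hcont : Continuous fun t : Fin N × Fin (2 * m) → ℝ => PP (XX x0 v' t) ^ n :=
    (continuous_PP.comp (continuous_XX x0 v')).pow n
  have hint : Integrable (fun t : Fin N × Fin (2 * m) → ℝ => PP (XX x0 v' t) ^ n) ν := by
    refine (integrable_const (1 : ℝ)).mono' hcont.aestronglyMeasurable ?_
    filter_upwards with t
    rw [Real.norm_eq_abs, abs_of_nonneg (pow_nonneg (PP_nonneg _) n)]
    exact pow_le_one₀ (PP_nonneg _) (PP_le_one _)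
  have hle : ∫ t, PP (XX x0 v' t) ^ n ∂ν ≤ q ^ n := by
    have h3 : ∫ _t : Fin N × Fin (2 * m) → ℝ, q ^ n ∂ν = q ^ n := by simp
    rw [← h3]
    refine integral_mono_ae hint (integrable_const _) ?_
    filter_upwards [hae] with t ht
    exact pow_le_pow_left₀ (PP_nonneg _) (hq _ (hmem t ht)) n
  -- lower bound for the average
  set c0 : ℝ := cf n (fun _ : Fin d => n) with hc0
  have hc0pos : 0 ≤ c0 := cf_nonneg n _
  have hval : ((∫ t, PP (XX x0 v' t) ^ n ∂ν : ℝ) : ℂ) =
      ∑ κ ∈ ix d n, ((cf n κ : ℝ) : ℂ) * (ee (∑ i, ((yy n κ i : ℤ) : ℝ) * x0 i) *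
        ∏ a, phi muB (pr v' (fun i => ((yy n κ i : ℤ) : ℝ)) a)) := by
    have e1 : ((∫ t, PP (XX x0 v' t) ^ n ∂ν : ℝ) : ℂ) = ∫ t, ((PP (XX x0 v' t) ^ n : ℝ) : ℂ) ∂ν :=
      integral_ofReal.symm
    rw [e1]
    simp_rw [PP_pow_expand']
    rw [integral_finsetSum _ fun κ _ => (integrable_ee muB x0 v' _).const_mul _]
    refine Finset.sum_congr rfl fun κ _ => ?_
    rw [integral_const_mul, integral_char]
  have hsplit := hval
  rw [← Finset.add_sum_erase _ _ (mem_ix n)] at hsplit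
  have hyy0 : ∀ i : Fin d, ((yy n (fun _ : Fin d => n) i : ℤ) : ℝ) = 0 := by
    intro i; simp [yy]
  have hfirst : ((cf n (fun _ : Fin d => n) : ℝ) : ℂ) *
      (ee (∑ i, ((yy n (fun _ : Fin d => n) i : ℤ) : ℝ) * x0 i) *
        ∏ a, phi muB (pr v' (fun i => ((yy n (fun _ : Fin d => n) i : ℤ) : ℝ)) a)) = (c0 : ℂ) := by
    simp_rw [hyy0]
    have hpr0 : ∀ a, pr v' (fun _ : Fin d => (0 : ℝ)) a = 0 := by intro a; simp [pr]
    simp_rw [hpr0, phi_zero]
    simp [ee_zero, hc0]
  rw [hfirst] at hsplit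
  -- the packing lemma
  have hpack : ∑ κ ∈ (ix d n).erase (fun _ : Fin d => n),
      ∏ j, gP m (pr v (fun i => ((yy n κ i : ℤ) : ℝ)) j) ≤ 1 / 2 := by
    have hη : (0 : ℝ) < 1.2 * m := by positivity
    have h := packp p hp (2 * m) (by push_cast; exact hm) (((m : ℝ) / Real.pi) ^ (2 * m)) (1.2 * m)
      (1 / 12) hη (by norm_num) (by norm_num)
      (by
        have hpi1 := Real.pi_gt_d4
        have hpi0 : 0 < Real.pi := Real.pi_pos
        have e1 : (2 : ℝ) ^ (2 * m) * ((m : ℝ) / Real.pi) ^ (2 * m) / (1.2 * m) ^ (2 * m) =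
            (1 / (0.6 * Real.pi)) ^ (2 * m) := by
          rw [← mul_pow, ← div_pow]
          congr 1
          field_simp
          norm_num
        rw [e1]
        have e2 : 1 / (0.6 * Real.pi) ≤ 0.5306 := by
          rw [div_le_iff₀ (by positivity)]
          nlinarith
        have e3 : 0 ≤ 1 / (0.6 * Real.pi) := by positivity
        calc (1 / (0.6 * Real.pi)) ^ (2 * m) ≤ 0.5306 ^ (2 * m) := pow_le_pow_left₀ e3 e2 _
          _ ≤ 0.5306 ^ 4 := pow_le_pow_of_le_one (by norm_num) (by norm_num) (by omega)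
          _ ≤ 1 / 12 := by norm_num) hN (ix d n)
      (fun κ => pr v (fun i => ((yy n κ i : ℤ) : ℝ))) (fun _ : Fin d => n) (mem_ix n)
      (by
        funext j
        simp_rw [hyy0]
        simp [pr])
      (by
        intro a _ b _ hab
        have hne : (fun i => yy n a i - yy n b i : Fin d → ℤ) ≠ 0 := by
          intro h0
          apply hab
          apply yy_injective n
          funext i
          have := congrFun h0 i
          simp only [Pi.zero_apply] at this
          omega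
        have h1 := hy _ hne
        have h2 : ∀ j, pr v (fun i => (((yy n a i - yy n b i : ℤ)) : ℝ)) j =
            pr v (fun i => ((yy n a i : ℤ) : ℝ)) j - pr v (fun i => ((yy n b i : ℤ) : ℝ)) j := by
          intro j
          unfold pr
          rw [← Finset.sum_sub_distrib]
          refine Finset.sum_congr rfl fun i _ => by push_cast; ring
        simp_rw [h2] at h1
        have e4 : 4 * (1.2 * (m : ℝ)) = 4.8 * m := by ring
        rw [e4]
        exact h1)
      (gP m) (gP_nonneg m) (gP_le_one m) (gP_le m (by omega))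
    refine h.trans ?_
    norm_num
  have hnorm : ‖∑ κ ∈ (ix d n).erase (fun _ : Fin d => n), ((cf n κ : ℝ) : ℂ) *
      (ee (∑ i, ((yy n κ i : ℤ) : ℝ) * x0 i) *
        ∏ a, phi muB (pr v' (fun i => ((yy n κ i : ℤ) : ℝ)) a))‖ ≤ c0 * (1 / 2) := by
    refine (norm_sum_le _ _).trans ?_
    refine le_trans ?_ (mul_le_mul_of_nonneg_left hpack hc0pos)
    rw [Finset.mul_sum]
    refine Finset.sum_le_sum fun κ _ => ?_
    rw [norm_mul, norm_mul, norm_ee, one_mul, Complex.norm_real, Real.norm_eq_abs,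
      abs_of_nonneg (cf_nonneg n κ), norm_prod]
    have h1 : ∏ a, ‖phi muB (pr v' (fun i => ((yy n κ i : ℤ) : ℝ)) a)‖ =
        ∏ j, gP m (pr v (fun i => ((yy n κ i : ℤ) : ℝ)) j) := by
      simp_rw [hpr]
      rw [prod_many m (fun j => ‖phi muB (pr v (fun i => ((yy n κ i : ℤ) : ℝ)) j / (2 * m))‖)]
      rfl
    rw [h1]
    exact mul_le_mul_of_nonneg_right (cf_le n κ) (Finset.prod_nonneg fun j _ => gP_nonneg m _)
  have hlow : c0 * (1 / 2) ≤ ∫ t, PP (XX x0 v' t) ^ n ∂ν := by
    set R : ℂ := ∑ κ ∈ (ix d n).erase (fun _ : Fin d => n), ((cf n κ : ℝ) : ℂ) *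
      (ee (∑ i, ((yy n κ i : ℤ) : ℝ) * x0 i) *
        ∏ a, phi muB (pr v' (fun i => ((yy n κ i : ℤ) : ℝ)) a)) with hR
    have h1 := congrArg Complex.re hsplit
    rw [Complex.ofReal_re, Complex.add_re, Complex.ofReal_re] at h1
    have h2 : -‖R‖ ≤ R.re := by
      have := Complex.abs_re_le_norm R
      exact (abs_le.mp this).1
    rw [h1]
    linarith
  calc (1 / (2 * (n : ℝ))) ^ d * (1 / 2) ≤ c0 * (1 / 2) :=
        mul_le_mul_of_nonneg_right (cf_lower n hn) (by norm_num)
    _ ≤ _ := hlow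
    _ ≤ q ^ n := hle

/-- The upper bound. -/
theorem width_le_P (r p : ℝ) (hrp : r.HolderConjugate p) (K : Set (Fin d → ℝ)) (hconv : Convex ℝ K)
    (hint : (interior K).Nonempty) (hfree : ∀ z : Fin d → ℤ, (fun i => (z i : ℝ)) ∉ interior K)
    (v : Fin N → Fin d → ℝ) (x0 : Fin d → ℝ) (M : ℝ) (hM : 0 ≤ M)
    (hin : ∀ t : Fin N → ℝ, (∀ j, |t j| ≤ 1) → x0 + ∑ j, t j • v j ∈ K)
    (hout : ∀ x ∈ K, ∃ t : Fin N → ℝ, ∑ j, |t j| ^ r ≤ M ^ r * N ∧ x = x0 + ∑ j, t j • v j) :
    ∃ y : Fin d → ℤ, y ≠ 0 ∧ ∀ x ∈ K, ∀ x' ∈ K,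
      ∑ i, (x i - x' i) * (y i : ℝ) ≤ 5 * (p + 4) * M * N := by
  classical
  have hp1 : 1 < p := hrp.symm.lt
  have hr1 : 1 < r := hrp.lt
  by_contra hcon
  push Not at hcon
  -- dimension zero
  rcases Nat.eq_zero_or_pos d with hd | hd
  · subst hd
    obtain ⟨x, hx⟩ := hint
    apply hfree 0
    have : (fun i => ((0 : Fin 0 → ℤ) i : ℝ)) = x := Subsingleton.elim _ _
    rw [this]; exact hx
  have hN0 : (0 : ℝ) ≤ N := Nat.cast_nonneg N
  -- step one
  have h1 : ∀ y : Fin d → ℤ, y ≠ 0 → (2.5 * (p + 4)) ^ p * (N : ℝ) <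
      ∑ j, |pr v (fun i => (y i : ℝ)) j| ^ p := by
    intro y hy
    obtain ⟨x, hx, x', hx', hlt⟩ := hcon y hy
    obtain ⟨t, ht, rfl⟩ := hout x hx
    obtain ⟨t', ht', rfl⟩ := hout x' hx'
    by_contra hno
    push Not at hno
    rw [sum_diff_eq v x0 t t' (fun i => (y i : ℝ))] at hlt
    set w : Fin N → ℝ := fun j => pr v (fun i => (y i : ℝ)) j with hw
    have hwp : (∑ j, |w j| ^ p) ^ (1 / p) ≤ 2.5 * (p + 4) * (N : ℝ) ^ (1 / p) := by
      calc (∑ j, |w j| ^ p) ^ (1 / p) ≤ ((2.5 * (p + 4)) ^ p * (N : ℝ)) ^ (1 / p) :=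
            Real.rpow_le_rpow (Finset.sum_nonneg fun _ _ => by positivity) hno (by positivity)
        _ = 2.5 * (p + 4) * (N : ℝ) ^ (1 / p) := by
            rw [Real.mul_rpow (by positivity) hN0, ← Real.rpow_mul (by linarith)]
            rw [mul_one_div_cancel (by linarith : p ≠ 0), Real.rpow_one]
    have hpart : ∀ s : Fin N → ℝ, ∑ j, |s j| ^ r ≤ M ^ r * N →
        ∑ j, s j * w j ≤ 2.5 * (p + 4) * M * N := by
      intro s hs
      have h2 := Real.inner_le_Lp_mul_Lq Finset.univ s w hrp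
      have h3 : (∑ j, |s j| ^ r) ^ (1 / r) ≤ M * (N : ℝ) ^ (1 / r) := by
        calc (∑ j, |s j| ^ r) ^ (1 / r) ≤ (M ^ r * (N : ℝ)) ^ (1 / r) :=
              Real.rpow_le_rpow (Finset.sum_nonneg fun _ _ => by positivity) hs (by positivity)
          _ = M * (N : ℝ) ^ (1 / r) := by
              rw [Real.mul_rpow (by positivity) hN0, ← Real.rpow_mul hM]
              rw [mul_one_div_cancel (by linarith : r ≠ 0), Real.rpow_one]
      calc ∑ j, s j * w j ≤ (∑ j, |s j| ^ r) ^ (1 / r) * (∑ j, |w j| ^ p) ^ (1 / p) := h2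
        _ ≤ (M * (N : ℝ) ^ (1 / r)) * (2.5 * (p + 4) * (N : ℝ) ^ (1 / p)) :=
            mul_le_mul h3 hwp (by positivity) (by positivity)
        _ = 2.5 * (p + 4) * M * ((N : ℝ) ^ (1 / r) * (N : ℝ) ^ (1 / p)) := by ring
        _ = 2.5 * (p + 4) * M * N := by
            congr 1
            rcases eq_or_lt_of_le hN0 with h | h
            · rw [← h]
              rw [Real.zero_rpow (by positivity), zero_mul]
            · rw [← Real.rpow_add h]
              have : 1 / r + 1 / p = 1 := by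
                have := hrp.inv_add_inv_eq_one
                simpa [one_div] using this
              rw [this, Real.rpow_one]
    have h4 := hpart t ht
    have h5 := hpart (fun j => -t' j) (by simpa using ht')
    have h6 : ∑ j, (t j - t' j) * w j = ∑ j, t j * w j + ∑ j, -t' j * w j := by
      rw [← Finset.sum_add_distrib]
      refine Finset.sum_congr rfl fun j _ => by ring
    have h7 : ∑ j, (t j - t' j) * w j ≤ 5 * (p + 4) * M * N := by
      rw [h6]
      linarith
    linarith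
  -- the number of generators is positive
  have hN : 1 ≤ N := by
    rcases Nat.eq_zero_or_pos N with h | h
    · subst h
      have hy0 : (fun _ => 1 : Fin d → ℤ) ≠ 0 := by
        intro h
        have := congrFun h ⟨0, hd⟩
        simp at this
      have := h1 _ hy0
      simp at this
    · exact h
  have hN' : (0 : ℝ) < N := by exact_mod_cast hN
  -- the parameter
  obtain ⟨m, hm1, hm2⟩ : ∃ m : ℕ, p + 2 ≤ 2 * m ∧ (2 : ℝ) * m ≤ p + 4 := by
    refine ⟨⌈(p + 2) / 2⌉₊, ?_, ?_⟩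
    · have := Nat.le_ceil ((p + 2) / 2)
      linarith
    · have := Nat.ceil_lt_add_one (show 0 ≤ (p + 2) / 2 by linarith)
      linarith
  -- the integer point
  obtain ⟨z, t, ht, hz⟩ := exists_point_P p hp1.le m hm1 x0 (fun j i => 0.96 * v j i) hN (by
    intro y hy
    have h2 := h1 y hy
    have h3 : ∀ j, pr (fun j i => 0.96 * v j i) (fun i => (y i : ℝ)) j =
        0.96 * pr v (fun i => (y i : ℝ)) j := by
      intro j
      unfold pr
      rw [Finset.mul_sum]
      refine Finset.sum_congr rfl fun i _ => by ring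
    simp_rw [h3, abs_mul]
    have h4 : ∀ j, (|(0.96 : ℝ)| * |pr v (fun i => (y i : ℝ)) j|) ^ p =
        0.96 ^ p * |pr v (fun i => (y i : ℝ)) j| ^ p := by
      intro j
      rw [abs_of_pos (by norm_num : (0 : ℝ) < 0.96), Real.mul_rpow (by norm_num) (abs_nonneg _)]
    simp_rw [h4]
    rw [← Finset.mul_sum]
    have h5 : (4.8 * (m : ℝ)) ^ p ≤ (0.96 * (2.5 * (p + 4))) ^ p :=
      Real.rpow_le_rpow (by positivity) (by linarith) (by linarith)
    have h6 : (0.96 * (2.5 * (p + 4))) ^ p = 0.96 ^ p * (2.5 * (p + 4)) ^ p :=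
      Real.mul_rpow (by norm_num) (by linarith)
    rw [h6] at h5
    calc (4.8 * (m : ℝ)) ^ p * N ≤ (0.96 ^ p * (2.5 * (p + 4)) ^ p) * N :=
          mul_le_mul_of_nonneg_right h5 hN0
      _ = 0.96 ^ p * ((2.5 * (p + 4)) ^ p * N) := by ring
      _ < 0.96 ^ p * ∑ j, |pr v (fun i => (y i : ℝ)) j| ^ p := by
          apply mul_lt_mul_of_pos_left h2
          positivity)
  obtain ⟨z0, hz0⟩ := hint
  obtain ⟨s, _, hs⟩ := hout z0 (interior_subset hz0)
  have hzeq : (fun i => (z i : ℝ)) = x0 + ∑ j, (0.96 * t j) • v j := by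
    rw [← hz]
    funext i
    simp only [XX, Pi.add_apply, Finset.sum_apply, Pi.smul_apply, smul_eq_mul]
    congr 1
    refine Finset.sum_congr rfl fun j _ => by ring
  apply hfree z
  have hev : ∀ᶠ τ in nhds (0 : ℝ), ∀ j : Fin N, |0.96 * t j + τ * (0.96 * t j - s j)| < 1 := by
    rw [Filter.eventually_all]
    intro j
    have hcont : Continuous fun τ : ℝ => |0.96 * t j + τ * (0.96 * t j - s j)| := by fun_prop
    have := hcont.tendsto 0
    simp only [zero_mul, add_zero] at this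
    refine (tendsto_order.1 this).2 _ ?_
    rw [abs_mul, abs_of_pos (by norm_num : (0 : ℝ) < 0.96)]
    have := ht j
    nlinarith [abs_nonneg (t j)]
  obtain ⟨τ, hτ1, hτ2⟩ := ((hev.filter_mono nhdsWithin_le_nhds).and
    (self_mem_nhdsWithin (a := (0 : ℝ)) (s := Set.Ioi 0))).exists
  refine mem_interior_of_combo K hconv _ z0 hz0 τ hτ2 ?_
  have h9 : (fun i => (z i : ℝ)) + τ • ((fun i => (z i : ℝ)) - z0) =
      x0 + ∑ j, (0.96 * t j + τ * (0.96 * t j - s j)) • v j := by
    rw [hzeq, hs]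
    funext i
    simp only [Pi.add_apply, Pi.sub_apply, Finset.sum_apply, Pi.smul_apply, smul_eq_mul]
    have e1 : ∑ j, (0.96 * t j + τ * (0.96 * t j - s j)) * v j i =
        ∑ j, 0.96 * t j * v j i + τ * (∑ j, 0.96 * t j * v j i - ∑ j, s j * v j i) := by
      rw [← Finset.sum_sub_distrib, Finset.mul_sum, ← Finset.sum_add_distrib]
      refine Finset.sum_congr rfl fun j _ => by ring
    rw [e1]
    ring
  rw [h9]
  exact hin _ fun j => (hτ1 j).le

end Pool.Agent.Lib.MP_d2370c_gt
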