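import Mathlib
import Pool.Agent.Lib.MP_d2370c_gt.UniP

/-!
Unconditional bodies which are `r` convex.
-/

set_option autoImplicit false

open Finset MeasureTheory

namespace Pool.Agent.Lib.MP_d2370c_gt

variable {d N : ℕ}

/-- A compact solid set which is closed under means of order `r`, and which contains a point all
of whose coordinates are nonzero. -/
structure SolidConvex (r : ℝ) (T : Set (Fin N → ℝ)) : Prop where
  isCompact : IsCompact T
  solid : ∀ t ∈ T, ∀ s : Fin N → ℝ, (∀ j, |s j| ≤ |t j|) → s ∈ T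
  mean : ∀ s ∈ T, ∀ t ∈ T, ∀ a b : ℝ, 0 ≤ a → 0 ≤ b → a + b = 1 →
    (fun j => (a * |s j| ^ r + b * |t j| ^ r) ^ (1 / r)) ∈ T
  full : ∃ t ∈ T, ∀ j, t j ≠ 0

theorem SolidConvex.convex {r : ℝ} (hr : 1 ≤ r) {T : Set (Fin N → ℝ)} (hT : SolidConvex r T) :
    Convex ℝ T := by
  intro s hs t ht a b ha hb hab
  refine hT.solid _ (hT.mean s hs t ht a b ha hb hab) _ fun j => ?_
  have h0 : 0 ≤ a * |s j| ^ r + b * |t j| ^ r := by positivity
  rw [abs_of_nonneg (Real.rpow_nonneg h0 _)]
  simp only [Pi.add_apply, Pi.smul_apply, smul_eq_mul]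
  have h1 : |a * s j + b * t j| ≤ a * |s j| + b * |t j| := by
    calc |a * s j + b * t j| ≤ |a * s j| + |b * t j| := abs_add_le _ _
      _ = a * |s j| + b * |t j| := by rw [abs_mul, abs_mul, abs_of_nonneg ha, abs_of_nonneg hb]
  have h2 : |a * s j + b * t j| ^ r ≤ a * |s j| ^ r + b * |t j| ^ r := by
    calc |a * s j + b * t j| ^ r ≤ (a * |s j| + b * |t j|) ^ r :=
          Real.rpow_le_rpow (abs_nonneg _) h1 (by linarith)
      _ ≤ a * |s j| ^ r + b * |t j| ^ r := by
          have := (convexOn_rpow hr).2 (x := |s j|) (y := |t j|)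
            (Set.mem_Ici.mpr (abs_nonneg _)) (Set.mem_Ici.mpr (abs_nonneg _)) ha hb hab
          simpa using this
  calc |a * s j + b * t j| = (|a * s j + b * t j| ^ r) ^ (1 / r) := by
        rw [← Real.rpow_mul (abs_nonneg _), mul_one_div_cancel (by linarith : r ≠ 0), Real.rpow_one]
    _ ≤ (a * |s j| ^ r + b * |t j| ^ r) ^ (1 / r) :=
        Real.rpow_le_rpow (by positivity) h2 (by positivity)

/-- The factorization: a box inside and a proportional ball of the `r` norm outside. -/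
theorem SolidConvex.exists_box {r : ℝ} (hr : 1 ≤ r) {T : Set (Fin N → ℝ)} (hT : SolidConvex r T) :
    ∃ D : Fin N → ℝ, (∀ j, 0 < D j) ∧ D ∈ T ∧ ∀ t ∈ T, ∑ j, (|t j| / D j) ^ r ≤ N := by
  classical
  have hr0 : r ≠ 0 := by linarith
  obtain ⟨t1, ht1, ht1'⟩ := hT.full
  have hcont : Continuous fun t : Fin N → ℝ => ∏ j, |t j| ^ r := by
    apply continuous_finsetProd
    intro j _
    apply Continuous.rpow_const
    · fun_prop
    · intro x; right; linarith
  obtain ⟨D, hD, hmax⟩ := hT.isCompact.exists_isMaxOn ⟨t1, ht1⟩ hcont.continuousOn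
  have hpos1 : 0 < ∏ j, |t1 j| ^ r := Finset.prod_pos fun j _ => by
    have := abs_pos.mpr (ht1' j)
    positivity
  have hDpos : 0 < ∏ j, |D j| ^ r := lt_of_lt_of_le hpos1 (hmax ht1)
  have hD0 : ∀ j, D j ≠ 0 := by
    intro j h0
    have : ∏ j, |D j| ^ r = 0 := Finset.prod_eq_zero (Finset.mem_univ j) (by
      rw [h0, abs_zero, Real.zero_rpow hr0])
    linarith
  refine ⟨fun j => |D j|, fun j => abs_pos.mpr (hD0 j), ?_, ?_⟩
  · exact hT.solid D hD _ fun j => by rw [abs_abs]
  · intro t ht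
    have hDp : ∀ j, 0 < |D j| ^ r := fun j => Real.rpow_pos_of_pos (abs_pos.mpr (hD0 j)) _
    have hrr : ∀ j, (|t j| / |D j|) ^ r = |t j| ^ r / |D j| ^ r := by
      intro j
      rw [Real.div_rpow (abs_nonneg _) (abs_nonneg _)]
    simp_rw [hrr]
    -- the one parameter family
    set a : Fin N → ℝ := fun j => |t j| ^ r / |D j| ^ r - 1 with ha
    have hle : ∀ s : ℝ, 0 ≤ s → s ≤ 1 → ∏ j, (1 + s * a j) ≤ 1 := by
      intro s hs0 hs1
      have hm := hT.mean D hD t ht (1 - s) s (by linarith) hs0 (by ring)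
      have h2 := hmax hm
      simp only at h2
      have h3 : ∏ j, |((1 - s) * |D j| ^ r + s * |t j| ^ r) ^ (1 / r)| ^ r =
          (∏ j, (1 + s * a j)) * ∏ j, |D j| ^ r := by
        rw [← Finset.prod_mul_distrib]
        refine Finset.prod_congr rfl fun j _ => ?_
        have h4 : 0 ≤ (1 - s) * |D j| ^ r + s * |t j| ^ r := by
          have : 0 ≤ 1 - s := by linarith
          positivity
        rw [abs_of_nonneg (Real.rpow_nonneg h4 _), ← Real.rpow_mul h4, one_div_mul_cancel hr0,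
          Real.rpow_one, ha]
        have := (hDp j).ne'
        field_simp
        ring
      have h5 : ∏ j, |((1 - s) * |D j| ^ r + s * |t j| ^ r) ^ (1 / r)| ^ r ≤ ∏ j, |D j| ^ r := h2
      rw [h3] at h5
      nlinarith
    have hder : HasDerivAt (fun s : ℝ => ∏ j, (1 + s * a j)) (∑ j, a j) 0 := by
      have h1 : ∀ j ∈ (Finset.univ : Finset (Fin N)), HasDerivAt (fun s : ℝ => 1 + s * a j) (a j) 0 := by
        intro j _
        have := ((hasDerivAt_id (0 : ℝ)).mul_const (a j)).const_add 1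
        simpa using this
      have h2 := HasDerivAt.fun_finsetProd h1
      simpa using h2
    by_contra hcon
    push Not at hcon
    have hsum : 0 < ∑ j, a j := by
      rw [ha, Finset.sum_sub_distrib]
      simp only [Finset.sum_const, Finset.card_univ, Fintype.card_fin, nsmul_eq_mul, mul_one]
      linarith
    have h3 := (hasDerivAt_iff_tendsto_slope.mp hder)
    have h4 : ∀ᶠ s in nhdsWithin (0 : ℝ) {0}ᶜ, 0 < slope (fun s : ℝ => ∏ j, (1 + s * a j)) 0 s :=
      (tendsto_order.1 h3).1 _ hsum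
    have h5 : ∀ᶠ s in nhdsWithin (0 : ℝ) (Set.Ioi 0), 0 < slope (fun s : ℝ => ∏ j, (1 + s * a j)) 0 s := by
      apply h4.filter_mono
      apply nhdsWithin_mono
      intro x hx
      exact ne_of_gt hx
    have h6 : ∀ᶠ s in nhdsWithin (0 : ℝ) (Set.Ioi 0), s ∈ Set.Ioo (0 : ℝ) 1 :=
      Ioo_mem_nhdsGT one_pos
    obtain ⟨s, hs1, hs2⟩ := (h5.and h6).exists
    have h7 := hle s hs2.1.le hs2.2.le
    rw [slope_def_field] at hs1
    simp only [zero_mul, add_zero, Finset.prod_const_one, sub_zero] at hs1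
    have h8 : (∏ j, (1 + s * a j) - 1) / s ≤ 0 := div_nonpos_of_nonpos_of_nonneg (by linarith) hs2.1.le
    linarith

theorem width_le_imgR (r p : ℝ) (hrp : r.HolderConjugate p) (T : Set (Fin N → ℝ))
    (hT : SolidConvex r T) (x0 : Fin d → ℝ)
    (w : Fin N → Fin d → ℝ) (hint : (interior (img x0 w T)).Nonempty)
    (hfree : ∀ z : Fin d → ℤ, (fun i => (z i : ℝ)) ∉ interior (img x0 w T)) :
    ∃ y : Fin d → ℤ, y ≠ 0 ∧ ∀ x ∈ img x0 w T, ∀ x' ∈ img x0 w T,
      ∑ i, (x i - x' i) * (y i : ℝ) ≤ 5 * (p + 4) * N := by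
  obtain ⟨D, hD0, hD, hDle⟩ := hT.exists_box hrp.lt.le
  have h := width_le_P r p hrp (img x0 w T) (convex_img x0 w T (hT.convex hrp.lt.le)) hint hfree
    (fun j => D j • w j) x0 1 zero_le_one ?_ ?_
  · simpa using h
  · intro t ht
    refine ⟨fun j => t j * D j, hT.solid D hD _ fun j => ?_, ?_⟩
    · rw [abs_mul]
      have := ht j
      have := abs_nonneg (D j)
      nlinarith
    · congr 1
      refine Finset.sum_congr rfl fun j _ => ?_
      rw [smul_smul]
  · rintro x ⟨t, ht, rfl⟩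
    refine ⟨fun j => t j / D j, ?_, ?_⟩
    · have := hDle t ht
      simp only [abs_div, abs_of_pos (hD0 _), Real.one_rpow, one_mul]
      exact this
    · congr 1
      refine Finset.sum_congr rfl fun j _ => ?_
      rw [smul_smul, div_mul_cancel₀ _ (hD0 j).ne']

end Pool.Agent.Lib.MP_d2370c_gt
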