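import Mathlib
import Pool.Agent.Lib.MP_d2370c_gt.FinalA

/-!
Symmetric polytopes with few vertices, images of unit balls of p norms, and the sharp example.
-/

set_option autoImplicit false

open Finset MeasureTheory

namespace Pool.Agent.Lib.MP_d2370c_gt

variable {d N : ℕ}

/-- The quadratic mean bounds the arithmetic mean. -/
theorem sum_abs_le_of_sq (t : Fin N → ℝ) (h : ∑ j, t j ^ 2 ≤ N) : ∑ j, |t j| ≤ N := by
  have h1 : (∑ j, |t j|) ^ 2 ≤ (N : ℝ) * ∑ j, |t j| ^ 2 := by
    have := sq_sum_le_card_mul_sum_sq (s := (Finset.univ : Finset (Fin N))) (f := fun j => |t j|)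
    simpa using this
  simp only [sq_abs] at h1
  have hN : (0 : ℝ) ≤ N := Nat.cast_nonneg N
  have h2 : (∑ j, |t j|) ^ 2 ≤ (N : ℝ) ^ 2 := by
    calc (∑ j, |t j|) ^ 2 ≤ (N : ℝ) * ∑ j, t j ^ 2 := h1
      _ ≤ N * N := mul_le_mul_of_nonneg_left h hN
      _ = (N : ℝ) ^ 2 := by ring
  exact abs_le_of_sq_le_sq' h2 hN |>.2

/-- The symmetric polytope with vertices `x0 + w j` and `x0 - w j`. -/
def symPoly (x0 : Fin d → ℝ) (w : Fin N → Fin d → ℝ) : Set (Fin d → ℝ) :=
  convexHull ℝ (Set.range (fun j => x0 + w j) ∪ Set.range (fun j => x0 - w j))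

theorem symPoly_eq (hN : 1 ≤ N) (x0 : Fin d → ℝ) (w : Fin N → Fin d → ℝ) :
    symPoly x0 w = {x | ∃ s : Fin N → ℝ, ∑ j, |s j| ≤ 1 ∧ x = x0 + ∑ j, s j • w j} := by
  classical
  apply Set.Subset.antisymm
  · apply convexHull_min
    · rintro x (⟨j, rfl⟩ | ⟨j, rfl⟩)
      · refine ⟨Pi.single j 1, ?_, ?_⟩
        · rw [Finset.sum_eq_single j (fun b _ hb => by simp [Pi.single_eq_of_ne hb]) (by simp)]
          simp
        · rw [Finset.sum_eq_single j (fun b _ hb => by simp [Pi.single_eq_of_ne hb]) (by simp)]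
          simp
      · refine ⟨Pi.single j (-1), ?_, ?_⟩
        · rw [Finset.sum_eq_single j (fun b _ hb => by simp [Pi.single_eq_of_ne hb]) (by simp)]
          simp
        · rw [Finset.sum_eq_single j (fun b _ hb => by simp [Pi.single_eq_of_ne hb]) (by simp)]
          simp [sub_eq_add_neg]
    · rintro x ⟨s, hs, rfl⟩ y ⟨r, hr, rfl⟩ a b ha hb hab
      refine ⟨fun j => a * s j + b * r j, ?_, ?_⟩
      · calc ∑ j, |a * s j + b * r j| ≤ ∑ j, (a * |s j| + b * |r j|) := by
              refine Finset.sum_le_sum fun j _ => ?_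
              calc |a * s j + b * r j| ≤ |a * s j| + |b * r j| := abs_add_le _ _
                _ = a * |s j| + b * |r j| := by rw [abs_mul, abs_mul, abs_of_nonneg ha, abs_of_nonneg hb]
          _ = a * ∑ j, |s j| + b * ∑ j, |r j| := by
              rw [Finset.sum_add_distrib, Finset.mul_sum, Finset.mul_sum]
          _ ≤ a * 1 + b * 1 := by gcongr
          _ = 1 := by linarith
      · have hb' : b = 1 - a := by linarith
        subst hb'
        simp only [add_smul, Finset.sum_add_distrib, mul_smul, ← Finset.smul_sum]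
        module
  · rintro x ⟨s, hs, rfl⟩
    have hconv : Convex ℝ (symPoly x0 w) := convex_convexHull _ _
    have hp : ∀ j, x0 + w j ∈ symPoly x0 w := fun j => subset_convexHull _ _ (Or.inl ⟨j, rfl⟩)
    have hm : ∀ j, x0 - w j ∈ symPoly x0 w := fun j => subset_convexHull _ _ (Or.inr ⟨j, rfl⟩)
    have hc : x0 ∈ symPoly x0 w := by
      have := hconv (hp ⟨0, hN⟩) (hm ⟨0, hN⟩) (a := 1 / 2) (b := 1 / 2) (by norm_num) (by norm_num) (by norm_num)
      have e : (1 / 2 : ℝ) • (x0 + w ⟨0, hN⟩) + (1 / 2 : ℝ) • (x0 - w ⟨0, hN⟩) = x0 := by module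
      rwa [e] at this
    have key := hconv.sum_mem (t := (Finset.univ : Finset (Option (Fin N))))
      (w := fun o => o.elim (1 - ∑ j, |s j|) fun j => |s j|)
      (z := fun o => o.elim x0 fun j => if 0 ≤ s j then x0 + w j else x0 - w j)
      (by
        rintro (_ | j) _
        · simpa using hs
        · exact abs_nonneg _)
      (by rw [Fintype.sum_option]; simp)
      (by
        rintro (_ | j) _
        · exact hc
        · simp only [Option.elim]
          split_ifs
          · exact hp j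
          · exact hm j)
    rw [Fintype.sum_option] at key
    simp only [Option.elim] at key
    have e2 : ∀ j, |s j| • (if 0 ≤ s j then x0 + w j else x0 - w j) = |s j| • x0 + s j • w j := by
      intro j
      split_ifs with h
      · rw [abs_of_nonneg h]; module
      · rw [abs_of_neg (not_le.mp h)]; module
    simp only [e2] at key
    rw [Finset.sum_add_distrib, ← Finset.sum_smul] at key
    have e3 : (1 - ∑ j, |s j|) • x0 + ((∑ j, |s j|) • x0 + ∑ j, s j • w j) = x0 + ∑ j, s j • w j := by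
      module
    rwa [e3] at key

theorem width_le_symPoly (x0 : Fin d → ℝ) (w : Fin N → Fin d → ℝ)
    (hint : (interior (symPoly x0 w)).Nonempty)
    (hfree : ∀ z : Fin d → ℤ, (fun i => (z i : ℝ)) ∉ interior (symPoly x0 w)) :
    ∃ y : Fin d → ℤ, y ≠ 0 ∧ ∀ x ∈ symPoly x0 w, ∀ x' ∈ symPoly x0 w,
      ∑ i, (x i - x' i) * (y i : ℝ) ≤ N := by
  have hN : 1 ≤ N := by
    rcases Nat.eq_zero_or_pos N with h | h
    · subst h
      obtain ⟨x, hx⟩ := hint
      have := interior_subset hx
      unfold symPoly at this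
      simp at this
    · exact h
  have hN' : (0 : ℝ) < N := by exact_mod_cast hN
  have h := width_le_A (symPoly x0 w) (convex_convexHull _ _) hint hfree
    (fun j => (N : ℝ)⁻¹ • w j) x0 1 ?_ ?_
  · simpa using h
  · intro t ht
    rw [symPoly_eq hN]
    refine ⟨fun j => t j / N, ?_, ?_⟩
    · simp only [abs_div, abs_of_pos hN']
      rw [← Finset.sum_div, div_le_one hN']
      exact sum_abs_le_of_sq t ht
    · congr 1
      refine Finset.sum_congr rfl fun j _ => ?_
      simp only [smul_smul, div_eq_mul_inv]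
  · intro x hx
    rw [symPoly_eq hN] at hx
    obtain ⟨s, hs, rfl⟩ := hx
    refine ⟨fun j => N * s j, ?_, ?_⟩
    · simp only [abs_mul, abs_of_pos hN']
      rw [← Finset.mul_sum]
      nlinarith
    · congr 1
      refine Finset.sum_congr rfl fun j _ => ?_
      rw [smul_smul]
      congr 1
      field_simp

/-- The image of the unit ball of the p norm. -/
def pBall (p : ℝ) (x0 : Fin d → ℝ) (w : Fin d → Fin d → ℝ) : Set (Fin d → ℝ) :=
  {x | ∃ t : Fin d → ℝ, ∑ j, |t j| ^ p ≤ 1 ∧ x = x0 + ∑ j, t j • w j}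

theorem convex_pBall (p : ℝ) (hp : 1 ≤ p) (x0 : Fin d → ℝ) (w : Fin d → Fin d → ℝ) :
    Convex ℝ (pBall p x0 w) := by
  rintro x ⟨s, hs, rfl⟩ y ⟨r, hr, rfl⟩ a b ha hb hab
  refine ⟨fun j => a * s j + b * r j, ?_, ?_⟩
  · calc ∑ j, |a * s j + b * r j| ^ p ≤ ∑ j, (a * |s j| ^ p + b * |r j| ^ p) := by
          refine Finset.sum_le_sum fun j _ => ?_
          have h1 : |a * s j + b * r j| ≤ a * |s j| + b * |r j| := by
            calc |a * s j + b * r j| ≤ |a * s j| + |b * r j| := abs_add_le _ _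
              _ = a * |s j| + b * |r j| := by rw [abs_mul, abs_mul, abs_of_nonneg ha, abs_of_nonneg hb]
          calc |a * s j + b * r j| ^ p ≤ (a * |s j| + b * |r j|) ^ p :=
                Real.rpow_le_rpow (abs_nonneg _) h1 (by linarith)
            _ ≤ a * |s j| ^ p + b * |r j| ^ p := by
                have := (convexOn_rpow hp).2 (x := |s j|) (y := |r j|)
                  (Set.mem_Ici.mpr (abs_nonneg _)) (Set.mem_Ici.mpr (abs_nonneg _)) ha hb hab
                simpa using this
      _ = a * ∑ j, |s j| ^ p + b * ∑ j, |r j| ^ p := by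
          rw [Finset.sum_add_distrib, Finset.mul_sum, Finset.mul_sum]
      _ ≤ a * 1 + b * 1 := by gcongr
      _ = 1 := by linarith
  · have hb' : b = 1 - a := by linarith
    subst hb'
    simp only [add_smul, Finset.sum_add_distrib, mul_smul, ← Finset.smul_sum]
    module

theorem width_le_pBall (p : ℝ) (hp : 1 ≤ p) (hp2 : p ≤ 2) (x0 : Fin d → ℝ) (w : Fin d → Fin d → ℝ)
    (hint : (interior (pBall p x0 w)).Nonempty)
    (hfree : ∀ z : Fin d → ℤ, (fun i => (z i : ℝ)) ∉ interior (pBall p x0 w)) :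
    ∃ y : Fin d → ℤ, y ≠ 0 ∧ ∀ x ∈ pBall p x0 w, ∀ x' ∈ pBall p x0 w,
      ∑ i, (x i - x' i) * (y i : ℝ) ≤ d := by
  have hd : 1 ≤ d := by
    rcases Nat.eq_zero_or_pos d with h | h
    · subst h
      obtain ⟨x, hx⟩ := hint
      exfalso
      apply hfree 0
      have : (fun i => ((0 : Fin 0 → ℤ) i : ℝ)) = x := Subsingleton.elim _ _
      rw [this]; exact hx
    · exact h
  have hd' : (0 : ℝ) < d := by exact_mod_cast hd
  have hp0 : 0 < p := by linarith
  set c : ℝ := (d : ℝ) ^ (1 / p) with hc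
  have hcpos : 0 < c := Real.rpow_pos_of_pos hd' _
  have hcp : c ^ p = d := by
    rw [hc, ← Real.rpow_mul hd'.le]
    simp [hp0.ne']
  have h := width_le_A (pBall p x0 w) (convex_pBall p hp x0 w) hint hfree
    (fun j => c⁻¹ • w j) x0 1 ?_ ?_
  · simpa using h
  · intro t ht
    refine ⟨fun j => t j / c, ?_, ?_⟩
    · simp only [abs_div, abs_of_pos hcpos, Real.div_rpow (abs_nonneg _) hcpos.le, hcp]
      rw [← Finset.sum_div, div_le_one hd']
      -- power mean
      have h1 := Real.rpow_sum_le_const_mul_sum_rpow_of_nonneg (s := (Finset.univ : Finset (Fin d)))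
        (f := fun j => |t j| ^ p) (p := 2 / p) (by rw [le_div_iff₀ hp0]; linarith)
        (fun j _ => Real.rpow_nonneg (abs_nonneg _) _)
      have h2 : ∀ j, (|t j| ^ p) ^ (2 / p) = t j ^ 2 := by
        intro j
        rw [← Real.rpow_mul (abs_nonneg _), mul_div_cancel₀ _ hp0.ne', Real.rpow_two, sq_abs]
      simp only [h2, Finset.card_univ, Fintype.card_fin] at h1
      have h3 : (∑ j, |t j| ^ p) ^ (2 / p) ≤ (d : ℝ) ^ (2 / p) := by
        calc (∑ j, |t j| ^ p) ^ (2 / p) ≤ (d : ℝ) ^ (2 / p - 1) * ∑ j, t j ^ 2 := h1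
          _ ≤ (d : ℝ) ^ (2 / p - 1) * d := by gcongr
          _ = (d : ℝ) ^ (2 / p) := by
              rw [Real.rpow_sub hd', Real.rpow_one]
              field_simp
      exact (Real.rpow_le_rpow_iff (Finset.sum_nonneg fun j _ => Real.rpow_nonneg (abs_nonneg _) _)
        hd'.le (by positivity)).mp h3
    · congr 1
      refine Finset.sum_congr rfl fun j _ => ?_
      simp only [smul_smul, div_eq_mul_inv]
  · rintro x ⟨s, hs, rfl⟩
    refine ⟨fun j => c * s j, ?_, ?_⟩
    · simp only [abs_mul, abs_of_pos hcpos]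
      rw [← Finset.mul_sum, one_mul]
      have h1 := Real.rpow_sum_le_const_mul_sum_rpow_of_nonneg (s := (Finset.univ : Finset (Fin d)))
        (f := fun j => |s j|) (p := p) hp (fun j _ => abs_nonneg _)
      simp only [Finset.card_univ, Fintype.card_fin] at h1
      have hS0 : 0 ≤ ∑ j, |s j| := Finset.sum_nonneg fun j _ => abs_nonneg _
      have h2 : (c * ∑ j, |s j|) ^ p ≤ (d : ℝ) ^ p := by
        rw [Real.mul_rpow hcpos.le hS0, hcp]
        calc (d : ℝ) * (∑ j, |s j|) ^ p ≤ d * ((d : ℝ) ^ (p - 1) * ∑ j, |s j| ^ p) := by gcongr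
          _ ≤ d * ((d : ℝ) ^ (p - 1) * 1) := by gcongr
          _ = (d : ℝ) ^ p := by
              rw [Real.rpow_sub hd', Real.rpow_one]
              field_simp
      exact (Real.rpow_le_rpow_iff (by positivity) hd'.le hp0).mp h2
    · congr 1
      refine Finset.sum_congr rfl fun j _ => ?_
      rw [smul_smul]
      congr 1
      field_simp

end Pool.Agent.Lib.MP_d2370c_gt
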