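import Mathlib
import Pool.Agent.Lib.MP_d2370c_gt.CoreA

/-!
The averaging argument with an even moment of arbitrary order.
-/

set_option autoImplicit false

open Finset MeasureTheory

namespace Pool.Agent.Lib.MP_d2370c_gt

variable {ι : Type*} [Fintype ι] {d : ℕ}

/-- The characteristic function of `x ^ e μ`. -/
noncomputable def phiE (e : ℕ) (μ : Measure ℝ) (u : ℝ) : ℂ := ∫ x, ((x ^ e : ℝ) : ℂ) * ee (x * u) ∂μ

theorem integral_charE [DecidableEq ι] (e : ℕ) (μ : Measure ℝ) [IsProbabilityMeasure μ] (x0 : Fin d → ℝ)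
    (v : ι → Fin d → ℝ) (y : Fin d → ℝ) (k : ι) :
    ∫ t, ((t k ^ e : ℝ) : ℂ) * ee (∑ i, y i * XX x0 v t i) ∂(Measure.pi fun _ : ι => μ) =
      ee (∑ i, y i * x0 i) * ∏ j, (if j = k then phiE e μ (pr v y j) else phi μ (pr v y j)) := by
  have h1 : ∀ t : ι → ℝ, ((t k ^ e : ℝ) : ℂ) * ee (∑ i, y i * XX x0 v t i) =
      ee (∑ i, y i * x0 i) *
        ∏ j, (if j = k then ((t j ^ e : ℝ) : ℂ) * ee (t j * pr v y j) else ee (t j * pr v y j)) := by
    intro t
    rw [ee_XX]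
    have h2 : ∏ j, (if j = k then ((t j ^ e : ℝ) : ℂ) * ee (t j * pr v y j) else ee (t j * pr v y j)) =
        ∏ j, ((if j = k then ((t j ^ e : ℝ) : ℂ) else 1) * ee (t j * pr v y j)) := by
      refine Finset.prod_congr rfl fun j _ => ?_
      split_ifs <;> simp
    rw [h2, Finset.prod_mul_distrib, Finset.prod_ite_eq' Finset.univ k]
    simp only [Finset.mem_univ, if_true]
    ring
  simp_rw [h1]
  rw [integral_const_mul]
  congr 1
  have h3 := integral_fintype_prod_eq_prod (μ := fun _ : ι => μ)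
    (fun (j : ι) (x : ℝ) => (if j = k then ((x ^ e : ℝ) : ℂ) * ee (x * pr v y j) else ee (x * pr v y j)))
  rw [h3]
  refine Finset.prod_congr rfl fun j _ => ?_
  by_cases hj : j = k
  · simp [hj, phiE]
  · simp [hj, phi]

theorem integrable_powE (e : ℕ) (μ : Measure ℝ) [IsProbabilityMeasure μ]
    (h2 : Integrable (fun x : ℝ => x ^ e) μ) (k : ι) :
    Integrable (fun t : ι → ℝ => t k ^ e) (Measure.pi fun _ : ι => μ) := by
  have h := (measurePreserving_eval (fun _ : ι => μ) k)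
  exact h.integrable_comp_of_integrable h2

theorem phiE_zero (e : ℕ) (μ : Measure ℝ) : phiE e μ 0 = ((∫ x, x ^ e ∂μ : ℝ) : ℂ) := by
  unfold phiE
  simp only [mul_zero, ee_zero, mul_one]
  exact integral_ofReal

theorem isCompact_ballE (e : ℕ) (he : Even e) (he0 : e ≠ 0) (A : ℝ) (hA : 0 ≤ A) :
    IsCompact {t : ι → ℝ | ∑ j, t j ^ e ≤ A} := by
  apply Metric.isCompact_of_isClosed_isBounded
  · apply isClosed_le
    · fun_prop
    · fun_prop
  · rw [Metric.isBounded_iff_subset_closedBall 0]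
    refine ⟨A + 1, fun t ht => ?_⟩
    rw [mem_closedBall_zero_iff, pi_norm_le_iff_of_nonneg (by linarith)]
    intro j
    have h1 : t j ^ e ≤ A := (Finset.single_le_sum (f := fun j => t j ^ e) (fun _ _ => he.pow_nonneg _)
      (Finset.mem_univ j)).trans ht
    rw [Real.norm_eq_abs]
    by_contra hcon
    push Not at hcon
    have h2 : |t j| ≤ |t j| ^ e := le_self_pow₀ (by linarith) he0
    rw [he.pow_abs] at h2
    linarith

/-- The averaging theorem with an even moment. -/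
theorem exists_point_E [DecidableEq ι] (e : ℕ) (he : Even e) (he0 : e ≠ 0) (μ : Measure ℝ)
    [IsProbabilityMeasure μ] (h2 : Integrable (fun x : ℝ => x ^ e) μ)
    (b : ℝ) (hphi : ∀ u : ℝ, b ≤ |u| → phi μ u = 0) (hphi2 : ∀ u : ℝ, b ≤ |u| → phiE e μ u = 0)
    (x0 : Fin d → ℝ) (v : ι → Fin d → ℝ)
    (hy : ∀ y : Fin d → ℤ, y ≠ 0 → ∃ j, b ≤ |pr v (fun i => (y i : ℝ)) j|)
    (A : ℝ) (hA0 : 0 < A) (hA : (Fintype.card ι : ℝ) * ∫ x, x ^ e ∂μ < A) :
    ∃ z : Fin d → ℤ, ∃ t : ι → ℝ, ∑ j, t j ^ e ≤ A ∧ XX x0 v t = fun i => (z i : ℝ) := by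
  classical
  by_contra hcon
  push Not at hcon
  set σ2 : ℝ := ∫ x, x ^ e ∂μ with hσ2
  set ν : Measure (ι → ℝ) := Measure.pi fun _ : ι => μ with hν
  have hKc : IsCompact (XX x0 v '' {t : ι → ℝ | ∑ j, t j ^ e ≤ A}) :=
    (isCompact_ballE e he he0 A hA0.le).image (continuous_XX x0 v)
  obtain ⟨q, hq0, hq1, hq⟩ := exists_q _ hKc (by
    rintro z ⟨t, ht, hz⟩
    exact hcon z t ht hz)
  set γ : ℝ := 1 - (Fintype.card ι : ℝ) * σ2 / A with hγ
  have hγ0 : 0 < γ := by
    rw [hγ, sub_pos, div_lt_one hA0]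
    exact hA
  refine no_bound d γ q hγ0 hq0 hq1 fun n hn => ?_
  have hpn : ∀ x : ℝ, 0 ≤ x ^ e := fun x => he.pow_nonneg x
  -- the weighted average of the character
  have hJ : ∀ y : Fin d → ℝ, ∫ t, (((1 - ∑ k, t k ^ e / A : ℝ) : ℂ) * ee (∑ i, y i * XX x0 v t i)) ∂ν =
      ee (∑ i, y i * x0 i) * (∏ j, phi μ (pr v y j) -
        ∑ k, (1 / A : ℂ) * ∏ j, (if j = k then phiE e μ (pr v y j) else phi μ (pr v y j))) := by
    intro y
    have e1 : ∀ t : ι → ℝ, (((1 - ∑ k, t k ^ e / A : ℝ) : ℂ) * ee (∑ i, y i * XX x0 v t i)) =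
        ee (∑ i, y i * XX x0 v t i) -
          ∑ k, (1 / A : ℂ) * (((t k ^ e : ℝ) : ℂ) * ee (∑ i, y i * XX x0 v t i)) := by
      intro t
      push_cast
      rw [sub_mul, one_mul, Finset.sum_mul]
      congr 1
      refine Finset.sum_congr rfl fun k _ => by ring
    simp_rw [e1]
    have hint : ∀ k : ι, Integrable (fun t : ι → ℝ =>
        ((t k ^ e : ℝ) : ℂ) * ee (∑ i, y i * XX x0 v t i)) ν := by
      intro k
      have h3 := integrable_powE (ι := ι) e μ h2 k
      have hc : Continuous fun t : ι → ℝ => ((t k ^ e : ℝ) : ℂ) * ee (∑ i, y i * XX x0 v t i) := by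
        have := continuous_XX x0 v
        have h4 := continuous_ee
        have h5 : Continuous fun t : ι → ℝ => ee (∑ i, y i * XX x0 v t i) := h4.comp (by fun_prop)
        have h6 : Continuous fun t : ι → ℝ => ((t k ^ e : ℝ) : ℂ) := by fun_prop
        exact h6.mul h5
      refine h3.mono' hc.aestronglyMeasurable ?_
      filter_upwards with t
      rw [norm_mul, norm_ee, mul_one, Complex.norm_real, Real.norm_eq_abs, abs_of_nonneg (hpn _)]
    rw [integral_sub (integrable_ee μ x0 v y) (integrable_finsetSum _ fun k _ => (hint k).const_mul _),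
      integral_finsetSum _ (fun k _ => (hint k).const_mul _), integral_char]
    simp_rw [integral_const_mul]
    have e2 : ∀ k : ι, ∫ t, ((t k ^ e : ℝ) : ℂ) * ee (∑ i, y i * XX x0 v t i) ∂ν =
      ee (∑ i, y i * x0 i) * ∏ j, (if j = k then phiE e μ (pr v y j) else phi μ (pr v y j)) :=
      fun k => integral_charE e μ x0 v y k
    simp_rw [e2]
    rw [mul_sub, Finset.mul_sum]
    congr 1
    refine Finset.sum_congr rfl fun k _ => by ring
  have hJint : ∀ y : Fin d → ℝ, Integrable (fun t : ι → ℝ =>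
      (((1 - ∑ k, t k ^ e / A : ℝ) : ℂ) * ee (∑ i, y i * XX x0 v t i))) ν := by
    intro y
    have h3 : Integrable (fun t : ι → ℝ => 1 + ∑ k, t k ^ e / A) ν :=
      (integrable_const 1).add (integrable_finsetSum _ fun k _ => (integrable_powE (ι := ι) e μ h2 k).div_const _)
    have hc : Continuous fun t : ι → ℝ => ((1 - ∑ k, t k ^ e / A : ℝ) : ℂ) * ee (∑ i, y i * XX x0 v t i) := by
      have := continuous_XX x0 v
      have h5 : Continuous fun t : ι → ℝ => ee (∑ i, y i * XX x0 v t i) := continuous_ee.comp (by fun_prop)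
      have h6 : Continuous fun t : ι → ℝ => ((1 - ∑ k, t k ^ e / A : ℝ) : ℂ) := by fun_prop
      exact h6.mul h5
    refine h3.mono' hc.aestronglyMeasurable ?_
    filter_upwards with t
    rw [norm_mul, norm_ee, mul_one, Complex.norm_real, Real.norm_eq_abs]
    have h7 : 0 ≤ ∑ k, t k ^ e / A := Finset.sum_nonneg fun k _ => div_nonneg (hpn _) hA0.le
    rw [abs_le]
    constructor <;> linarith
  -- exact value of the average of the kernel
  have hval : ((∫ t, (1 - ∑ k, t k ^ e / A) * PP (XX x0 v t) ^ n ∂ν : ℝ) : ℂ) =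
      ((cf n (fun _ : Fin d => n) * γ : ℝ) : ℂ) := by
    have e1 : ((∫ t, (1 - ∑ k, t k ^ e / A) * PP (XX x0 v t) ^ n ∂ν : ℝ) : ℂ) =
        ∫ t, (((1 - ∑ k, t k ^ e / A) * PP (XX x0 v t) ^ n : ℝ) : ℂ) ∂ν := integral_ofReal.symm
    have e2 : ∀ t : ι → ℝ, (((1 - ∑ k, t k ^ e / A) * PP (XX x0 v t) ^ n : ℝ) : ℂ) =
        ∑ κ ∈ ix d n, ((cf n κ : ℝ) : ℂ) * (((1 - ∑ k, t k ^ e / A : ℝ) : ℂ) *
          ee (∑ i, ((yy n κ i : ℤ) : ℝ) * XX x0 v t i)) := by
      intro t
      rw [Complex.ofReal_mul, PP_pow_expand', Finset.mul_sum]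
      refine Finset.sum_congr rfl fun κ _ => by ring
    rw [e1]
    simp_rw [e2]
    rw [integral_finsetSum _ fun κ _ => (hJint _).const_mul _]
    simp_rw [integral_const_mul]
    have e3 : ∀ κ ∈ ix d n, κ ≠ (fun _ : Fin d => n) → ((cf n κ : ℝ) : ℂ) *
        ∫ t, (((1 - ∑ k, t k ^ e / A : ℝ) : ℂ) * ee (∑ i, ((yy n κ i : ℤ) : ℝ) * XX x0 v t i)) ∂ν = 0 := by
      intro κ _ hκ
      have hne : yy n κ ≠ 0 := fun h => hκ (yy_eq_zero h)
      obtain ⟨j0, hj0⟩ := hy (yy n κ) hne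
      have h8 := hJ (fun i => ((yy n κ i : ℤ) : ℝ))
      rw [h8]
      have h9 : ∏ j, phi μ (pr v (fun i => ((yy n κ i : ℤ) : ℝ)) j) = 0 :=
        Finset.prod_eq_zero (Finset.mem_univ j0) (hphi _ hj0)
      have h10 : ∀ k : ι, ∏ j, (if j = k then phiE e μ (pr v (fun i => ((yy n κ i : ℤ) : ℝ)) j)
          else phi μ (pr v (fun i => ((yy n κ i : ℤ) : ℝ)) j)) = 0 := by
        intro k
        refine Finset.prod_eq_zero (Finset.mem_univ j0) ?_
        split_ifs
        · exact hphi2 _ hj0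
        · exact hphi _ hj0
      rw [h9]
      simp_rw [h10]
      simp
    rw [Finset.sum_eq_single_of_mem _ (mem_ix n) e3]
    have hyy : ∀ i : Fin d, ((yy n (fun _ : Fin d => n) i : ℤ) : ℝ) = 0 := by
      intro i; simp [yy]
    rw [hJ]
    simp_rw [hyy]
    have hpr : ∀ j, pr v (fun _ : Fin d => (0 : ℝ)) j = 0 := by intro j; simp [pr]
    simp_rw [hpr, phi_zero, phiE_zero]
    have h11 : ∀ k : ι, ∏ j, (if j = k then ((σ2 : ℝ) : ℂ) else 1) = ((σ2 : ℝ) : ℂ) := by
      intro k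
      rw [Finset.prod_ite_eq' Finset.univ k]
      simp
    have h12 : ∑ k : ι, (1 / A : ℂ) * ∏ j, (if j = k then ((∫ x, x ^ e ∂μ : ℝ) : ℂ) else 1) =
        (Fintype.card ι : ℂ) * ((1 / A : ℂ) * ((σ2 : ℝ) : ℂ)) := by
      simp_rw [← hσ2]
      simp_rw [h11]
      rw [Finset.sum_const, Finset.card_univ, nsmul_eq_mul]
    rw [h12]
    simp only [Finset.prod_const_one, zero_mul, Finset.sum_const_zero, ee_zero, one_mul]
    rw [hγ]
    push_cast
    ring
  have hval' : ∫ t, (1 - ∑ k, t k ^ e / A) * PP (XX x0 v t) ^ n ∂ν = cf n (fun _ : Fin d => n) * γ := by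
    exact_mod_cast hval
  have hle : ∫ t, (1 - ∑ k, t k ^ e / A) * PP (XX x0 v t) ^ n ∂ν ≤ q ^ n := by
    have h3 : ∫ _t : ι → ℝ, q ^ n ∂ν = q ^ n := by simp
    rw [← h3]
    refine integral_mono ?_ (integrable_const _) fun t => ?_
    · have h4 : Integrable (fun t : ι → ℝ => 1 + ∑ k, t k ^ e / A) ν :=
        (integrable_const 1).add (integrable_finsetSum _ fun k _ => (integrable_powE (ι := ι) e μ h2 k).div_const _)
      have hc : Continuous fun t : ι → ℝ => (1 - ∑ k, t k ^ e / A) * PP (XX x0 v t) ^ n := by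
        have h5 := continuous_XX x0 v
        have h6 := continuous_PP (d := d)
        have h7 : Continuous fun t : ι → ℝ => PP (XX x0 v t) := h6.comp h5
        fun_prop
      refine h4.mono' hc.aestronglyMeasurable ?_
      filter_upwards with t
      rw [norm_mul, Real.norm_eq_abs, Real.norm_eq_abs, abs_of_nonneg (pow_nonneg (PP_nonneg _) n)]
      have h7 : 0 ≤ ∑ k, t k ^ e / A := Finset.sum_nonneg fun k _ => div_nonneg (hpn _) hA0.le
      have h8 : |1 - ∑ k, t k ^ e / A| ≤ 1 + ∑ k, t k ^ e / A := by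
        rw [abs_le]; constructor <;> linarith
      have h9 : PP (XX x0 v t) ^ n ≤ 1 := pow_le_one₀ (PP_nonneg _) (PP_le_one _)
      calc |1 - ∑ k, t k ^ e / A| * PP (XX x0 v t) ^ n ≤ (1 + ∑ k, t k ^ e / A) * 1 :=
            mul_le_mul h8 h9 (pow_nonneg (PP_nonneg _) n) (by linarith)
        _ = _ := mul_one _
    · have hP0 : 0 ≤ PP (XX x0 v t) ^ n := pow_nonneg (PP_nonneg _) n
      have h7 : 0 ≤ ∑ k, t k ^ e / A := Finset.sum_nonneg fun k _ => div_nonneg (hpn _) hA0.le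
      by_cases ht : ∑ j, t j ^ e ≤ A
      · have h8 : PP (XX x0 v t) ≤ q := hq _ ⟨t, ht, rfl⟩
        have h9 : PP (XX x0 v t) ^ n ≤ q ^ n := pow_le_pow_left₀ (PP_nonneg _) h8 n
        calc (1 - ∑ k, t k ^ e / A) * PP (XX x0 v t) ^ n ≤ 1 * PP (XX x0 v t) ^ n :=
              mul_le_mul_of_nonneg_right (by linarith) hP0
          _ ≤ q ^ n := by rw [one_mul]; exact h9
      · push Not at ht
        have h8 : 1 ≤ ∑ k, t k ^ e / A := by
          rw [← Finset.sum_div, le_div_iff₀ hA0, one_mul]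
          exact ht.le
        have h9 : (1 - ∑ k, t k ^ e / A) * PP (XX x0 v t) ^ n ≤ 0 :=
          mul_nonpos_of_nonpos_of_nonneg (by linarith) hP0
        exact h9.trans (pow_nonneg hq0 n)
  calc (1 / (2 * (n : ℝ))) ^ d * γ ≤ cf n (fun _ : Fin d => n) * γ :=
        mul_le_mul_of_nonneg_right (cf_lower n hn) hγ0.le
    _ = _ := hval'.symm
    _ ≤ q ^ n := hle

end Pool.Agent.Lib.MP_d2370c_gt
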