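import Mathlib
import Pool.Agent.Lib.MP_d2370c_gt.CoreE
import Pool.Agent.Lib.MP_d2370c_gt.Density
import Pool.Agent.Lib.MP_d2370c_gt.UniB

/-!
A probability measure on the line with compactly supported characteristic function, whose moment
of order `2 k` is less than `k ^ (2 k)`.
-/

set_option autoImplicit false

open Finset MeasureTheory

namespace Pool.Agent.Lib.MP_d2370c_gt

theorem phi_muB_sinc (u : ℝ) : phi muB u = ((Real.sinc (2 * Real.pi * u) : ℝ) : ℂ) := by
  by_cases hu : u = 0
  · subst hu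
    rw [phi_zero]
    simp
  · have hpi := Real.pi_pos
    set c : ℂ := 2 * Real.pi * u * Complex.I with hc
    have hc0 : c ≠ 0 := by
      rw [hc]
      have h1 : (u : ℂ) ≠ 0 := by exact_mod_cast hu
      have h2 : (Real.pi : ℂ) ≠ 0 := by exact_mod_cast hpi.ne'
      simp [h1, h2]
    have h1 : ∀ x : ℝ, ee (x * u) = Complex.exp (c * x) := by
      intro x
      unfold ee
      rw [hc]
      congr 1
      push_cast
      ring
    rw [phi_muB_eq]
    simp_rw [h1]
    rw [integral_exp_mul_complex hc0]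
    have h2 : 2 * Real.pi * u ≠ 0 := by positivity
    rw [Real.sinc_of_ne_zero h2]
    have h3 : Complex.exp (c * (1 : ℝ)) - Complex.exp (c * ((-1 : ℝ) : ℝ)) =
        2 * Complex.I * ((Real.sin (2 * Real.pi * u) : ℝ) : ℂ) := by
      rw [Complex.ofReal_sin, Complex.sin]
      have e1 : c * ((1 : ℝ) : ℂ) = ((2 * Real.pi * u : ℝ) : ℂ) * Complex.I := by rw [hc]; push_cast; ring
      have e2 : c * ((-1 : ℝ) : ℂ) = -((2 * Real.pi * u : ℝ) : ℂ) * Complex.I := by rw [hc]; push_cast; ring
      rw [e1, e2]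
      have hI : Complex.I * Complex.I = -1 := Complex.I_mul_I
      linear_combination (-(Complex.exp (-((2 * Real.pi * u : ℝ) : ℂ) * Complex.I) -
        Complex.exp (((2 * Real.pi * u : ℝ) : ℂ) * Complex.I))) * hI
    rw [h3]
    have h4 : (u : ℂ) ≠ 0 := by exact_mod_cast hu
    have h5 : (Real.pi : ℂ) ≠ 0 := by exact_mod_cast hpi.ne'
    rw [hc]
    push_cast
    field_simp

/-- The transform of `H μ` vanishes at all points of absolute value at least `a`. -/
def Van (μ : Measure ℝ) (H : ℝ → ℂ) (a : ℝ) : Prop :=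
  ∀ u : ℝ, a ≤ |u| → ∫ x, H x * ee (x * u) ∂μ = 0

theorem Van.mul_sinc {μ : Measure ℝ} [IsProbabilityMeasure μ] {H : ℝ → ℂ} {a : ℝ} (h : Van μ H a)
    (hc : Continuous H) (C : ℝ) (hb : ∀ x, ‖H x‖ ≤ C) (γ : ℝ) (hγ : 0 ≤ γ) :
    Van μ (fun x => H x * ((Real.sinc (Real.pi * γ * x) : ℝ) : ℂ)) (a + γ / 2) := by
  intro u hu
  have h1 : ∀ x : ℝ, H x * ((Real.sinc (Real.pi * γ * x) : ℝ) : ℂ) * ee (x * u) =
      ∫ s, H x * ee (x * (u + γ * s / 2)) ∂muB := by
    intro x
    have e1 : ((Real.sinc (Real.pi * γ * x) : ℝ) : ℂ) = phi muB (γ * x / 2) := by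
      rw [phi_muB_sinc]
      congr 2
      ring
    rw [e1, phi, ← integral_const_mul, ← integral_mul_const]
    refine integral_congr_ae (Filter.Eventually.of_forall fun s => ?_)
    simp only
    rw [mul_assoc, ← ee_add]
    congr 2
    ring
  simp_rw [h1]
  rw [integral_integral_swap]
  · have h2 : ∀ᵐ s ∂muB, ∫ x, H x * ee (x * (u + γ * s / 2)) ∂μ = 0 := by
      filter_upwards [ae_muB] with s hs
      apply h
      have h3 : |γ * s / 2| ≤ γ / 2 := by
        rw [abs_div, abs_mul, abs_of_nonneg hγ, abs_of_pos (by norm_num : (0 : ℝ) < 2)]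
        nlinarith [abs_nonneg s]
      have h4 := abs_sub_abs_le_abs_sub u (-(γ * s / 2))
      rw [abs_neg, sub_neg_eq_add] at h4
      linarith
    rw [integral_congr_ae h2]
    simp
  · have hcont : Continuous (Function.uncurry fun (x s : ℝ) => H x * ee (x * (u + γ * s / 2))) := by
      have h5 := continuous_ee
      unfold Function.uncurry
      apply Continuous.mul
      · exact hc.comp continuous_fst
      · apply h5.comp
        fun_prop
    refine (integrable_const C).mono' hcont.aestronglyMeasurable ?_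
    filter_upwards with p
    simp only [Function.uncurry]
    rw [norm_mul, norm_ee, mul_one]
    exact hb _

theorem integrable_bdd {μ : Measure ℝ} [IsProbabilityMeasure μ] {H : ℝ → ℂ} (hc : Continuous H)
    (C : ℝ) (hb : ∀ x, ‖H x‖ ≤ C) : Integrable H μ := by
  refine (integrable_const C).mono' hc.aestronglyMeasurable ?_
  filter_upwards with p
  exact hb _

theorem Van.mul_sin {μ : Measure ℝ} [IsProbabilityMeasure μ] {H : ℝ → ℂ} {a : ℝ} (h : Van μ H a)
    (hc : Continuous H) (C : ℝ) (hb : ∀ x, ‖H x‖ ≤ C) (γ : ℝ) (hγ : 0 ≤ γ) :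
    Van μ (fun x => H x * ((Real.sin (Real.pi * γ * x) : ℝ) : ℂ)) (a + γ / 2) := by
  intro u hu
  have h1 : ∀ x : ℝ, H x * ((Real.sin (Real.pi * γ * x) : ℝ) : ℂ) * ee (x * u) =
      (Complex.I / 2) * (H x * ee (x * (u - γ / 2))) - (Complex.I / 2) * (H x * ee (x * (u + γ / 2))) := by
    intro x
    have e1 : ee (x * (u - γ / 2)) = ee (x * u) * ee (-(γ * x / 2)) := by
      rw [← ee_add]; congr 1; ring
    have e2 : ee (x * (u + γ / 2)) = ee (x * u) * ee (γ * x / 2) := by
      rw [← ee_add]; congr 1; ring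
    rw [e1, e2, Complex.ofReal_sin, Complex.sin]
    have e3 : Complex.exp (-((Real.pi * γ * x : ℝ) : ℂ) * Complex.I) = ee (-(γ * x / 2)) := by
      unfold ee; congr 1; push_cast; ring
    have e4 : Complex.exp (((Real.pi * γ * x : ℝ) : ℂ) * Complex.I) = ee (γ * x / 2) := by
      unfold ee; congr 1; push_cast; ring
    rw [e3, e4]
    ring
  simp_rw [h1]
  have hint : ∀ w : ℝ, Integrable (fun x => H x * ee (x * w)) μ := by
    intro w
    have h5 := continuous_ee
    have h6 : Continuous fun x => H x * ee (x * w) := by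
      apply hc.mul
      apply h5.comp
      fun_prop
    refine integrable_bdd h6 C fun x => ?_
    rw [norm_mul, norm_ee, mul_one]
    exact hb x
  rw [integral_sub ((hint _).const_mul _) ((hint _).const_mul _), integral_const_mul, integral_const_mul]
  have h7 := h (u - γ / 2) (by
    have h4 := abs_sub_abs_le_abs_sub u (γ / 2)
    rw [abs_of_nonneg (by linarith : 0 ≤ γ / 2)] at h4
    linarith)
  have h8 := h (u + γ / 2) (by
    have h4 := abs_sub_abs_le_abs_sub u (-(γ / 2))
    rw [abs_neg, sub_neg_eq_add, abs_of_nonneg (by linarith : 0 ≤ γ / 2)] at h4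
    linarith)
  rw [h7, h8]
  simp

theorem van_sinc_pow (μ : Measure ℝ) [IsProbabilityMeasure μ] (a : ℝ) (hμ : ∀ u, a ≤ |u| → phi μ u = 0)
    (γ : ℝ) (hγ : 0 ≤ γ) (m : ℕ) :
    Van μ (fun x => ((Real.sinc (Real.pi * γ * x) ^ m : ℝ) : ℂ)) (a + m * (γ / 2)) := by
  induction m with
  | zero =>
    intro u hu
    simp only [pow_zero, Complex.ofReal_one, one_mul]
    simp only [Nat.cast_zero, zero_mul, add_zero] at hu
    exact hμ u hu
  | succ m ih =>
    have hc : Continuous fun x : ℝ => ((Real.sinc (Real.pi * γ * x) ^ m : ℝ) : ℂ) := by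
      have := Real.continuous_sinc
      fun_prop
    have h := ih.mul_sinc hc 1 (fun x => by
      rw [Complex.norm_real, Real.norm_eq_abs, abs_pow]
      exact pow_le_one₀ (abs_nonneg _) (Real.abs_sinc_le_one _)) γ hγ
    intro u hu
    have h2 := h u (by push_cast at hu; linarith)
    rw [← h2]
    refine integral_congr_ae (Filter.Eventually.of_forall fun x => ?_)
    simp only
    rw [pow_succ]
    push_cast
    ring

theorem van_sin_pow (μ : Measure ℝ) [IsProbabilityMeasure μ] (a : ℝ) (hμ : ∀ u, a ≤ |u| → phi μ u = 0)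
    (γ : ℝ) (hγ : 0 ≤ γ) (m : ℕ) :
    Van μ (fun x => ((Real.sin (Real.pi * γ * x) ^ m : ℝ) : ℂ)) (a + m * (γ / 2)) := by
  induction m with
  | zero =>
    intro u hu
    simp only [pow_zero, Complex.ofReal_one, one_mul]
    simp only [Nat.cast_zero, zero_mul, add_zero] at hu
    exact hμ u hu
  | succ m ih =>
    have hc : Continuous fun x : ℝ => ((Real.sin (Real.pi * γ * x) ^ m : ℝ) : ℂ) := by
      fun_prop
    have h := ih.mul_sin hc 1 (fun x => by
      rw [Complex.norm_real, Real.norm_eq_abs, abs_pow]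
      exact pow_le_one₀ (abs_nonneg _) (Real.abs_sin_le_one _)) γ hγ
    intro u hu
    have h2 := h u (by push_cast at hu; linarith)
    rw [← h2]
    refine integral_congr_ae (Filter.Eventually.of_forall fun x => ?_)
    simp only
    rw [pow_succ]
    push_cast
    ring

theorem mul_sinc_eq (γ x : ℝ) (hγ : 0 < γ) :
    x * Real.sinc (Real.pi * γ * x) = Real.sin (Real.pi * γ * x) / (Real.pi * γ) := by
  have hpi := Real.pi_pos
  by_cases hx : x = 0
  · subst hx; simp
  · rw [Real.sinc_of_ne_zero (by positivity)]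
    field_simp

theorem one_sub_le_sinc (t : ℝ) : 1 - t ^ 2 / 6 ≤ Real.sinc t := by
  by_cases ht : t = 0
  · subst ht; simp
  · have h1 : Real.sinc t = ∫ s in (0 : ℝ)..1, Real.cos (t * s) := by
      rw [intervalIntegral.integral_comp_mul_left (fun x => Real.cos x) ht, integral_cos,
        Real.sinc_of_ne_zero ht]
      simp
      ring
    rw [h1]
    have h2 : ∫ s in (0 : ℝ)..1, (1 - (t * s) ^ 2 / 2) = 1 - t ^ 2 / 6 := by
      have e1 : ∀ s : ℝ, 1 - (t * s) ^ 2 / 2 = 1 - (t ^ 2 / 2) * s ^ 2 := by intro s; ring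
      simp_rw [e1]
      rw [intervalIntegral.integral_sub (by simp) (Continuous.intervalIntegrable (by fun_prop) _ _),
        intervalIntegral.integral_const_mul, integral_pow]
      norm_num
      ring
    rw [← h2]
    apply intervalIntegral.integral_mono_on (by norm_num)
    · exact Continuous.intervalIntegrable (by fun_prop) _ _
    · exact Continuous.intervalIntegrable (by fun_prop) _ _
    · intro s _
      exact Real.one_sub_sq_div_two_le_cos

theorem sinc_pow_ge (t : ℝ) (k : ℕ) : 1 - k * t ^ 2 / 3 ≤ Real.sinc t ^ (2 * k) := by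
  by_cases hk : 3 ≤ (k : ℝ) * t ^ 2
  · have h1 : 0 ≤ Real.sinc t ^ (2 * k) := by
      rw [pow_mul]; positivity
    linarith
  · push Not at hk
    rcases Nat.eq_zero_or_pos k with h0 | h0
    · subst h0; simp
    have hk1 : (1 : ℝ) ≤ k := by exact_mod_cast h0
    have ht : t ^ 2 < 3 := by nlinarith [sq_nonneg t]
    have h2 := one_sub_le_sinc t
    have h3 := one_add_mul_le_pow (a := -(t ^ 2 / 6)) (by linarith) (2 * k)
    calc 1 - k * t ^ 2 / 3 = 1 + ((2 * k : ℕ) : ℝ) * (-(t ^ 2 / 6)) := by push_cast; ring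
      _ ≤ (1 + -(t ^ 2 / 6)) ^ (2 * k) := h3
      _ ≤ Real.sinc t ^ (2 * k) := by
          apply pow_le_pow_left₀ (by linarith)
          linarith

end Pool.Agent.Lib.MP_d2370c_gt
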