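import Mathlib
import Pool.Agent.Lib.MP_d2370c_gt.KerE

/-!
The probability measure with band `5 / 3` and small moment of order `2 k`.
-/

set_option autoImplicit false

open Finset MeasureTheory

namespace Pool.Agent.Lib.MP_d2370c_gt

/-- The weight. -/
noncomputable def wgt (k : ℕ) (x : ℝ) : ℝ := Real.sinc (Real.pi * (2 / (3 * k)) * x) ^ (2 * k)

/-- The total mass. -/
noncomputable def ZZ (k : ℕ) : ℝ := ∫ x, wgt k x ∂muA

theorem continuous_wgt (k : ℕ) : Continuous (wgt k) := by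
  have := Real.continuous_sinc
  unfold wgt
  fun_prop

theorem wgt_nonneg (k : ℕ) (x : ℝ) : 0 ≤ wgt k x := by
  unfold wgt; rw [pow_mul]; positivity

theorem wgt_le_one (k : ℕ) (x : ℝ) : wgt k x ≤ 1 := by
  unfold wgt
  have h := Real.abs_sinc_le_one (Real.pi * (2 / (3 * k)) * x)
  have h2 : Real.sinc (Real.pi * (2 / (3 * k)) * x) ^ (2 * k) =
      |Real.sinc (Real.pi * (2 / (3 * k)) * x)| ^ (2 * k) := by
    rw [pow_mul, pow_mul, sq_abs]
  rw [h2]
  exact pow_le_one₀ (abs_nonneg _) h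

theorem integrable_wgt (k : ℕ) : Integrable (wgt k) muA := by
  refine (integrable_const (1 : ℝ)).mono' (continuous_wgt k).aestronglyMeasurable ?_
  filter_upwards with x
  rw [Real.norm_eq_abs, abs_of_nonneg (wgt_nonneg k x)]
  exact wgt_le_one k x

theorem ZZ_ge (k : ℕ) (hk : 1 ≤ k) : 1 - Real.pi ^ 2 / (27 * k) ≤ ZZ k := by
  have hk0 : (0 : ℝ) < k := by exact_mod_cast hk
  have hk1 : (k : ℝ) ≠ 0 := hk0.ne'
  have h1 : ∫ x, (1 - (k * (Real.pi * (2 / (3 * k))) ^ 2 / 3) * x ^ 2) ∂muA ≤ ZZ k := by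
    unfold ZZ
    apply integral_mono
    · exact (integrable_const _).sub (integrable_sq_muA.const_mul _)
    · exact integrable_wgt k
    · intro x
      have h2 := sinc_pow_ge (Real.pi * (2 / (3 * k)) * x) k
      unfold wgt
      simp only
      refine le_trans (le_of_eq ?_) h2
      ring
  rw [integral_sub (integrable_const _) (integrable_sq_muA.const_mul _), integral_const_mul,
    integral_sq_muA] at h1
  simp only [integral_const, probReal_univ, smul_eq_mul, mul_one] at h1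
  refine le_trans (le_of_eq ?_) h1
  field_simp
  ring

theorem ZZ_pos (k : ℕ) (hk : 1 ≤ k) : 0.634 ≤ ZZ k := by
  have h1 := ZZ_ge k hk
  have hk1 : (1 : ℝ) ≤ k := by exact_mod_cast hk
  have h2 := Real.pi_lt_d4
  have h3 := Real.pi_pos
  have h4 : Real.pi ^ 2 ≤ 9.8702 := by nlinarith
  have h5 : Real.pi ^ 2 / (27 * k) ≤ 9.8702 / 27 := by
    rw [div_le_div_iff₀ (by positivity) (by norm_num)]
    nlinarith
  have h6 : (9.8702 : ℝ) / 27 ≤ 0.3656 := by norm_num
  linarith

/-- The density. -/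
noncomputable def dens (k : ℕ) (x : ℝ) : ℝ := wgt k x / ZZ k

theorem dens_nonneg (k : ℕ) (hk : 1 ≤ k) (x : ℝ) : 0 ≤ dens k x :=
  div_nonneg (wgt_nonneg k x) (by linarith [ZZ_pos k hk])

theorem measurable_dens (k : ℕ) : Measurable (dens k) := by
  unfold dens
  exact (continuous_wgt k).measurable.div_const _

/-- The measure. -/
noncomputable def nuE (k : ℕ) : Measure ℝ := muA.withDensity fun x => ((dens k x).toNNReal : ENNReal)

theorem integral_nuE (k : ℕ) (hk : 1 ≤ k) (g : ℝ → ℂ) : ∫ x, g x ∂(nuE k) = ∫ x, (dens k x : ℂ) * g x ∂muA := by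
  unfold nuE
  rw [integral_withDensity_eq_integral_smul (measurable_dens k).real_toNNReal]
  refine integral_congr_ae (Filter.Eventually.of_forall fun x => ?_)
  simp only
  rw [NNReal.smul_def, Real.coe_toNNReal _ (dens_nonneg k hk x), Complex.real_smul]

theorem isProb_nuE (k : ℕ) (hk : 1 ≤ k) : IsProbabilityMeasure (nuE k) := by
  refine ⟨?_⟩
  have hZ := ZZ_pos k hk
  have hint : Integrable (dens k) muA := (integrable_wgt k).div_const _
  have h2 : ∫ x, dens k x ∂muA = 1 := by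
    unfold dens
    rw [integral_div]
    exact div_self (by linarith : (0 : ℝ) < ZZ k).ne'
  unfold nuE
  rw [withDensity_apply _ MeasurableSet.univ, Measure.restrict_univ]
  have h1 : ∫⁻ x, ((dens k x).toNNReal : ENNReal) ∂muA = ∫⁻ x, ENNReal.ofReal (dens k x) ∂muA := rfl
  rw [h1, ← ofReal_integral_eq_lintegral_ofReal hint (Filter.Eventually.of_forall (dens_nonneg k hk)), h2]
  simp

theorem band_eq (k : ℕ) (hk : 1 ≤ k) : (1 : ℝ) + ((2 * k : ℕ) : ℝ) * ((2 / (3 * k)) / 2) = 5 / 3 := by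
  have hk0 : (0 : ℝ) < k := by exact_mod_cast hk
  push_cast
  field_simp
  norm_num

theorem phi_nuE (k : ℕ) (hk : 1 ≤ k) (u : ℝ) (hu : 5 / 3 ≤ |u|) : phi (nuE k) u = 0 := by
  unfold phi
  rw [integral_nuE k hk]
  have h := van_sinc_pow muA 1 phi_muA (2 / (3 * k)) (by positivity) (2 * k)
  rw [band_eq k hk] at h
  have h1 : ∀ x : ℝ, (dens k x : ℂ) * ee (x * u) = (1 / (ZZ k : ℂ)) *
      (((Real.sinc (Real.pi * (2 / (3 * k)) * x) ^ (2 * k) : ℝ) : ℂ) * ee (x * u)) := by
    intro x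
    unfold dens wgt
    push_cast
    ring
  simp_rw [h1]
  rw [integral_const_mul, h u hu, mul_zero]

theorem pow_mul_dens (k : ℕ) (hk : 1 ≤ k) (x : ℝ) : x ^ (2 * k) * dens k x =
    ((1 / ZZ k) * (1 / (Real.pi * (2 / (3 * k)))) ^ (2 * k)) *
      Real.sin (Real.pi * (2 / (3 * k)) * x) ^ (2 * k) := by
  have hk0 : (0 : ℝ) < k := by exact_mod_cast hk
  have h := mul_sinc_eq (2 / (3 * k)) x (by positivity)
  unfold dens wgt
  calc x ^ (2 * k) * (Real.sinc (Real.pi * (2 / (3 * k)) * x) ^ (2 * k) / ZZ k)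
      = (x * Real.sinc (Real.pi * (2 / (3 * k)) * x)) ^ (2 * k) / ZZ k := by rw [mul_pow]; ring
    _ = (Real.sin (Real.pi * (2 / (3 * k)) * x) / (Real.pi * (2 / (3 * k)))) ^ (2 * k) / ZZ k := by rw [h]
    _ = _ := by rw [div_pow, one_div_pow]; ring

theorem phiE_nuE (k : ℕ) (hk : 1 ≤ k) (u : ℝ) (hu : 5 / 3 ≤ |u|) : phiE (2 * k) (nuE k) u = 0 := by
  unfold phiE
  rw [integral_nuE k hk]
  have h := van_sin_pow muA 1 phi_muA (2 / (3 * k)) (by positivity) (2 * k)
  rw [band_eq k hk] at h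
  have h1 : ∀ x : ℝ, (dens k x : ℂ) * (((x ^ (2 * k) : ℝ) : ℂ) * ee (x * u)) =
      (((1 / ZZ k) * (1 / (Real.pi * (2 / (3 * k)))) ^ (2 * k) : ℝ) : ℂ) *
      (((Real.sin (Real.pi * (2 / (3 * k)) * x) ^ (2 * k) : ℝ) : ℂ) * ee (x * u)) := by
    intro x
    have h2 := pow_mul_dens k hk x
    have h3 : (dens k x : ℂ) * (((x ^ (2 * k) : ℝ) : ℂ) * ee (x * u)) =
        ((x ^ (2 * k) * dens k x : ℝ) : ℂ) * ee (x * u) := by push_cast; ring
    rw [h3, h2]
    push_cast
    ring
  simp_rw [h1]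
  rw [integral_const_mul, h u hu, mul_zero]

theorem integrable_pow_nuE (k : ℕ) (hk : 1 ≤ k) : Integrable (fun x : ℝ => x ^ (2 * k)) (nuE k) := by
  unfold nuE
  rw [integrable_withDensity_iff_integrable_smul (measurable_dens k).real_toNNReal]
  have hc : Integrable (fun x : ℝ => ((1 / ZZ k) * (1 / (Real.pi * (2 / (3 * k)))) ^ (2 * k)) *
      Real.sin (Real.pi * (2 / (3 * k)) * x) ^ (2 * k)) muA := by
    apply Integrable.const_mul
    refine (integrable_const (1 : ℝ)).mono' (by fun_prop) ?_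
    filter_upwards with x
    rw [Real.norm_eq_abs, abs_pow]
    exact pow_le_one₀ (abs_nonneg _) (Real.abs_sin_le_one _)
  refine hc.congr (Filter.Eventually.of_forall fun x => ?_)
  simp only
  rw [NNReal.smul_def, Real.coe_toNNReal _ (dens_nonneg k hk x), smul_eq_mul, ← pow_mul_dens k hk x, mul_comm]

theorem integral_pow_nuE (k : ℕ) (hk : 1 ≤ k) :
    ∫ x, x ^ (2 * k) ∂(nuE k) ≤ (1 / ZZ k) * (1 / (Real.pi * (2 / (3 * k)))) ^ (2 * k) := by
  have hZ := ZZ_pos k hk
  have hk0 : (0 : ℝ) < k := by exact_mod_cast hk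
  have h1 : ∫ x, x ^ (2 * k) ∂(nuE k) = ∫ x, dens k x * x ^ (2 * k) ∂muA := by
    unfold nuE
    rw [integral_withDensity_eq_integral_smul (measurable_dens k).real_toNNReal]
    refine integral_congr_ae (Filter.Eventually.of_forall fun x => ?_)
    simp only
    rw [NNReal.smul_def, Real.coe_toNNReal _ (dens_nonneg k hk x), smul_eq_mul]
  rw [h1]
  set c : ℝ := (1 / ZZ k) * (1 / (Real.pi * (2 / (3 * k)))) ^ (2 * k) with hc
  have hc0 : 0 ≤ c := by
    have := Real.pi_pos
    have h0 : 0 < ZZ k := by linarith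
    positivity
  have h2 : ∫ _x : ℝ, c ∂muA = c := by simp
  calc ∫ x, dens k x * x ^ (2 * k) ∂muA ≤ ∫ _x : ℝ, c ∂muA := by
        apply integral_mono_of_nonneg
        · filter_upwards with x
          apply mul_nonneg (dens_nonneg k hk x)
          rw [pow_mul]; positivity
        · exact integrable_const _
        · filter_upwards with x
          rw [mul_comm, pow_mul_dens k hk x, ← hc]
          have h3 : Real.sin (Real.pi * (2 / (3 * k)) * x) ^ (2 * k) ≤ 1 := by
            have h4 : Real.sin (Real.pi * (2 / (3 * k)) * x) ^ (2 * k) =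
              |Real.sin (Real.pi * (2 / (3 * k)) * x)| ^ (2 * k) := by rw [pow_mul, pow_mul, sq_abs]
            rw [h4]
            exact pow_le_one₀ (abs_nonneg _) (Real.abs_sin_le_one _)
          nlinarith
    _ = c := h2

/-- The bound for the moment of order `2 k`, in the form in which it is used. -/
theorem moment_bound (k : ℕ) (hk : 1 ≤ k) :
    (5 / 3 / (k : ℝ)) ^ (2 * k) * ∫ x, x ^ (2 * k) ∂(nuE k) < 0.9995 := by
  have hZ := ZZ_pos k hk
  have hk0 : (0 : ℝ) < k := by exact_mod_cast hk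
  have hpi := Real.pi_pos
  have h1 := integral_pow_nuE k hk
  have h2 : (5 / 3 / (k : ℝ)) ^ (2 * k) * ((1 / ZZ k) * (1 / (Real.pi * (2 / (3 * k)))) ^ (2 * k)) =
      (1 / ZZ k) * (5 / (2 * Real.pi)) ^ (2 * k) := by
    have h3 : (5 / 3 / (k : ℝ)) * (1 / (Real.pi * (2 / (3 * k)))) = 5 / (2 * Real.pi) := by
      field_simp
    rw [← h3, mul_pow]
    ring
  have h4 : (5 / (2 * Real.pi)) ^ (2 * k) ≤ (5 / (2 * Real.pi)) ^ 2 := by
    apply pow_le_pow_of_le_one (by positivity)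
    · rw [div_le_one (by positivity)]
      linarith [Real.pi_gt_three]
    · omega
  have h5 : (5 / (2 * Real.pi)) ^ 2 ≤ 0.63335 := by
    have h6 := Real.pi_gt_d4
    rw [div_pow, mul_pow, div_le_iff₀ (by positivity)]
    nlinarith
  calc (5 / 3 / (k : ℝ)) ^ (2 * k) * ∫ x, x ^ (2 * k) ∂(nuE k)
      ≤ (5 / 3 / (k : ℝ)) ^ (2 * k) * ((1 / ZZ k) * (1 / (Real.pi * (2 / (3 * k)))) ^ (2 * k)) :=
        mul_le_mul_of_nonneg_left h1 (by positivity)
    _ = (1 / ZZ k) * (5 / (2 * Real.pi)) ^ (2 * k) := h2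
    _ ≤ (1 / 0.634) * 0.63335 := by
        apply mul_le_mul _ (h4.trans h5) (by positivity) (by norm_num)
        apply one_div_le_one_div_of_le (by norm_num) hZ
    _ < 0.9995 := by norm_num

end Pool.Agent.Lib.MP_d2370c_gt
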