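import Mathlib
import Pool.Agent.Lib.MP_d2370c_gt.NuE
import Pool.Agent.Lib.MP_d2370c_gt.FinalA
import Pool.Agent.Lib.MP_d2370c_gt.ClassR

/-!
Convex bodies between the image of the proportional ball of the norm of order `2 k` and the
circumscribed polytope; polars of `r` convex bodies.
-/

set_option autoImplicit false

open Finset MeasureTheory

namespace Pool.Agent.Lib.MP_d2370c_gt

variable {d N : ℕ}

/-- The upper bound. -/
theorem width_le_E (k : ℕ) (hk : 1 ≤ k) (K : Set (Fin d → ℝ)) (hconv : Convex ℝ K)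
    (hint : (interior K).Nonempty) (hfree : ∀ z : Fin d → ℤ, (fun i => (z i : ℝ)) ∉ interior K)
    (v : Fin N → Fin d → ℝ) (x0 : Fin d → ℝ) (M : ℝ)
    (hin : ∀ t : Fin N → ℝ, ∑ j, t j ^ (2 * k) ≤ N → x0 + ∑ j, t j • v j ∈ K)
    (hout : ∀ x ∈ K, ∃ t : Fin N → ℝ, ∑ j, |t j| ≤ M * N ∧ x = x0 + ∑ j, t j • v j) :
    ∃ y : Fin d → ℤ, y ≠ 0 ∧ ∀ x ∈ K, ∀ x' ∈ K,
      ∑ i, (x i - x' i) * (y i : ℝ) ≤ 2 * k * M * N := by
  classical
  have hk0 : (0 : ℝ) < k := by exact_mod_cast hk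
  by_contra hcon
  push Not at hcon
  -- dimension zero
  rcases Nat.eq_zero_or_pos d with hd | hd
  · subst hd
    obtain ⟨x, hx⟩ := hint
    apply hfree 0
    have : (fun i => ((0 : Fin 0 → ℤ) i : ℝ)) = x := Subsingleton.elim _ _
    rw [this]; exact hx
  -- step one
  have h1 : ∀ y : Fin d → ℤ, y ≠ 0 → ∃ j, (k : ℝ) < |pr v (fun i => (y i : ℝ)) j| := by
    intro y hy
    obtain ⟨x, hx, x', hx', hlt⟩ := hcon y hy
    obtain ⟨t, ht, rfl⟩ := hout x hx
    obtain ⟨t', ht', rfl⟩ := hout x' hx'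
    by_contra hno
    push Not at hno
    rw [sum_diff_eq v x0 t t' (fun i => (y i : ℝ))] at hlt
    have h2 : ∑ j, (t j - t' j) * pr v (fun i => (y i : ℝ)) j ≤ ∑ j, (|t j| + |t' j|) * k := by
      refine Finset.sum_le_sum fun j _ => ?_
      calc (t j - t' j) * pr v (fun i => (y i : ℝ)) j ≤ |(t j - t' j) * pr v (fun i => (y i : ℝ)) j| := le_abs_self _
        _ = |t j - t' j| * |pr v (fun i => (y i : ℝ)) j| := abs_mul _ _
        _ ≤ (|t j| + |t' j|) * k := by
            apply mul_le_mul (abs_sub _ _) (hno j) (abs_nonneg _) (by positivity)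
    rw [← Finset.sum_mul, Finset.sum_add_distrib] at h2
    nlinarith
  -- the number of generators is positive
  have hN : 1 ≤ N := by
    have hy0 : (fun _ => 1 : Fin d → ℤ) ≠ 0 := by
      intro h
      have := congrFun h ⟨0, hd⟩
      simp at this
    obtain ⟨j, _⟩ := h1 _ hy0
    have := j.2
    omega
  have hN' : (0 : ℝ) < N := by exact_mod_cast hN
  -- the integer point
  have hev2 : Even (2 * k) := even_two_mul k
  set A : ℝ := N * (0.9995 / (5 / 3 / (k : ℝ)) ^ (2 * k)) with hA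
  have hpos : 0 < (5 / 3 / (k : ℝ)) ^ (2 * k) := by positivity
  have hA0 : 0 < A := by rw [hA]; positivity
  have := isProb_nuE k hk
  obtain ⟨z, t, ht, hz⟩ := exists_point_E (2 * k) hev2 (by omega) (nuE k) (integrable_pow_nuE k hk) (5 / 3)
    (phi_nuE k hk) (phiE_nuE k hk) x0 (fun j i => (5 / 3 / (k : ℝ)) * v j i) (by
      intro y hy
      obtain ⟨j, hj⟩ := h1 y hy
      refine ⟨j, ?_⟩
      have h3 : pr (fun j i => (5 / 3 / (k : ℝ)) * v j i) (fun i => (y i : ℝ)) j =
          (5 / 3 / (k : ℝ)) * pr v (fun i => (y i : ℝ)) j := by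
        unfold pr
        rw [Finset.mul_sum]
        refine Finset.sum_congr rfl fun i _ => by ring
      rw [h3, abs_mul, abs_of_pos (by positivity : (0 : ℝ) < 5 / 3 / k)]
      calc (5 : ℝ) / 3 = (5 / 3 / (k : ℝ)) * k := by field_simp
        _ ≤ _ := mul_le_mul_of_nonneg_left hj.le (by positivity)) A hA0 (by
      rw [Fintype.card_fin, hA]
      apply mul_lt_mul_of_pos_left _ hN'
      rw [lt_div_iff₀ hpos, mul_comm]
      exact moment_bound k hk)
  obtain ⟨z0, hz0⟩ := hint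
  obtain ⟨s, _, hs⟩ := hout z0 (interior_subset hz0)
  set τ' : Fin N → ℝ := fun j => (5 / 3 / (k : ℝ)) * t j with hτ'
  have hτs : ∑ j, τ' j ^ (2 * k) < N := by
    have e1 : ∑ j, τ' j ^ (2 * k) = (5 / 3 / (k : ℝ)) ^ (2 * k) * ∑ j, t j ^ (2 * k) := by
      rw [Finset.mul_sum]
      refine Finset.sum_congr rfl fun j _ => ?_
      rw [hτ', mul_pow]
    rw [e1]
    calc (5 / 3 / (k : ℝ)) ^ (2 * k) * ∑ j, t j ^ (2 * k) ≤ (5 / 3 / (k : ℝ)) ^ (2 * k) * A :=
          mul_le_mul_of_nonneg_left ht hpos.le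
      _ = N * 0.9995 := by rw [hA]; field_simp
      _ < N := by nlinarith
  have hzeq : (fun i => (z i : ℝ)) = x0 + ∑ j, τ' j • v j := by
    rw [← hz]
    funext i
    simp only [XX, Pi.add_apply, Finset.sum_apply, Pi.smul_apply, smul_eq_mul, hτ']
    congr 1
    refine Finset.sum_congr rfl fun j _ => by ring
  apply hfree z
  have hcont : Continuous fun τ : ℝ => ∑ j, (τ' j + τ * (τ' j - s j)) ^ (2 * k) := by fun_prop
  have hev : ∀ᶠ τ in nhds (0 : ℝ), ∑ j, (τ' j + τ * (τ' j - s j)) ^ (2 * k) < (N : ℝ) := by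
    have := hcont.tendsto 0
    simp only [zero_mul, add_zero] at this
    exact (tendsto_order.1 this).2 _ hτs
  obtain ⟨τ, hτ1, hτ2⟩ := ((hev.filter_mono nhdsWithin_le_nhds).and
    (self_mem_nhdsWithin (a := (0 : ℝ)) (s := Set.Ioi 0))).exists
  refine mem_interior_of_combo K hconv _ z0 hz0 τ hτ2 ?_
  have h9 : (fun i => (z i : ℝ)) + τ • ((fun i => (z i : ℝ)) - z0) =
      x0 + ∑ j, (τ' j + τ * (τ' j - s j)) • v j := by
    rw [hzeq, hs]
    funext i
    simp only [Pi.add_apply, Pi.sub_apply, Finset.sum_apply, Pi.smul_apply, smul_eq_mul]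
    have e1 : ∑ j, (τ' j + τ * (τ' j - s j)) * v j i =
        ∑ j, τ' j * v j i + τ * (∑ j, τ' j * v j i - ∑ j, s j * v j i) := by
      rw [← Finset.sum_sub_distrib, Finset.mul_sum, ← Finset.sum_add_distrib]
      refine Finset.sum_congr rfl fun j _ => by ring
    rw [e1]
    ring
  rw [h9]
  exact hin _ hτ1.le

/-- The power mean inequality in the form needed. -/
theorem sum_rpow_le_of_even (p : ℝ) (hp : 1 ≤ p) (k : ℕ) (hk : p ≤ 2 * k) (t : Fin N → ℝ)
    (h : ∑ j, t j ^ (2 * k) ≤ N) : ∑ j, |t j| ^ p ≤ N := by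
  rcases Nat.eq_zero_or_pos N with hN | hN
  · subst hN; simp
  have hN' : (0 : ℝ) < N := by exact_mod_cast hN
  have hp0 : 0 < p := by linarith
  have hk0 : (0 : ℝ) < 2 * k := by linarith
  have h1 := Real.rpow_sum_le_const_mul_sum_rpow_of_nonneg (s := (Finset.univ : Finset (Fin N)))
    (f := fun j => |t j| ^ p) (p := 2 * k / p) (by rw [le_div_iff₀ hp0]; linarith)
    (fun j _ => Real.rpow_nonneg (abs_nonneg _) _)
  have h2 : ∀ j, (|t j| ^ p) ^ (2 * k / p) = t j ^ (2 * k) := by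
    intro j
    rw [← Real.rpow_mul (abs_nonneg _), mul_div_cancel₀ _ hp0.ne']
    have e1 : (2 * (k : ℝ)) = ((2 * k : ℕ) : ℝ) := by push_cast; ring
    rw [e1, Real.rpow_natCast, pow_mul, pow_mul, sq_abs]
  simp only [h2, Finset.card_univ, Fintype.card_fin] at h1
  have h3 : (∑ j, |t j| ^ p) ^ (2 * k / p) ≤ (N : ℝ) ^ (2 * k / p) := by
    calc (∑ j, |t j| ^ p) ^ (2 * k / p) ≤ (N : ℝ) ^ (2 * k / p - 1) * ∑ j, t j ^ (2 * k) := h1
      _ ≤ (N : ℝ) ^ (2 * k / p - 1) * N := by gcongr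
      _ = (N : ℝ) ^ (2 * k / p) := by
          rw [Real.rpow_sub hN', Real.rpow_one]
          field_simp
  exact (Real.rpow_le_rpow_iff (Finset.sum_nonneg fun j _ => Real.rpow_nonneg (abs_nonneg _) _)
    hN'.le (by positivity)).mp h3

/-- The upper bound for real exponents. -/
theorem width_le_E' (p : ℝ) (hp : 1 ≤ p) (K : Set (Fin d → ℝ)) (hconv : Convex ℝ K)
    (hint : (interior K).Nonempty) (hfree : ∀ z : Fin d → ℤ, (fun i => (z i : ℝ)) ∉ interior K)
    (v : Fin N → Fin d → ℝ) (x0 : Fin d → ℝ) (M : ℝ) (hM : 0 ≤ M)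
    (hin : ∀ t : Fin N → ℝ, ∑ j, |t j| ^ p ≤ N → x0 + ∑ j, t j • v j ∈ K)
    (hout : ∀ x ∈ K, ∃ t : Fin N → ℝ, ∑ j, |t j| ≤ M * N ∧ x = x0 + ∑ j, t j • v j) :
    ∃ y : Fin d → ℤ, y ≠ 0 ∧ ∀ x ∈ K, ∀ x' ∈ K,
      ∑ i, (x i - x' i) * (y i : ℝ) ≤ (p + 2) * M * N := by
  obtain ⟨k, hk1, hk2⟩ : ∃ k : ℕ, p ≤ 2 * k ∧ (2 : ℝ) * k ≤ p + 2 := by
    refine ⟨⌈p / 2⌉₊, ?_, ?_⟩
    · have := Nat.le_ceil (p / 2)
      linarith
    · have := Nat.ceil_lt_add_one (show 0 ≤ p / 2 by linarith)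
      linarith
  have hk : 1 ≤ k := by
    rcases Nat.eq_zero_or_pos k with h | h
    · subst h
      simp only [Nat.cast_zero, mul_zero] at hk1
      linarith
    · exact h
  obtain ⟨y, hy, h⟩ := width_le_E k hk K hconv hint hfree v x0 M
    (fun t ht => hin t (sum_rpow_le_of_even p hp k hk1 t ht)) hout
  refine ⟨y, hy, fun x hx x' hx' => (h x hx x' hx').trans ?_⟩
  have hN : (0 : ℝ) ≤ N := Nat.cast_nonneg N
  gcongr

theorem width_le_polR (r p : ℝ) (hrp : r.HolderConjugate p) (T : Set (Fin N → ℝ))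
    (hT : SolidConvex r T) (x0 : Fin d → ℝ)
    (w : Fin N → Fin d → ℝ) (hint : (interior (img x0 w (pol T))).Nonempty)
    (hfree : ∀ z : Fin d → ℤ, (fun i => (z i : ℝ)) ∉ interior (img x0 w (pol T))) :
    ∃ y : Fin d → ℤ, y ≠ 0 ∧ ∀ x ∈ img x0 w (pol T), ∀ x' ∈ img x0 w (pol T),
      ∑ i, (x i - x' i) * (y i : ℝ) ≤ (p + 2) * N := by
  obtain ⟨D, hD0, hD, hDle⟩ := hT.exists_box hrp.lt.le
  have hp1 : 1 < p := hrp.symm.lt
  have hr1 : 1 < r := hrp.lt
  rcases Nat.eq_zero_or_pos N with hN | hN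
  · subst hN
    have h := width_le_E' (N := 0) p hp1.le (img x0 w (pol T)) (convex_img x0 w _ (convex_pol T)) hint hfree
      w x0 1 zero_le_one ?_ ?_
    · simpa using h
    · intro t _
      exact ⟨t, fun s _ => by simp, rfl⟩
    · rintro x ⟨t, _, rfl⟩
      exact ⟨t, by simp, rfl⟩
  have hN' : (0 : ℝ) < N := by exact_mod_cast hN
  have h := width_le_E' p hp1.le (img x0 w (pol T)) (convex_img x0 w _ (convex_pol T)) hint hfree
    (fun j => (N * D j)⁻¹ • w j) x0 1 zero_le_one ?_ ?_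
  · simpa using h
  · intro t ht
    refine ⟨fun j => t j * (N * D j)⁻¹, ?_, ?_⟩
    · intro s hs
      have h1 := Real.inner_le_Lp_mul_Lq Finset.univ t (fun j => s j / D j) hrp.symm
      have h2 : (∑ j, |t j| ^ p) ^ (1 / p) ≤ (N : ℝ) ^ (1 / p) :=
        Real.rpow_le_rpow (Finset.sum_nonneg fun _ _ => by positivity) ht (by positivity)
      have h3 : (∑ j, |s j / D j| ^ r) ^ (1 / r) ≤ (N : ℝ) ^ (1 / r) := by
        apply Real.rpow_le_rpow (Finset.sum_nonneg fun _ _ => by positivity) _ (by positivity)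
        have := hDle s hs
        simp only [abs_div, abs_of_pos (hD0 _)]
        exact this
      have h4 : ∑ j, t j * (s j / D j) ≤ N := by
        calc _ ≤ _ := h1
          _ ≤ (N : ℝ) ^ (1 / p) * (N : ℝ) ^ (1 / r) := mul_le_mul h2 h3
              (Real.rpow_nonneg (Finset.sum_nonneg fun _ _ => by positivity) _) (by positivity)
          _ = N := by
              rw [← Real.rpow_add hN']
              have : 1 / p + 1 / r = 1 := by
                have := hrp.symm.inv_add_inv_eq_one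
                simpa [one_div] using this
              rw [this, Real.rpow_one]
      have h5 : ∑ j, t j * (N * D j)⁻¹ * s j = (∑ j, t j * (s j / D j)) / N := by
        rw [Finset.sum_div]
        refine Finset.sum_congr rfl fun j _ => ?_
        have := (hD0 j).ne'
        field_simp
      rw [h5, div_le_one hN']
      exact h4
    · congr 1
      refine Finset.sum_congr rfl fun j _ => ?_
      rw [smul_smul]
  · rintro x ⟨s, hs, rfl⟩
    refine ⟨fun j => N * D j * s j, ?_, ?_⟩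
    · have h1 : (fun j => if 0 ≤ s j then D j else -D j) ∈ T := by
        refine hT.solid D hD _ fun j => ?_
        split_ifs
        · exact le_refl _
        · rw [abs_neg]
      have h2 := hs _ h1
      have h3 : ∑ j, s j * (if 0 ≤ s j then D j else -D j) = ∑ j, D j * |s j| := by
        refine Finset.sum_congr rfl fun j _ => ?_
        split_ifs with h
        · rw [abs_of_nonneg h]; ring
        · rw [abs_of_neg (not_le.mp h)]; ring
      rw [h3] at h2
      have h4 : ∑ j, |N * D j * s j| = N * ∑ j, D j * |s j| := by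
        rw [Finset.mul_sum]
        refine Finset.sum_congr rfl fun j _ => ?_
        rw [abs_mul, abs_mul, abs_of_pos hN', abs_of_pos (hD0 j)]
        ring
      rw [h4]
      nlinarith
    · congr 1
      refine Finset.sum_congr rfl fun j _ => ?_
      rw [smul_smul]
      have := (hD0 j).ne'
      congr 1
      field_simp

end Pool.Agent.Lib.MP_d2370c_gt
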