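import Mathlib
import Pool.Agent.Lib.MP_d2370c_gt.ClassesA

/-!
The crosspolytope centred at the point (1/2, ..., 1/2) with radius d/2.
-/

set_option autoImplicit false

open Finset

namespace Pool.Agent.Lib.MP_d2370c_gt

variable {d : ℕ}

/-- The centre. -/
noncomputable def ctr (d : ℕ) : Fin d → ℝ := fun _ => 1 / 2

/-- The half diagonals. -/
noncomputable def axs (d : ℕ) : Fin d → Fin d → ℝ := fun j => Pi.single j ((d : ℝ) / 2)

theorem sum_axs (s : Fin d → ℝ) (i : Fin d) : (∑ j, s j • axs d j) i = s i * (d / 2) := by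
  classical
  rw [Finset.sum_apply, Finset.sum_eq_single i]
  · simp [axs]
  · intro b _ hb
    simp [axs, Pi.single_eq_of_ne hb.symm]
  · simp

theorem symPoly_sharp_eq (hd : 1 ≤ d) :
    symPoly (ctr d) (axs d) = {x | ∑ i, |x i - 1 / 2| ≤ (d : ℝ) / 2} := by
  have hd' : (0 : ℝ) < d := by exact_mod_cast hd
  rw [symPoly_eq hd]
  ext x
  simp only [Set.mem_ofPred_eq]
  constructor
  · rintro ⟨s, hs, rfl⟩
    have : ∀ i, |(ctr d + ∑ j, s j • axs d j) i - 1 / 2| = |s i| * (d / 2) := by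
      intro i
      rw [Pi.add_apply, sum_axs]
      simp only [ctr, add_sub_cancel_left, abs_mul]
      rw [abs_of_pos (by positivity : (0 : ℝ) < d / 2)]
    simp only [this]
    rw [← Finset.sum_mul]
    nlinarith
  · intro hx
    refine ⟨fun i => (x i - 1 / 2) / (d / 2), ?_, ?_⟩
    · simp only [abs_div, abs_of_pos (by positivity : (0 : ℝ) < d / 2)]
      rw [← Finset.sum_div, div_le_one (by positivity)]
      exact hx
    · funext i
      rw [Pi.add_apply, sum_axs]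
      simp only [ctr]
      field_simp
      ring

theorem continuous_l1 : Continuous fun x : Fin d → ℝ => ∑ i, |x i - 1 / 2| := by
  fun_prop

theorem sharp_interior_nonempty (hd : 1 ≤ d) : (interior (symPoly (ctr d) (axs d))).Nonempty := by
  have hd' : (0 : ℝ) < d := by exact_mod_cast hd
  rw [symPoly_sharp_eq hd]
  have hopen : IsOpen {x : Fin d → ℝ | ∑ i, |x i - 1 / 2| < (d : ℝ) / 2} :=
    isOpen_lt continuous_l1 continuous_const
  have hsub : {x : Fin d → ℝ | ∑ i, |x i - 1 / 2| < (d : ℝ) / 2} ⊆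
      interior {x : Fin d → ℝ | ∑ i, |x i - 1 / 2| ≤ (d : ℝ) / 2} :=
    interior_maximal (fun x hx => le_of_lt (show ∑ i, |x i - 1 / 2| < (d : ℝ) / 2 from hx)) hopen
  refine ⟨ctr d, hsub ?_⟩
  simp only [Set.mem_ofPred_eq, ctr, sub_self, abs_zero, Finset.sum_const_zero]
  positivity

theorem half_le (z : ℤ) : 1 / 2 ≤ |(z : ℝ) - 1 / 2| := by
  rcases le_or_gt z 0 with h | h
  · have : (z : ℝ) ≤ 0 := by exact_mod_cast h
    rw [abs_of_nonpos (by linarith)]; linarith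
  · have : (1 : ℝ) ≤ z := by exact_mod_cast h
    rw [abs_of_nonneg (by linarith)]; linarith

theorem sharp_free (hd : 1 ≤ d) (z : Fin d → ℤ) :
    (fun i => (z i : ℝ)) ∉ interior (symPoly (ctr d) (axs d)) := by
  have hd' : (0 : ℝ) < d := by exact_mod_cast hd
  rw [symPoly_sharp_eq hd]
  intro hz
  have hcont : Continuous fun τ : ℝ => (fun i : Fin d => (z i : ℝ) + τ * ((z i : ℝ) - 1 / 2)) := by fun_prop
  have hev : ∀ᶠ τ in nhds (0 : ℝ), (fun i : Fin d => (z i : ℝ) + τ * ((z i : ℝ) - 1 / 2)) ∈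
      {x : Fin d → ℝ | ∑ i, |x i - 1 / 2| ≤ (d : ℝ) / 2} := by
    have h := hcont.tendsto 0
    simp only [zero_mul, add_zero] at h
    exact h (mem_interior_iff_mem_nhds.mp hz)
  obtain ⟨τ, hτ1, hτ2⟩ := ((hev.filter_mono nhdsWithin_le_nhds).and
    (self_mem_nhdsWithin (a := (0 : ℝ)) (s := Set.Ioi 0))).exists
  have hτ : 0 < τ := hτ2
  simp only [Set.mem_ofPred_eq] at hτ1
  have e : ∀ i, |(z i : ℝ) + τ * ((z i : ℝ) - 1 / 2) - 1 / 2| = (1 + τ) * |(z i : ℝ) - 1 / 2| := by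
    intro i
    have h3 : (1 + τ) * |(z i : ℝ) - 1 / 2| = |(1 + τ) * ((z i : ℝ) - 1 / 2)| := by
      rw [abs_mul, abs_of_pos (by linarith : 0 < 1 + τ)]
    rw [h3]
    congr 1
    ring
  simp only [e] at hτ1
  rw [← Finset.mul_sum] at hτ1
  have h2 : (d : ℝ) / 2 ≤ ∑ i, |(z i : ℝ) - 1 / 2| := by
    have : ∑ _i : Fin d, (1 / 2 : ℝ) ≤ ∑ i, |(z i : ℝ) - 1 / 2| := Finset.sum_le_sum fun i _ => half_le _
    simp only [Finset.sum_const, Finset.card_univ, Fintype.card_fin, nsmul_eq_mul] at this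
    linarith
  nlinarith

theorem sharp_width (hd : 1 ≤ d) (y : Fin d → ℤ) (hy : y ≠ 0) :
    ∃ x ∈ symPoly (ctr d) (axs d), ∃ x' ∈ symPoly (ctr d) (axs d),
      (d : ℝ) ≤ ∑ i, (x i - x' i) * (y i : ℝ) := by
  classical
  have hd' : (0 : ℝ) < d := by exact_mod_cast hd
  obtain ⟨k, hk⟩ := Function.ne_iff.mp hy
  have hk' : y k ≠ 0 := hk
  have hp : ctr d + axs d k ∈ symPoly (ctr d) (axs d) := subset_convexHull _ _ (Or.inl ⟨k, rfl⟩)
  have hm : ctr d - axs d k ∈ symPoly (ctr d) (axs d) := subset_convexHull _ _ (Or.inr ⟨k, rfl⟩)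
  have h1 : ∑ i, ((ctr d + axs d k) i - (ctr d - axs d k) i) * (y i : ℝ) = d * y k := by
    rw [Finset.sum_eq_single k]
    · simp [axs]
    · intro b _ hb
      simp [axs, Pi.single_eq_of_ne hb]
    · simp
  rcases lt_or_gt_of_ne hk' with h | h
  · refine ⟨_, hm, _, hp, ?_⟩
    have h2 : ∑ i, ((ctr d - axs d k) i - (ctr d + axs d k) i) * (y i : ℝ) =
        -∑ i, ((ctr d + axs d k) i - (ctr d - axs d k) i) * (y i : ℝ) := by
      rw [← Finset.sum_neg_distrib]
      refine Finset.sum_congr rfl fun i _ => by ring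
    rw [h2, h1]
    have : (y k : ℝ) ≤ -1 := by exact_mod_cast (show y k ≤ -1 by omega)
    nlinarith
  · refine ⟨_, hp, _, hm, ?_⟩
    rw [h1]
    have : (1 : ℝ) ≤ y k := by exact_mod_cast (show 1 ≤ y k by omega)
    nlinarith

end Pool.Agent.Lib.MP_d2370c_gt
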